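import Pool.Agent.Q98.BM.Final

/-!
# Almost commuting isometries without separability of the dual space

If `T - 1` is compact and the isometries `k n` converge to the identity at every vector, then
`k n T (k n)⁻¹` converges to `T` in norm: in the ultrapower the isometry `T⁻¹ (k T k⁻¹)` is unipotent.
-/

set_option autoImplicit false

open Filter Topology Metric
open Pool.H590R3.Ab Pool.Agent.W687.Rot

namespace Pool.Agent.Q98.BM

variable {E : Type*} [NormedAddCommGroup E] [NormedSpace ℝ E] [CompleteSpace E]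

lemma scal_aux (T : E ≃ₗᵢ[ℝ] E) {R : ℝ} (hR : R ≠ 0) (v y : E) :
    (T v - v) - R • (T y - y) = R • ((T (R⁻¹ • v) - R⁻¹ • v) - (T y - y)) := by
  have h1 : R • (T (R⁻¹ • v) - R⁻¹ • v) = T v - v := by
    rw [map_smul, ← smul_sub, smul_smul, mul_inv_cancel₀ hR, one_smul]
  rw [smul_sub R (T (R⁻¹ • v) - R⁻¹ • v), h1]

/-- `T - 1` maps the ultrapower into the space -/
lemma up_compact {T : E ≃ₗᵢ[ℝ] E} (hF : FF T) (z : UP E) :
    ∃ e : E, upI (fun _ => T) z - z = cst e := by
  obtain ⟨x, rfl⟩ := mk_surj z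
  -- the set of values is relatively compact
  set R : ℝ := ‖x‖ + 1 with hR
  have hR0 : 0 < R := by positivity
  set B : Set E := Set.range (fun n => T (x n) - x n) with hB
  have htb : TotallyBounded B := by
    rw [Metric.totallyBounded_iff]
    intro ε hε
    obtain ⟨t, ht⟩ := net hF (ε := ε / (2 * R)) (by positivity)
    classical
    refine ⟨(t.image (fun y => R • (T y - y)) : Finset E), Finset.finite_toSet _, ?_⟩
    rintro _ ⟨n, rfl⟩
    obtain ⟨y, hy, hxy⟩ := ht (R⁻¹ • x n) (by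
      rw [norm_smul, norm_inv, Real.norm_of_nonneg hR0.le, inv_mul_le_iff₀ hR0, mul_one]
      have := li_le x n
      linarith)
    rw [Set.mem_iUnion₂]
    refine ⟨R • (T y - y), by
      rw [Finset.mem_coe]
      exact Finset.mem_image_of_mem _ hy, ?_⟩
    rw [mem_ball, dist_eq_norm]
    have e1 : (T (x n) - x n) - R • (T y - y) =
        R • ((T (R⁻¹ • x n) - R⁻¹ • x n) - (T y - y)) := scal_aux T hR0.ne' (x n) y
    rw [e1, norm_smul, Real.norm_of_nonneg hR0.le]
    calc _ ≤ R * (ε / (2 * R)) := mul_le_mul_of_nonneg_left hxy hR0.le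
      _ = ε / 2 := by field_simp
      _ < ε := by linarith
  have hc : IsCompact (closure B) := htb.closure.isCompact_of_isClosed isClosed_closure
  obtain ⟨e, -, he⟩ := hc.ultrafilter_le_nhds ((hyperfilter ℕ).map (fun n => T (x n) - x n)) (by
    rw [Ultrafilter.coe_map, le_principal_iff]
    exact Filter.mem_map.2 (Filter.univ_mem' (fun n => subset_closure ⟨n, rfl⟩)))
  have he' : Tendsto (fun n => T (x n) - x n) (hyperfilter ℕ : Filter ℕ) (𝓝 e) := he
  refine ⟨e, ?_⟩
  have h0 : upI (fun _ => T) (mk x) - mk x = mk (lA (fun _ => op T) 1 (fun _ => op_norm_le _) x - x) :=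
    rfl
  rw [h0]
  refine (mk_eq_iff _ _).2 ?_
  have h2 := (he'.sub (tendsto_const_nhds (x := e))).norm
  rw [sub_self, norm_zero] at h2
  exact h2

/-- the key lemma: convergence in norm of the conjugates -/
lemma conj_conv {T : E ≃ₗᵢ[ℝ] E} (hF : FF T) (k : ℕ → E ≃ₗᵢ[ℝ] E)
    (hk : ∀ x, Tendsto (fun n => ‖k n x - x‖) (hyperfilter ℕ : Filter ℕ) (𝓝 0)) (z : UP E) :
    upI k (upI (fun _ => T) z) = upI (fun _ => T) (upI k z) := by
  set K := upI k with hK
  set U := upI (fun _ => T) with hU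
  have hKc : ∀ x : E, K (cst x) = cst x := by
    intro x
    show mk _ = mk _
    rw [mk_eq_iff]
    exact hk x
  have hKc' : ∀ x : E, K.symm (cst x) = cst x := by
    intro x
    rw [LinearIsometryEquiv.symm_apply_eq, hKc]
  have hUc : ∀ x : E, U (cst x) = cst (T x) := fun x => rfl
  set S : UP E ≃ₗᵢ[ℝ] UP E := ((K.symm.trans U).trans K).trans U.symm with hS
  have hSa : ∀ w, S w = U.symm (K (U (K.symm w))) := fun w => rfl
  have hSc : ∀ x : E, S (cst x) = cst x := by
    intro x
    rw [hSa, hKc', hUc, hKc, LinearIsometryEquiv.symm_apply_eq, hUc]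
  have hSd : ∀ w, ∃ e : E, S w - w = cst e := by
    intro w
    obtain ⟨e1, he1⟩ := up_compact hF (K.symm w)
    set v := K (U (K.symm w)) with hv
    obtain ⟨e2, he2⟩ := up_compact hF (U.symm v)
    rw [← hU] at he1 he2
    have h1 : v - w = cst e1 := by
      have h2 : v - w = K (U (K.symm w) - K.symm w) := by
        rw [map_sub K, K.apply_symm_apply]
      rw [h2, he1, hKc]
    have h2 : U.symm v - v = -cst e2 := by
      rw [← he2, U.apply_symm_apply]
      abel
    refine ⟨e1 - e2, ?_⟩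
    rw [map_sub, ← h1, hSa, ← hv]
    have h3 : U.symm v - w = (U.symm v - v) + (v - w) := by abel
    rw [h3, h2]
    abel
  have hS1 : ∀ w, S w = w := by
    intro w
    have h1 : dm S w = 0 := by
      apply dm_ker
      obtain ⟨e, he⟩ := hSd w
      rw [dm_apply S w, he, dm_apply, hSc, sub_self]
    rwa [dm_apply, sub_eq_zero] at h1
  have h1 := hS1 (K z)
  rw [hSa, K.symm_apply_apply, LinearIsometryEquiv.symm_apply_eq] at h1
  exact h1

/-- finitely many vectors control the commutator with `T` -/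
lemma control' [TopologicalSpace.SeparableSpace E] [Nonempty E] {T : E ≃ₗᵢ[ℝ] E} (hF : FF T)
    {ε : ℝ} (hε : 0 < ε) :
    ∃ n : ℕ, ∀ k : E ≃ₗᵢ[ℝ] E, (∀ i : Fin n, ‖k (TopologicalSpace.denseSeq E i) -
      TopologicalSpace.denseSeq E i‖ ≤ 1 / ((n : ℝ) + 1)) → ‖op k * op T - op T * op k‖ ≤ ε := by
  by_contra hcon
  push Not at hcon
  choose k hk1 hk2 using hcon
  have hw : ∀ n, ∃ w : E, ‖w‖ = 1 ∧ ε ≤ ‖(op (k n) * op T - op T * op (k n)) w‖ := by
    intro n
    by_contra hno
    push Not at hno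
    have := hk2 n
    refine absurd this (not_lt.2 ?_)
    refine ContinuousLinearMap.opNorm_le_bound _ hε.le (fun w => ?_)
    rcases eq_or_ne w 0 with rfl | hw
    · simp
    have hwn : 0 < ‖w‖ := norm_pos_iff.2 hw
    have h3 := (hno (‖w‖⁻¹ • w) (by
      rw [norm_smul, norm_inv, norm_norm, inv_mul_cancel₀ hwn.ne'])).le
    rw [map_smul, norm_smul, norm_inv, norm_norm, inv_mul_le_iff₀ hwn] at h3
    linarith
  choose w hw1 hw2 using hw
  have hconv : ∀ x, Tendsto (fun n => ‖k n x - x‖) (hyperfilter ℕ : Filter ℕ) (𝓝 0) := by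
    intro x
    refine Tendsto.mono_left ?_ Nat.hyperfilter_le_atTop
    rw [Metric.tendsto_atTop]
    intro δ hδ
    obtain ⟨i, hi⟩ : ∃ i : ℕ, ‖x - TopologicalSpace.denseSeq E i‖ < δ / 4 := by
      have h1 := TopologicalSpace.denseRange_denseSeq E
      obtain ⟨i, hi⟩ := h1.exists_dist_lt x (show 0 < δ / 4 by positivity)
      exact ⟨i, by rwa [← dist_eq_norm]⟩
    obtain ⟨N, hN⟩ := exists_nat_gt (4 / δ)
    refine ⟨max N (i + 1), fun n hn => ?_⟩
    have hn1 : N ≤ n := (le_max_left _ _).trans hn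
    have hn2 : i < n := lt_of_lt_of_le (Nat.lt_succ_self i) ((le_max_right _ _).trans hn)
    rw [Real.dist_eq, sub_zero, abs_of_nonneg (norm_nonneg _)]
    set d := TopologicalSpace.denseSeq E i with hd
    have h1 := hk1 n ⟨i, hn2⟩
    have h2 : 1 / ((n : ℝ) + 1) ≤ δ / 4 := by
      rw [div_lt_iff₀ hδ] at hN
      have h3 : (N : ℝ) ≤ n := by exact_mod_cast hn1
      rw [div_le_div_iff₀ (by positivity) (by norm_num)]
      nlinarith
    have h3 : k n x - x = k n (x - d) + (k n d - d) - (x - d) := by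
      rw [map_sub]; abel
    have h4 : ‖k n x - x‖ ≤ ‖x - d‖ + ‖k n d - d‖ + ‖x - d‖ := by
      rw [h3]
      refine (norm_sub_le _ _).trans ?_
      have := norm_add_le (k n (x - d)) (k n d - d)
      rw [(k n).norm_map] at this
      linarith
    have h5 : ‖k n d - d‖ ≤ 1 / ((n : ℝ) + 1) := h1
    linarith
  let W : Li E := sq' w ⟨1, fun n => (hw1 n).le⟩
  have h1 := conj_conv hF k hconv (mk W)
  have h2 : mk (sq' (fun n => k n (T (w n))) ⟨1, fun n => by
      rw [(k n).norm_map, T.norm_map, hw1]⟩) =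
      mk (sq' (fun n => T (k n (w n))) ⟨1, fun n => by
      rw [T.norm_map, (k n).norm_map, hw1]⟩) := h1
  rw [mk_eq_iff] at h2
  have h3 : ε ≤ 0 := ge_of_tendsto h2 (Eventually.of_forall fun n => hw2 n)
  linarith

theorem ac_of_sep [TopologicalSpace.SeparableSpace E] (htr : Trans E) {T : E ≃ₗᵢ[ℝ] E}
    (hF : FF T) : AC T := by
  intro ε hε x hx
  have : Nonempty E := ⟨x⟩
  obtain ⟨n, hctl⟩ := control' hF hε
  have : SecondCountableTopology E := UniformSpace.secondCountable_of_separable E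
  obtain ⟨r, hr, h⟩ := near htr (M := Fin n → E)
    (fun g => fun i => g (TopologicalSpace.denseSeq E i))
    (TopologicalSpace.IsSeparable.of_separableSpace _)
    (κ := 1 / ((n : ℝ) + 1)) (by positivity) x hx
  refine ⟨r, hr, fun y hy hyx η hη => ?_⟩
  obtain ⟨g, h', h1, h2⟩ := h y hy hyx η hη
  refine ⟨h'⁻¹ * g, ?_, h2⟩
  rw [dist_pi_lt_iff (by positivity)] at h1
  apply hctl
  intro i
  have h5 := h1 i
  rw [dist_eq_norm] at h5
  show ‖h'.symm (g (TopologicalSpace.denseSeq E i)) - TopologicalSpace.denseSeq E i‖ ≤ _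
  have h6 : h'.symm (g (TopologicalSpace.denseSeq E i)) - TopologicalSpace.denseSeq E i =
      h'.symm (g (TopologicalSpace.denseSeq E i) - h' (TopologicalSpace.denseSeq E i)) := by
    rw [map_sub h'.symm, h'.symm_apply_apply]
  rw [h6, LinearIsometryEquiv.norm_map]
  exact h5.le

end Pool.Agent.Q98.BM
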