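import Pool.Agent.Q98.BM.Lim

/-!
# Existence and uniqueness of the invariant form
-/

set_option autoImplicit false

open Filter Topology

namespace Pool.Agent.Q98.BM

variable {Z : Type*} [NormedAddCommGroup Z] [NormedSpace ℝ Z]

/-- invariance under the isometries which are finite rank perturbations of the identity -/
def FInv (β : Z →ₗ[ℝ] Z →ₗ[ℝ] ℝ) : Prop :=
  ∀ S : Z ≃ₗᵢ[ℝ] Z, FR S → ∀ x y, β (S x) (S y) = β x y

lemma inv_of_FR {T : Z ≃ₗᵢ[ℝ] Z} (hT : FR T) {P : Z →L[ℝ] Z}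
    (hP : ∀ D : Submodule ℝ Z, (∀ x ∈ D, dm T x ∈ D) → ∀ x ∈ D, P x ∈ D)
    {D : Submodule ℝ Z} (hD : ∀ S : Z ≃ₗᵢ[ℝ] Z, FR S → ∀ x ∈ D, S x ∈ D) : Inv P D := by
  intro h x hx
  have h1 := hP (D.comap (h.toLinearEquiv : Z →ₗ[ℝ] Z)) (by
    intro y hy
    rw [Submodule.mem_comap] at *
    have h2 := hD _ (hT.conj h) (h y) hy
    have h3 : h (dm T y) = (((h.symm.trans T).trans h) (h y)) - h y := by
      rw [dm_apply, map_sub]
      simp
    show h (dm T y) ∈ D
    rw [h3]
    exact D.sub_mem h2 hy) (h.symm x) (by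
    rw [Submodule.mem_comap]
    show h (h.symm x) ∈ D
    rw [h.apply_symm_apply]
    exact hx)
  exact h1

lemma ultra_lim {ι : Type*} (U : Ultrafilter ι) {f : ι → ℝ} {C : ℝ} (hf : ∀ᶠ i in U, |f i| ≤ C) :
    ∃ l, Tendsto f U (𝓝 l) := by
  have h1 : IsCompact (Set.Icc (-C) C) := isCompact_Icc
  obtain ⟨x, -, hx⟩ := h1.ultrafilter_le_nhds (U.map f) (by
    rw [Ultrafilter.coe_map, le_principal_iff]
    exact Filter.mem_map.2 (hf.mono (fun n hn => abs_le.1 hn)))
  exact ⟨x, hx⟩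

theorem exists_form (htr : Trans Z) (hinf : ¬ FiniteDimensional ℝ Z) (T : Z ≃ₗᵢ[ℝ] Z)
    (hT : FR T) (hT1 : ∃ x, T x ≠ x) :
    ∃ β : Z →ₗ[ℝ] Z →ₗ[ℝ] ℝ, PSD β ∧ (∀ x, x ≠ 0 → 0 < β x x) ∧ FInv β := by
  classical
  have hfd : FiniteDimensional ℝ (LinearMap.range (dm T : Z →ₗ[ℝ] Z)) := hT
  obtain ⟨P, hP1, hP2, hP3, hP4, -, hP6⟩ := proj_exists (dm T) (fun x => dm_ker x)
  have hPne : ∃ x, P x ≠ 0 := by
    obtain ⟨x, hx⟩ := hT1
    refine ⟨x, fun h => hx ?_⟩
    have := hP2 x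
    rw [h, map_zero, dm_apply] at this
    exact (sub_eq_zero.1 this.symm)
  obtain ⟨x0, hx0⟩ : ∃ x0 : Z, x0 ≠ 0 := by
    obtain ⟨x, hx⟩ := hPne
    exact ⟨_, hx⟩
  obtain ⟨f0, -, hf0⟩ := exists_dual_vector ℝ x0 (norm_ne_zero_iff.2 hx0)
  have hf0x : f0 x0 ≠ 0 := by
    rw [hf0]
    have : ‖x0‖ ≠ 0 := norm_ne_zero_iff.2 hx0
    exact_mod_cast this
  -- the forms
  let Γ := {S : Z ≃ₗᵢ[ℝ] Z // FR S}
  have hex : ∀ Q : Finset Γ, ∃ b : Z →ₗ[ℝ] Z →ₗ[ℝ] ℝ, PSD b ∧ b x0 x0 = 1 ∧
      ∀ S ∈ Q, ∀ x y, b ((S : Z ≃ₗᵢ[ℝ] Z) x) ((S : Z ≃ₗᵢ[ℝ] Z) y) = b x y := by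
    intro Q
    obtain ⟨A, hA, hfA, hSA⟩ := exists_A (Q.map (Function.Embedding.subtype _)) (by
      intro S hS
      rw [Finset.mem_map] at hS
      obtain ⟨S', -, rfl⟩ := hS
      exact S'.2) f0
    obtain ⟨b, hb1, hb2, hb3, hb4⟩ := form_exists A hA
    have hpos : 0 < b x0 x0 := hb3 x0 ⟨f0, hfA, hf0x⟩
    refine ⟨(b x0 x0)⁻¹ • b, ⟨fun x y => ?_, fun x => ?_⟩, ?_, ?_⟩
    · simp only [LinearMap.smul_apply, smul_eq_mul]
      rw [hb1 x y]
    · simp only [LinearMap.smul_apply, smul_eq_mul]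
      exact mul_nonneg (inv_nonneg.2 hpos.le) (hb2 x)
    · simp only [LinearMap.smul_apply, smul_eq_mul]
      exact inv_mul_cancel₀ hpos.ne'
    · intro S hS x y
      simp only [LinearMap.smul_apply, smul_eq_mul]
      rw [hb4 S (hSA S (Finset.mem_map_of_mem _ hS))]
  choose b hb1 hb2 hb3 using hex
  let U : Ultrafilter (Finset Γ) := Ultrafilter.of atTop
  have hU : (U : Filter (Finset Γ)) ≤ atTop := Ultrafilter.of_le _
  have hev : ∀ S : Γ, ∀ᶠ Q in (U : Filter (Finset Γ)), S ∈ Q := by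
    intro S
    apply hU
    filter_upwards [eventually_ge_atTop ({S} : Finset Γ)] with Q hQ
    exact hQ (Finset.mem_singleton_self S)
  -- boundedness
  let D : Submodule ℝ Z :=
    { carrier := {x | ∃ C : ℝ, ∀ᶠ Q in (U : Filter (Finset Γ)), b Q x x ≤ C}
      add_mem' := by
        rintro x y ⟨C, hC⟩ ⟨C', hC'⟩
        refine ⟨2 * C + 2 * C', ?_⟩
        filter_upwards [hC, hC'] with Q h1 h2
        have h3 := (hb1 Q).cs x y
        have h4 := le_abs_self (b Q x y)
        simp only [map_add, LinearMap.add_apply]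
        rw [(hb1 Q).symm y x]
        linarith
      zero_mem' := ⟨0, Eventually.of_forall fun Q => by simp⟩
      smul_mem' := by
        rintro c x ⟨C, hC⟩
        refine ⟨c ^ 2 * C, ?_⟩
        filter_upwards [hC] with Q h1
        simp only [map_smul, LinearMap.smul_apply, smul_eq_mul]
        nlinarith [sq_nonneg c, mul_le_mul_of_nonneg_left h1 (sq_nonneg c)] }
  have hD : Inv P D := by
    refine inv_of_FR hT hP6 ?_
    rintro S hS x ⟨C, hC⟩
    refine ⟨C, ?_⟩
    filter_upwards [hC, hev ⟨S, hS⟩] with Q h1 h2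
    have h3 := hb3 Q ⟨S, hS⟩ h2 x x
    have h4 : b Q (S x) (S x) = b Q x x := h3
    rw [h4]
    exact h1
  have hDtop : D = ⊤ := by
    rcases irr htr hinf P hP1 hPne D hD with h | h
    · exfalso
      have : x0 ∈ D := ⟨1, Eventually.of_forall fun Q => (hb2 Q).le⟩
      rw [h] at this
      exact hx0 ((Submodule.mem_bot ℝ).1 this)
    · exact h
  have hbd : ∀ x, ∃ C : ℝ, ∀ᶠ Q in (U : Filter (Finset Γ)), b Q x x ≤ C := by
    intro x
    have : x ∈ D := by rw [hDtop]; trivial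
    exact this
  have hlim : ∀ x y, ∃ l, Tendsto (fun Q => b Q x y) U (𝓝 l) := by
    intro x y
    obtain ⟨C, hC⟩ := hbd x
    obtain ⟨C', hC'⟩ := hbd y
    refine ultra_lim U (C := (C + C') / 2) ?_
    filter_upwards [hC, hC'] with Q h1 h2
    have := (hb1 Q).cs x y
    linarith
  choose l hl using hlim
  let β : Z →ₗ[ℝ] Z →ₗ[ℝ] ℝ := LinearMap.mk₂ ℝ l
    (fun x x' y => tendsto_nhds_unique (hl (x + x') y) (by
      have := (hl x y).add (hl x' y)
      refine this.congr (fun Q => ?_)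
      simp only [map_add, LinearMap.add_apply]))
    (fun c x y => tendsto_nhds_unique (hl (c • x) y) (by
      have := (hl x y).const_mul c
      refine this.congr (fun Q => ?_)
      simp only [map_smul, LinearMap.smul_apply, smul_eq_mul]))
    (fun x y y' => tendsto_nhds_unique (hl x (y + y')) (by
      have := (hl x y).add (hl x y')
      refine this.congr (fun Q => ?_)
      simp only [map_add]))
    (fun c x y => tendsto_nhds_unique (hl x (c • y)) (by
      have := (hl x y).const_mul c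
      refine this.congr (fun Q => ?_)
      simp only [map_smul, smul_eq_mul]))
  have hβ : ∀ x y, β x y = l x y := fun x y => rfl
  have hpsd : PSD β := by
    refine ⟨fun x y => ?_, fun x => ?_⟩
    · rw [hβ, hβ]
      refine tendsto_nhds_unique (hl x y) ((hl y x).congr (fun Q => (hb1 Q).symm y x))
    · rw [hβ]
      exact ge_of_tendsto (hl x x) (Eventually.of_forall fun Q => (hb1 Q).nn x)
  have hinv : FInv β := by
    intro S hS x y
    rw [hβ, hβ]
    refine tendsto_nhds_unique (hl (S x) (S y)) ((hl x y).congr' ?_)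
    filter_upwards [hev ⟨S, hS⟩] with Q h2
    exact (hb3 Q ⟨S, hS⟩ h2 x y).symm
  refine ⟨β, hpsd, ?_, hinv⟩
  let N : Submodule ℝ Z :=
    { carrier := {x | β x x = 0}
      add_mem' := by
        intro x y hx hy
        show β (x + y) (x + y) = 0
        simp only [map_add, LinearMap.add_apply]
        rw [hpsd.null hx x, hpsd.null hy x, hpsd.null hx y, hpsd.null hy y]
        simp
      zero_mem' := by
        show β 0 0 = 0
        simp
      smul_mem' := by
        intro c x hx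
        show β (c • x) (c • x) = 0
        simp only [map_smul, LinearMap.smul_apply, smul_eq_mul]
        rw [hx]
        simp }
  have hN : Inv P N := by
    refine inv_of_FR hT hP6 ?_
    intro S hS x hx
    show β (S x) (S x) = 0
    rw [hinv S hS]
    exact hx
  intro x hx
  rcases (hpsd.nn x).lt_or_eq with h | h
  · exact h
  · exfalso
    rcases irr htr hinf P hP1 hPne N hN with h1 | h1
    · have : x ∈ N := h.symm
      rw [h1] at this
      exact hx ((Submodule.mem_bot ℝ).1 this)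
    · have h2 : x0 ∈ N := by rw [h1]; trivial
      have h3 : β x0 x0 = 0 := h2
      rw [hβ] at h3
      have h4 : l x0 x0 = 1 := by
        refine tendsto_nhds_unique (hl x0 x0) ?_
        refine tendsto_const_nhds.congr (fun Q => (hb2 Q).symm)
      rw [h4] at h3
      exact one_ne_zero h3

end Pool.Agent.Q98.BM
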