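import Pool.Agent.Q98.BM.Exp
import Pool.Agent.W687.RotSpec

/-!
# The smooth functional calculus of an isometry near the point one
-/

set_option autoImplicit false

open Filter Topology
open Pool.H590R3.Ab Pool.Agent.W687.Rot

namespace Pool.Agent.Q98.BM

section landau

variable {V : Type*} [NormedAddCommGroup V] [NormedSpace ℝ V]

lemma pow_sub_le (S : V ≃ₗᵢ[ℝ] V) (w : V) (j : ℕ) : ‖(S ^ j) w - w‖ ≤ j * ‖S w - w‖ := by
  induction j with
  | zero => simp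
  | succ j ih =>
    have h1 : (S ^ (j + 1)) w - w = S ((S ^ j) w - w) + (S w - w) := by
      rw [pow_succ', map_sub]
      show S ((S ^ j) w) - w = S ((S ^ j) w) - S w + (S w - w)
      abel
    rw [h1]
    refine (norm_add_le _ _).trans ?_
    rw [S.norm_map]
    push_cast
    linarith

lemma pow_taylor (S : V ≃ₗᵢ[ℝ] V) (y : V) (n : ℕ) :
    ‖(S ^ n) y - y - (n : ℝ) • (S y - y)‖ ≤ (n : ℝ) ^ 2 * ‖S (S y - y) - (S y - y)‖ := by
  induction n with
  | zero => simp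
  | succ n ih =>
    have h1 : (S ^ (n + 1)) y - y - ((n + 1 : ℕ) : ℝ) • (S y - y) =
        ((S ^ n) y - y - (n : ℝ) • (S y - y)) + ((S ^ n) (S y - y) - (S y - y)) := by
      have e : (S ^ (n + 1)) y = (S ^ n) (S y) := by rw [pow_succ]; rfl
      rw [e, map_sub]
      push_cast
      rw [add_smul, one_smul]
      abel
    rw [h1]
    refine (norm_add_le _ _).trans ?_
    have h2 := pow_sub_le S (S y - y) n
    push_cast
    have h3 : 0 ≤ ‖S (S y - y) - (S y - y)‖ := norm_nonneg _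
    have h4 : (0 : ℝ) ≤ n := Nat.cast_nonneg n
    nlinarith

lemma landau (S : V ≃ₗᵢ[ℝ] V) (y : V) (n : ℕ) :
    (n : ℝ) * ‖S y - y‖ ≤ 2 * ‖y‖ + (n : ℝ) ^ 2 * ‖S (S y - y) - (S y - y)‖ := by
  have h1 := pow_taylor S y n
  have h2 : ‖(n : ℝ) • (S y - y)‖ ≤ ‖(S ^ n) y - y‖ +
      ‖(S ^ n) y - y - (n : ℝ) • (S y - y)‖ := by
    have := norm_sub_le ((S ^ n) y - y) ((S ^ n) y - y - (n : ℝ) • (S y - y))
    rwa [sub_sub_cancel] at this
  rw [norm_smul, Real.norm_natCast] at h2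
  have h3 : ‖(S ^ n) y - y‖ ≤ 2 * ‖y‖ := by
    refine (norm_sub_le _ _).trans ?_
    rw [LinearIsometryEquiv.norm_map]
    linarith
  linarith

lemma Nn_apply' (S : V ≃ₗᵢ[ℝ] V) (y : V) :
    Nn S y = (1 / 2 : ℝ) • ((S y - y) + (S⁻¹ y - y)) := by
  rw [Nn_apply]
  show (1 / 2 : ℝ) • (S y + S⁻¹ y) - y = _
  module

lemma Nn_le (S : V ≃ₗᵢ[ℝ] V) (y : V) : ‖Nn S y‖ ≤ ‖S y - y‖ := by
  rw [Nn_apply', norm_smul, Real.norm_of_nonneg (by norm_num)]
  have h1 : ‖S⁻¹ y - y‖ = ‖S y - y‖ := by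
    have h2 : S⁻¹ y - y = S.symm (y - S y) := by
      rw [map_sub, S.symm_apply_apply]
      rfl
    rw [h2, LinearIsometryEquiv.norm_map, norm_sub_rev]
  have h3 := norm_add_le (S y - y) (S⁻¹ y - y)
  rw [h1] at h3
  linarith

lemma Nn_sq (S : V ≃ₗᵢ[ℝ] V) (y : V) : ‖S (S y - y) - (S y - y)‖ = 2 * ‖Nn S y‖ := by
  have h1 : S (S y - y) - (S y - y) = (2 : ℝ) • S (Nn S y) := by
    rw [Nn_apply', map_smul, map_add, map_sub, map_sub]
    have : S (S⁻¹ y) = y := S.apply_symm_apply y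
    rw [this]
    module
  rw [h1, norm_smul, LinearIsometryEquiv.norm_map, Real.norm_of_nonneg (by norm_num)]

/-- a vector with small cosine defect is almost fixed -/
lemma fix_of_small (S : V ≃ₗᵢ[ℝ] V) (y : V) (h : Nn S y = 0) : S y = y := by
  rw [← sub_eq_zero]
  by_contra hne
  have hpos : 0 < ‖S y - y‖ := norm_pos_iff.2 hne
  obtain ⟨n, hn⟩ := exists_nat_gt (2 * ‖y‖ / ‖S y - y‖)
  rw [div_lt_iff₀ hpos] at hn
  have h1 := landau S y n
  rw [Nn_sq, h, norm_zero] at h1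
  linarith

/-- Landau's inequality in the form of a modulus -/
lemma landau_mod {ε : ℝ} (hε : 0 < ε) : ∃ r : ℝ, 0 < r ∧ ∀ (V : Type*) [NormedAddCommGroup V]
    [NormedSpace ℝ V] (S : V ≃ₗᵢ[ℝ] V) (y : V), ‖Nn S y‖ ≤ r * ‖y‖ → ‖S y - y‖ ≤ ε * ‖y‖ := by
  obtain ⟨n, hn⟩ := exists_nat_gt (4 / ε)
  have hn0 : (0 : ℝ) < n := lt_trans (by positivity) hn
  refine ⟨ε / (4 * n), by positivity, ?_⟩
  intro V _ _ S y hy
  have h1 := landau S y n
  rw [Nn_sq] at h1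
  rw [div_lt_iff₀ hε] at hn
  have h2 : (n : ℝ) ^ 2 * (2 * ‖Nn S y‖) ≤ (n : ℝ) ^ 2 * (2 * (ε / (4 * n) * ‖y‖)) := by
    gcongr
  have h3 : (n : ℝ) ^ 2 * (2 * (ε / (4 * n) * ‖y‖)) = n * (ε / 2 * ‖y‖) := by
    field_simp
    ring
  rw [h3] at h2
  have h4 : 2 * ‖y‖ ≤ n * (ε / 2 * ‖y‖) := by
    have : 0 ≤ ‖y‖ := norm_nonneg y
    nlinarith
  have h5 : (n : ℝ) * ‖S y - y‖ ≤ n * (ε * ‖y‖) := by linarith
  exact le_of_mul_le_mul_left h5 hn0

end landau

section cal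

variable {E : Type*} [NormedAddCommGroup E] [NormedSpace ℝ E] [CompleteSpace E]

/-- the vectors killed by the bump -/
lemma far_bound {e : ℝ} (he : 0 < e) : ∃ K : ℝ, 0 < K ∧ ∀ (V : Type*) [NormedAddCommGroup V]
    [NormedSpace ℝ V] [CompleteSpace V] (U : V ≃ₗᵢ[ℝ] V) (z : V), Ps U (bd e) z = 0 →
    ‖z‖ ≤ K * ‖U z - z‖ := by
  refine ⟨(∑' k, |cg (gam e) k|) + 1, ?_, ?_⟩
  · have : 0 ≤ ∑' k, |cg (gam e) k| := tsum_nonneg (fun _ => abs_nonneg _)
    linarith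
  · intro V _ _ _ U z hz
    have h1 := gam_apply U he z
    rw [hz, zero_sub] at h1
    calc ‖z‖ = ‖-z‖ := (norm_neg z).symm
      _ = ‖Ps U (gam e) (Nn U z)‖ := by rw [h1]
      _ ≤ (∑' k, |cg (gam e) k|) * ‖Nn U z‖ := by
          refine (ContinuousLinearMap.le_opNorm _ _).trans ?_
          exact mul_le_mul_of_nonneg_right (Ps_norm U (gam_contDiff he)) (norm_nonneg _)
      _ ≤ ((∑' k, |cg (gam e) k|) + 1) * ‖U z - z‖ := by
          have h2 := Nn_le U z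
          have h3 : 0 ≤ ∑' k, |cg (gam e) k| := tsum_nonneg (fun _ => abs_nonneg _)
          have h4 : 0 ≤ ‖U z - z‖ := norm_nonneg _
          nlinarith

/-- the vectors fixed by a small bump are almost fixed by the isometry -/
lemma near_bound {ε : ℝ} (hε : 0 < ε) : ∃ e0 : ℝ, 0 < e0 ∧ e0 ≤ 1 ∧ ∀ e : ℝ, 0 < e → e < e0 →
    ∀ (V : Type*) [NormedAddCommGroup V] [NormedSpace ℝ V] [CompleteSpace V]
      (U : V ≃ₗᵢ[ℝ] V) (z : V), Ps U (bd e) z = z → ‖U z - z‖ ≤ ε * ‖z‖ := by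
  obtain ⟨r, hr, hr'⟩ := landau_mod hε
  obtain ⟨d0, hd0, hd⟩ := small hr
  refine ⟨min d0 1, by positivity, min_le_right _ _, ?_⟩
  intro e he he0 V _ _ _ U z hz
  apply hr' V U z
  have h1 : Nn U z = Ps U (fun u => (u - 1) * b ((u - 1) / e)) z := by
    have h2 : Nn U * Ps U (bd e) = Ps U (fun u => (u - 1) * b ((u - 1) / e)) :=
      Co_Ps U (bd_contDiff e) 1
    rw [← h2]
    show Nn U z = Nn U (Ps U (bd e) z)
    rw [hz]
  rw [h1]
  refine (ContinuousLinearMap.le_opNorm _ _).trans ?_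
  refine mul_le_mul_of_nonneg_right ?_ (norm_nonneg _)
  have hgd : ContDiff ℝ 2 (fun u : ℝ => (u - 1) * b ((u - 1) / e)) :=
    (contDiff_id.sub contDiff_const).mul
      (b_contDiff.comp ((contDiff_id.sub contDiff_const).div_const _))
  exact (Ps_norm U hgd).trans (hd e he (lt_of_lt_of_le he0 (min_le_left _ _))
    (he0.le.trans (min_le_right _ _)) 1)

/-- the complement of the bump -/
noncomputable def cb (e u : ℝ) : ℝ := 1 - bd e u

lemma cb_contDiff (e : ℝ) : ContDiff ℝ 2 (cb e) := contDiff_const.sub (bd_contDiff e)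

lemma Ps_cb (U : E ≃ₗᵢ[ℝ] E) (e : ℝ) (z : E) : Ps U (cb e) z = z - Ps U (bd e) z := by
  have h1 := Ps_sub U (g := fun _ => 1) contDiff_const (bd_contDiff e)
  rw [Ps_one] at h1
  have h2 : Ps U (cb e) = 1 - Ps U (bd e) := h1.symm
  rw [h2]
  rfl

lemma bd_mul_cb {e e' : ℝ} (he : 0 < e) (he' : 0 < e') (h : e' ≤ e / 2) (u : ℝ) :
    bd e' u * cb e u = 0 := by
  unfold cb
  rcases le_total e' |u - 1| with h1 | h1
  · rw [bd_zero he' h1, zero_mul]
  · rw [bd_one he (h1.trans h), sub_self, mul_zero]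

lemma Ps_zero (U : E ≃ₗᵢ[ℝ] E) : Ps U (fun _ => 0) = 0 := by
  have := Ps_sub U (g := fun _ => 1) (h := fun _ => 1) contDiff_const contDiff_const
  rw [sub_self] at this
  rw [this]
  congr 1
  funext u
  simp

lemma Ps_bd_cb (U : E ≃ₗᵢ[ℝ] E) {e e' : ℝ} (he : 0 < e) (he' : 0 < e') (h : e' ≤ e / 2) (z : E) :
    Ps U (bd e') (Ps U (cb e) z) = 0 := by
  have h1 := Ps_mul U (bd_contDiff e') (cb_contDiff e)
  have h2 : (fun u => bd e' u * cb e u) = fun _ => 0 := funext (bd_mul_cb he he' h)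
  rw [h2, Ps_zero] at h1
  exact DFunLike.congr_fun h1 z

lemma Ps_bd_cb' (U : E ≃ₗᵢ[ℝ] E) {e e' : ℝ} (he : 0 < e) (he' : 0 < e') (h : e' ≤ e / 2) (z : E) :
    Ps U (cb e) (Ps U (bd e') z) = 0 := by
  have h1 := Ps_comm U (bd_contDiff e') (cb_contDiff e)
  have h2 : Ps U (cb e) (Ps U (bd e') z) = Ps U (bd e') (Ps U (cb e) z) :=
    (DFunLike.congr_fun h1 z).symm
  rw [h2, Ps_bd_cb U he he' h]

/-- strict singularity of `T - 1` -/
def SS (T : E ≃ₗᵢ[ℝ] E) : Prop :=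
  ∀ M : Submodule ℝ E, IsClosed (M : Set E) → (∃ c : ℝ, 0 < c ∧ ∀ x ∈ M, c * ‖x‖ ≤ ‖T x - x‖) →
    FiniteDimensional ℝ M

/-- the far parts are of finite rank -/
def FF (T : E ≃ₗᵢ[ℝ] E) : Prop :=
  ∀ e : ℝ, 0 < e → FiniteDimensional ℝ (LinearMap.range (Ps T (cb e) : E →ₗ[ℝ] E))

lemma SS.ff {T : E ≃ₗᵢ[ℝ] E} (hT : SS T) : FF T := by
  intro e he
  obtain ⟨K, hK, hK'⟩ := far_bound (e := e / 4) (by positivity)
  set M : Submodule ℝ E := LinearMap.ker (Ps T (bd (e / 4)) : E →ₗ[ℝ] E) with hM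
  have hMc : IsClosed (M : Set E) := (Ps T (bd (e / 4))).isClosed_ker
  have h1 : FiniteDimensional ℝ M := by
    refine hT M hMc ⟨1 / K, by positivity, fun x hx => ?_⟩
    have h2 := hK' E T x hx
    rw [div_mul_eq_mul_div, one_mul, div_le_iff₀ hK, mul_comm]
    exact h2
  refine Submodule.finiteDimensional_of_le (S₂ := M) ?_
  rintro _ ⟨x, rfl⟩
  exact Ps_bd_cb T he (by positivity) (by linarith) x

/-- a nontrivial isometry has a nontrivial far part -/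
lemma exists_far {T : E ≃ₗᵢ[ℝ] E} (hT : ∃ x, T x ≠ x) : ∃ e : ℝ, 0 < e ∧ Ps T (cb e) ≠ 0 := by
  by_contra hcon
  push Not at hcon
  obtain ⟨x, hx⟩ := hT
  have hpos : 0 < ‖T x - x‖ := norm_pos_iff.2 (sub_ne_zero.2 hx)
  have hx0 : 0 < ‖x‖ := by
    rw [norm_pos_iff]
    rintro rfl
    exact hx (map_zero T)
  obtain ⟨e0, he0, -, h⟩ := near_bound (ε := ‖T x - x‖ / (2 * ‖x‖)) (by positivity)
  have h1 := h (e0 / 2) (by positivity) (by linarith) E T x (by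
    have h2 := Ps_cb T (e0 / 2) x
    rw [hcon _ (by positivity)] at h2
    exact (sub_eq_zero.1 h2.symm).symm)
  have h3 : ‖T x - x‖ / (2 * ‖x‖) * ‖x‖ = ‖T x - x‖ / 2 := by field_simp
  rw [h3] at h1
  linarith

/-- the projection in the bicommutant -/
theorem exists_proj {T : E ≃ₗᵢ[ℝ] E} (hT : ∃ x, T x ≠ x) (hF : FF T) :
    ∃ P : E →L[ℝ] E, (∀ x, P (P x) = P x) ∧ (∃ x, P x ≠ 0) ∧
      FiniteDimensional ℝ (LinearMap.range (P : E →ₗ[ℝ] E)) ∧
      (∀ B : E →L[ℝ] E, (∀ x, B (T x) = T (B x)) → ∀ x, B (P x) = P (B x)) := by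
  obtain ⟨e, he, hne⟩ := exists_far hT
  have hfd := hF (e / 4) (by positivity)
  have hmul : ∀ x, Ps T (cb (e / 4)) (Ps T (cb e) x) = Ps T (cb e) x := by
    intro x
    rw [Ps_cb T (e / 4), Ps_bd_cb T he (by positivity) (by linarith), sub_zero]
  obtain ⟨P, h1, h2, h3, h4⟩ := proj_of_not_nilp (Ps T (cb (e / 4))) (by
    intro m hm
    apply hne
    ext x
    have h5 : ∀ k : ℕ, ((Ps T (cb (e / 4))) ^ k) (Ps T (cb e) x) = Ps T (cb e) x := by
      intro k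
      induction k with
      | zero => rfl
      | succ k ih =>
        rw [pow_succ']
        show Ps T (cb (e / 4)) (((Ps T (cb (e / 4))) ^ k) (Ps T (cb e) x)) = _
        rw [ih, hmul]
    have h6 := h5 m
    rw [hm] at h6
    exact h6.symm)
  refine ⟨P, h1, h2, h3, fun B hB => h4 B ?_⟩
  have hBk : ∀ k : ℤ, B * op (T ^ k) = op (T ^ k) * B := by
    have hc : Commute B (op T) := by
      ext x
      exact hB x
    have hi : Commute B (op T⁻¹) := by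
      ext x
      show B (T.symm x) = T.symm (B x)
      rw [LinearIsometryEquiv.eq_symm_apply, ← hB, T.apply_symm_apply]
    have hnat : ∀ (S : E ≃ₗᵢ[ℝ] E) (k : ℕ), op (S ^ k) = (op S) ^ k := by
      intro S k
      induction k with
      | zero => rw [pow_zero, pow_zero, op_one]
      | succ k ih => rw [pow_succ, pow_succ, op_mul, ih]
    intro k
    rcases Int.eq_nat_or_neg k with ⟨m, rfl | rfl⟩
    · rw [zpow_natCast, hnat]
      exact (hc.pow_right m).eq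
    · rw [zpow_neg, zpow_natCast, ← inv_pow, hnat]
      exact (hi.pow_right m).eq
  have h7 := Fop_comm_of T (sm (cb_contDiff (e / 4))) B hBk
  intro x
  exact DFunLike.congr_fun h7 x

end cal

end Pool.Agent.Q98.BM
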