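import Pool.Agent.Q98.BM.Near

/-!
# Separable duals: almost commuting isometries
-/

set_option autoImplicit false

open Filter Topology Metric
open Pool.H590R3.Ab Pool.Agent.W687.Rot

namespace Pool.Agent.Q98.BM

variable {E : Type*} [NormedAddCommGroup E] [NormedSpace ℝ E] [CompleteSpace E]

/-- `T - 1` is small up to an operator of finite rank -/
lemma small_mod {T : E ≃ₗᵢ[ℝ] E} (hF : FF T) {ε : ℝ} (hε : 0 < ε) :
    ∃ (Ph : E →L[ℝ] E) (C : ℝ), 0 ≤ C ∧ FiniteDimensional ℝ (LinearMap.range (Ph : E →ₗ[ℝ] E)) ∧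
      ∀ y, ‖T y - y‖ ≤ ε * ‖y‖ + C * ‖Ph y‖ := by
  obtain ⟨e0, he0, -, h⟩ := near_bound hε
  set Ph := Ps T (cb (e0 / 2)) with hPh
  have hfd : FiniteDimensional ℝ (LinearMap.range (Ph : E →ₗ[ℝ] E)) := hF _ (by positivity)
  set G := LinearMap.range (Ph : E →ₗ[ℝ] E) with hG
  obtain ⟨s, hs⟩ := (LinearMap.rangeRestrict (Ph : E →ₗ[ℝ] E)).exists_rightInverse_of_surjective
    (LinearMap.range_rangeRestrict _)
  set sc : G →L[ℝ] E := LinearMap.toContinuousLinearMap s with hsc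
  have hsG : ∀ f : G, Ph (s f) = f := by
    intro f
    have := LinearMap.congr_fun hs f
    exact congrArg Subtype.val this
  refine ⟨Ph, (ε + 2) * ‖sc‖, by positivity, hfd, fun y => ?_⟩
  set f : G := ⟨Ph y, y, rfl⟩ with hf
  set n : E := y - s f with hn
  have hPn : Ph n = 0 := by
    rw [hn, map_sub, hsG, hf, sub_self]
  have hyn : ‖y - n‖ ≤ ‖sc‖ * ‖Ph y‖ := by
    have h1 : y - n = sc f := by
      rw [hn, sub_sub_cancel]
      rfl
    rw [h1]
    exact sc.le_opNorm f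
  have h1 : ‖T n - n‖ ≤ ε * ‖n‖ := by
    refine h (e0 / 2) (by positivity) (by linarith) E T n ?_
    have h2 := Ps_cb T (e0 / 2) n
    rw [← hPh, hPn] at h2
    exact (sub_eq_zero.1 h2.symm).symm
  have h2 : T y - y = (T n - n) + (T (y - n) - (y - n)) := by
    rw [map_sub T y n]; abel
  have h3 : ‖T (y - n) - (y - n)‖ ≤ 2 * ‖y - n‖ := by
    refine (norm_sub_le _ _).trans ?_
    rw [T.norm_map]
    linarith
  have h4 : ‖n‖ ≤ ‖y‖ + ‖y - n‖ := by
    have := norm_sub_le y (y - n)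
    rwa [sub_sub_cancel] at this
  rw [h2]
  refine (norm_add_le _ _).trans ?_
  have h5 : ε * ‖n‖ ≤ ε * (‖y‖ + ‖y - n‖) := mul_le_mul_of_nonneg_left h4 hε.le
  have h6 : (ε + 2) * ‖y - n‖ ≤ (ε + 2) * (‖sc‖ * ‖Ph y‖) :=
    mul_le_mul_of_nonneg_left hyn (by positivity)
  nlinarith

/-- total boundedness of the image of the unit ball -/
lemma net {T : E ≃ₗᵢ[ℝ] E} (hF : FF T) {ε : ℝ} (hε : 0 < ε) :
    ∃ t : Finset E, ∀ x : E, ‖x‖ ≤ 1 → ∃ y ∈ t, ‖(T x - x) - (T y - y)‖ ≤ ε := by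
  obtain ⟨Ph, C, hC, hfd, h⟩ := small_mod hF (ε := ε / 4) (by positivity)
  set G := LinearMap.range (Ph : E →ₗ[ℝ] E) with hG
  have _ : ProperSpace G := FiniteDimensional.proper_real G
  let p : E → G := fun x => ⟨Ph x, x, rfl⟩
  set B : Set G := p '' closedBall (0 : E) 1 with hB
  have hBb : IsCompact (closure B) := by
    refine (isCompact_closedBall (0 : G) ‖Ph‖).of_isClosed_subset isClosed_closure ?_
    refine closure_minimal ?_ isClosed_closedBall
    rintro _ ⟨x, hx, rfl⟩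
    rw [mem_closedBall_zero_iff] at hx ⊢
    show ‖Ph x‖ ≤ ‖Ph‖
    exact (Ph.le_opNorm x).trans (mul_le_of_le_one_right (norm_nonneg _) hx)
  set δ : ℝ := ε / (4 * (C + 1)) with hδ
  have hδ0 : 0 < δ := by positivity
  obtain ⟨t, ht⟩ := hBb.elim_finite_subcover (fun x : closedBall (0 : E) 1 => ball (p x) δ)
    (fun x => isOpen_ball) (by
      intro q hq
      obtain ⟨_, ⟨x, hx, rfl⟩, hx2⟩ := Metric.mem_closure_iff.1 hq δ hδ0
      exact Set.mem_iUnion.2 ⟨⟨x, hx⟩, hx2⟩)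
  classical
  refine ⟨t.image Subtype.val, fun x hx => ?_⟩
  have h1 : p x ∈ closure B := subset_closure ⟨x, by rwa [mem_closedBall_zero_iff], rfl⟩
  obtain ⟨y, hy, hy2⟩ := Set.mem_iUnion₂.1 (ht h1)
  refine ⟨y, Finset.mem_image_of_mem _ hy, ?_⟩
  have h2 : (T x - x) - (T (y : E) - y) = T (x - y) - (x - y) := by
    rw [map_sub]; abel
  rw [h2]
  refine (h _).trans ?_
  have hy1 : ‖(y : E)‖ ≤ 1 := by
    have := y.2
    rwa [mem_closedBall_zero_iff] at this
  have h3 : ‖x - y‖ ≤ 2 := (norm_sub_le _ _).trans (by linarith)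
  have h4 : ‖Ph (x - y)‖ ≤ δ := by
    rw [mem_ball, dist_eq_norm] at hy2
    have h5 : ‖p x - p y‖ = ‖Ph (x - y)‖ := by
      rw [map_sub]
      rfl
    rw [← h5]
    exact hy2.le
  have h5 : C * ‖Ph (x - y)‖ ≤ ε / 4 := by
    calc C * ‖Ph (x - y)‖ ≤ (C + 1) * δ :=
          mul_le_mul (by linarith) h4 (norm_nonneg _) (by linarith)
      _ = ε / 4 := by
          rw [hδ]
          field_simp
  nlinarith

/-- finitely many vectors and functionals control the commutator with `T` -/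
lemma control {T : E ≃ₗᵢ[ℝ] E} (hF : FF T) {ε : ℝ} (hε : 0 < ε) :
    ∃ (t : Finset E) (m : ℕ) (ph : Fin m → StrongDual ℝ E) (δ : ℝ), 0 < δ ∧
      ∀ k : E ≃ₗᵢ[ℝ] E, (∀ y ∈ t, ‖k (T y - y) - (T y - y)‖ ≤ δ) →
        (∀ j, ‖cp k (ph j) - ph j‖ ≤ δ) → ‖op k * op T - op T * op k‖ ≤ ε := by
  obtain ⟨t, ht⟩ := net hF (ε := ε / 8) (by positivity)
  obtain ⟨Ph, C, hC, hfd, h⟩ := small_mod hF (ε := ε / 8) (by positivity)
  set G := LinearMap.range (Ph : E →ₗ[ℝ] E) with hG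
  set b := Module.finBasis ℝ G with hb
  set m := Module.finrank ℝ G with hm
  let PG : E →L[ℝ] G := Ph.codRestrict G (fun x => ⟨x, rfl⟩)
  let ph : Fin m → StrongDual ℝ E := fun j =>
    (LinearMap.toContinuousLinearMap (b.coord j)).comp PG
  set Sb : ℝ := ∑ j, ‖b j‖ with hSb
  have hSb0 : 0 ≤ Sb := Finset.sum_nonneg fun j _ => norm_nonneg _
  set δ : ℝ := min (ε / 8) (ε / (8 * (C * Sb + 1))) with hδ
  have hδ0 : 0 < δ := by positivity
  refine ⟨t, m, ph, δ, hδ0, fun k hk1 hk2 => ?_⟩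
  have hPk : ∀ x : E, ‖Ph (k x - x)‖ ≤ Sb * δ * ‖x‖ := by
    intro x
    have e1 : PG (k x - x) = ∑ j, (cp k (ph j) - ph j) x • b j := by
      rw [← b.sum_repr (PG (k x - x))]
      refine Finset.sum_congr rfl (fun j _ => ?_)
      congr 1
      show b.repr (PG (k x - x)) j = ph j (k x) - ph j x
      rw [← map_sub]
      rfl
    have e2 : ‖Ph (k x - x)‖ = ‖PG (k x - x)‖ := rfl
    rw [e2, e1]
    refine (norm_sum_le _ _).trans ?_
    rw [hSb, Finset.sum_mul, Finset.sum_mul]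
    refine Finset.sum_le_sum (fun j _ => ?_)
    rw [norm_smul]
    have e3 : ‖(cp k (ph j) - ph j) x‖ ≤ δ * ‖x‖ :=
      ((cp k (ph j) - ph j).le_opNorm x).trans
        (mul_le_mul_of_nonneg_right (hk2 j) (norm_nonneg _))
    calc ‖(cp k (ph j) - ph j) x‖ * ‖b j‖ ≤ (δ * ‖x‖) * ‖b j‖ :=
          mul_le_mul_of_nonneg_right e3 (norm_nonneg _)
      _ = ‖b j‖ * δ * ‖x‖ := by ring
  have key : ∀ x : E, ‖x‖ ≤ 1 → ‖k (T x) - T (k x)‖ ≤ ε := by
    intro x hx
    obtain ⟨y, hy, hxy⟩ := ht x hx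
    have e1 : k (T x) - T (k x) = (k ((T x - x) - (T y - y)) - ((T x - x) - (T y - y))) +
        (k (T y - y) - (T y - y)) - (T (k x - x) - (k x - x)) := by
      rw [map_sub k (T x - x), map_sub k (T x), map_sub T (k x)]
      abel
    have e2 : ‖k ((T x - x) - (T y - y)) - ((T x - x) - (T y - y))‖ ≤ 2 * (ε / 8) := by
      refine (norm_sub_le _ _).trans ?_
      rw [k.norm_map]
      linarith
    have e3 := hk1 y hy
    have hδ1 : δ ≤ ε / 8 := min_le_left _ _
    have hδ2 : δ ≤ ε / (8 * (C * Sb + 1)) := min_le_right _ _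
    have e4 : ‖T (k x - x) - (k x - x)‖ ≤ 3 * (ε / 8) := by
      refine (h _).trans ?_
      have f1 : ‖k x - x‖ ≤ 2 := by
        refine (norm_sub_le _ _).trans ?_
        rw [k.norm_map]
        linarith
      have f2 : C * ‖Ph (k x - x)‖ ≤ ε / 8 := by
        have f3 : ‖Ph (k x - x)‖ ≤ Sb * δ := by
          refine (hPk x).trans ?_
          exact mul_le_of_le_one_right (by positivity) hx
        calc C * ‖Ph (k x - x)‖ ≤ C * (Sb * δ) := mul_le_mul_of_nonneg_left f3 hC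
          _ = (C * Sb) * δ := by ring
          _ ≤ (C * Sb + 1) * (ε / (8 * (C * Sb + 1))) :=
              mul_le_mul (by linarith) hδ2 hδ0.le (by positivity)
          _ = ε / 8 := by
              field_simp
      nlinarith
    rw [e1]
    refine (norm_sub_le _ _).trans ?_
    have := norm_add_le (k ((T x - x) - (T y - y)) - ((T x - x) - (T y - y)))
      (k (T y - y) - (T y - y))
    linarith
  refine ContinuousLinearMap.opNorm_le_bound _ hε.le (fun x => ?_)
  show ‖k (T x) - T (k x)‖ ≤ ε * ‖x‖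
  rcases eq_or_ne x 0 with rfl | hx
  · simp
  have hxn : 0 < ‖x‖ := norm_pos_iff.2 hx
  have h1 := key (‖x‖⁻¹ • x) (by
    rw [norm_smul, norm_inv, norm_norm, inv_mul_cancel₀ hxn.ne'])
  rw [map_smul, map_smul, map_smul, map_smul, ← smul_sub, norm_smul, norm_inv, norm_norm] at h1
  rw [inv_mul_le_iff₀ hxn] at h1
  linarith

theorem ac_of_dual [TopologicalSpace.SeparableSpace E]
    [TopologicalSpace.SeparableSpace (StrongDual ℝ E)] (htr : Trans E) {T : E ≃ₗᵢ[ℝ] E}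
    (hF : FF T) : AC T := by
  intro ε hε x hx
  obtain ⟨t, m, ph, δ, hδ, hctl⟩ := control hF hε
  have : SecondCountableTopology E := UniformSpace.secondCountable_of_separable E
  have : SecondCountableTopology (StrongDual ℝ E) :=
    UniformSpace.secondCountable_of_separable _
  obtain ⟨r, hr, h⟩ := near htr (M := (t → E) × (Fin m → StrongDual ℝ E))
    (fun g => (fun y => g (T y - y), fun j => cp g.symm (ph j)))
    (TopologicalSpace.IsSeparable.of_separableSpace _) hδ x hx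
  refine ⟨r, hr, fun y hy hyx η hη => ?_⟩
  obtain ⟨g, h', h1, h2⟩ := h y hy hyx η hη
  refine ⟨h'⁻¹ * g, ?_, h2⟩
  rw [Prod.dist_eq, max_lt_iff] at h1
  obtain ⟨h3, h4⟩ := h1
  rw [dist_pi_lt_iff hδ] at h3 h4
  apply hctl
  · intro z hz
    have h5 := h3 ⟨z, hz⟩
    rw [dist_eq_norm] at h5
    show ‖h'.symm (g (T z - z)) - (T z - z)‖ ≤ δ
    have h6 : h'.symm (g (T z - z)) - (T z - z) = h'.symm (g (T z - z) - h' (T z - z)) := by
      rw [map_sub h'.symm, h'.symm_apply_apply]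
    rw [h6, LinearIsometryEquiv.norm_map]
    exact h5.le
  · intro j
    have h5 := h4 j
    rw [dist_eq_norm] at h5
    have h6 : cp (h'⁻¹ * g) (ph j) - ph j = cp g (cp h'.symm (ph j) - cp g.symm (ph j)) := by
      ext z
      show ph j (h'.symm (g z)) - ph j z = ph j (h'.symm (g z)) - ph j (g.symm (g z))
      rw [g.symm_apply_apply]
    rw [h6, cp_norm, norm_sub_rev]
    exact h5.le

end Pool.Agent.Q98.BM
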