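import Pool.Agent.Q98.BM.Sk

/-!
# Exponentials of skew-Hermitian operators of finite rank
-/

set_option autoImplicit false

open Filter Topology

namespace Pool.Agent.Q98.BM

variable {Z : Type*} [NormedAddCommGroup Z] [NormedSpace ℝ Z]

lemma exp_inv [CompleteSpace Z] (A : Z →L[ℝ] Z) (s t : ℝ) (hst : s + t = 0) :
    NormedSpace.exp (s • A) * NormedSpace.exp (t • A) = 1 := by
  let _ : NormedAlgebra ℚ (Z →L[ℝ] Z) := NormedAlgebra.restrictScalars ℚ ℝ (Z →L[ℝ] Z)
  rw [← NormedSpace.exp_add_of_commute]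
  · rw [← add_smul, hst, zero_smul, NormedSpace.exp_zero]
  · exact ((Commute.refl A).smul_left _).smul_right _

/-- the isometry `exp (t A)` -/
noncomputable def ei [CompleteSpace Z] {A : Z →L[ℝ] Z} (hA : Sk A) (t : ℝ) : Z ≃ₗᵢ[ℝ] Z where
  toLinearEquiv :=
    { toFun := fun x => (NormedSpace.exp (t • A)) x
      map_add' := fun x y => map_add _ x y
      map_smul' := fun c x => map_smul _ c x
      invFun := fun x => (NormedSpace.exp ((-t) • A)) x
      left_inv := by
        intro x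
        exact DFunLike.congr_fun (exp_inv A (-t) t (neg_add_cancel t)) x
      right_inv := by
        intro x
        exact DFunLike.congr_fun (exp_inv A t (-t) (add_neg_cancel t)) x }
  norm_map' := fun x => hA.exp_norm t x

lemma ei_apply [CompleteSpace Z] {A : Z →L[ℝ] Z} (hA : Sk A) (t : ℝ) (x : Z) :
    ei hA t x = (NormedSpace.exp (t • A)) x := rfl

lemma exp_deriv [CompleteSpace Z] (A : Z →L[ℝ] Z) (x : Z) (s : ℝ) :
    HasDerivAt (fun s : ℝ => (NormedSpace.exp (s • A)) x) (A ((NormedSpace.exp (s • A)) x)) s := by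
  have h1 := hasDerivAt_exp_smul_const' (𝕂 := ℝ) A s
  exact (ContinuousLinearMap.apply ℝ Z x).hasFDerivAt.comp_hasDerivAt s h1

theorem exists_FR [CompleteSpace Z] {A : Z →L[ℝ] Z} (hA : Sk A)
    (hfd : FiniteDimensional ℝ (LinearMap.range (A : Z →ₗ[ℝ] Z))) (hne : ∃ x, A x ≠ 0) :
    ∃ T : Z ≃ₗᵢ[ℝ] Z, FR T ∧ ∃ x, T x ≠ x := by
  set F := LinearMap.range (A : Z →ₗ[ℝ] Z) with hF
  have hFc : IsClosed (F : Set Z) := Submodule.closed_of_finiteDimensional F
  have hfr : ∀ t, FR (ei hA t) := by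
    intro t
    refine Submodule.finiteDimensional_of_le (S₂ := F) ?_
    rintro _ ⟨x, rfl⟩
    have hd : ∀ s, HasDerivAt (fun s : ℝ => F.mkQL ((NormedSpace.exp (s • A)) x)) 0 s := by
      intro s
      have h1 := F.mkQL.hasFDerivAt.comp_hasDerivAt s (exp_deriv A x s)
      have h2 : F.mkQL (A ((NormedSpace.exp (s • A)) x)) = 0 := by
        rw [Submodule.mkQL_apply, Submodule.mkQ_apply, Submodule.Quotient.mk_eq_zero]
        exact ⟨_, rfl⟩
      rw [h2] at h1
      exact h1
    have hc := is_const_of_deriv_eq_zero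
      (f := fun s : ℝ => F.mkQL ((NormedSpace.exp (s • A)) x))
      (fun s => (hd s).differentiableAt) (fun s => (hd s).deriv) t 0
    simp only [zero_smul, NormedSpace.exp_zero, one_apply_eq_self] at hc
    rw [← sub_eq_zero, ← map_sub, Submodule.mkQL_apply, Submodule.mkQ_apply,
      Submodule.Quotient.mk_eq_zero] at hc
    exact hc
  obtain ⟨x, hx⟩ := hne
  by_contra hcon
  push Not at hcon
  have h1 : ∀ t, (NormedSpace.exp (t • A)) x = x := fun t => hcon (ei hA t) (hfr t) x
  have h2 := exp_deriv A x 0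
  have h3 : (fun s : ℝ => (NormedSpace.exp (s • A)) x) = fun _ => x := funext h1
  rw [h3] at h2
  have h4 := h2.unique (hasDerivAt_const (0:ℝ) x)
  rw [h1] at h4
  exact hx h4

end Pool.Agent.Q98.BM
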