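import Pool.Agent.Q98.BM.Calc

/-!
# Extraction of a skew-Hermitian operator of finite rank
-/

set_option autoImplicit false

open Filter Topology
open Pool.H590R3.Ab Pool.Agent.W687.Rot

namespace Pool.Agent.Q98.BM

section gen

variable {V : Type*} [NormedAddCommGroup V] [NormedSpace ℝ V]

lemma op_pow (S : V ≃ₗᵢ[ℝ] V) (k : ℕ) : op (S ^ k) = (op S) ^ k := by
  induction k with
  | zero => rw [pow_zero, pow_zero, op_one]
  | succ k ih => rw [pow_succ, pow_succ, op_mul, ih]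

lemma comm_zpow (T : V ≃ₗᵢ[ℝ] V) (B : V →L[ℝ] V) (hB : ∀ x, B (T x) = T (B x)) (k : ℤ) :
    B * op (T ^ k) = op (T ^ k) * B := by
  have hc : Commute B (op T) := by
    ext x
    exact hB x
  have hi : Commute B (op T⁻¹) := by
    ext x
    show B (T.symm x) = T.symm (B x)
    rw [LinearIsometryEquiv.eq_symm_apply, ← hB, T.apply_symm_apply]
  rcases Int.eq_nat_or_neg k with ⟨m, rfl | rfl⟩
  · rw [zpow_natCast, op_pow]
    exact (hc.pow_right m).eq
  · rw [zpow_neg, zpow_natCast, ← inv_pow, op_pow]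
    exact (hi.pow_right m).eq

variable [CompleteSpace V]

lemma comm_Ps (T : V ≃ₗᵢ[ℝ] V) (B : V →L[ℝ] V) (hB : ∀ x, B (T x) = T (B x)) {g : ℝ → ℝ}
    (hg : ContDiff ℝ 2 g) (x : V) : B (Ps T g x) = Ps T g (B x) :=
  DFunLike.congr_fun (Fop_comm_of T (sm hg) B (comm_zpow T B hB)) x

lemma Fop_hasSum (T : V ≃ₗᵢ[ℝ] V) {a : ℤ → ℝ} (ha : Summable fun k => |a k|) (x : V) :
    HasSum (fun k : ℤ => a k • (T ^ k) x) (Fop T a x) := by
  have h1 : HasSum (fun k : ℤ => a k • op (T ^ k)) (Fop T a) := (summable_term T ha).hasSum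
  have h2 := (ContinuousLinearMap.apply ℝ V x).hasSum h1
  exact h2

lemma Ps_mem (T : V ≃ₗᵢ[ℝ] V) {g : ℝ → ℝ} (hg : ContDiff ℝ 2 g) (M : Submodule ℝ V)
    (hM : IsClosed (M : Set V)) (h1 : ∀ x ∈ M, T x ∈ M) (h2 : ∀ x ∈ M, T.symm x ∈ M) {x : V}
    (hx : x ∈ M) : Ps T g x ∈ M := by
  have hk : ∀ k : ℤ, (T ^ k) x ∈ M := by
    have hnat : ∀ (S : V ≃ₗᵢ[ℝ] V), (∀ x ∈ M, S x ∈ M) → ∀ k : ℕ, (S ^ k) x ∈ M := by
      intro S hS k
      induction k with
      | zero => exact hx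
      | succ k ih =>
        rw [pow_succ']
        exact hS _ ih
    intro k
    rcases Int.eq_nat_or_neg k with ⟨m, rfl | rfl⟩
    · rw [zpow_natCast]
      exact hnat T h1 m
    · rw [zpow_neg, zpow_natCast, ← inv_pow]
      exact hnat T⁻¹ h2 m
  exact hM.mem_of_tendsto (Fop_hasSum T (sm hg) x)
    (Eventually.of_forall fun s => M.sum_mem fun k _ => M.smul_mem _ (hk k))

end gen

variable {Z : Type*} [NormedAddCommGroup Z] [NormedSpace ℝ Z]

/-- conjugation -/
noncomputable def Ad (T : Z ≃ₗᵢ[ℝ] Z) : (Z →L[ℝ] Z) ≃ₗᵢ[ℝ] (Z →L[ℝ] Z) where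
  toLinearEquiv :=
    { toFun := fun A => op T * A * op T⁻¹
      map_add' := fun A B => by rw [mul_add, add_mul]
      map_smul' := fun c A => by
        rw [mul_smul_comm, smul_mul_assoc]
        rfl
      invFun := fun A => op T⁻¹ * A * op T
      left_inv := fun A => by
        ext x
        show T.symm (T (A (T.symm (T x)))) = A x
        rw [T.symm_apply_apply, T.symm_apply_apply]
      right_inv := fun A => by
        ext x
        show T (T.symm (A (T (T.symm x)))) = A x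
        rw [T.apply_symm_apply, T.apply_symm_apply] }
  norm_map' := fun A => by
    show ‖op T * A * op T⁻¹‖ = ‖A‖
    have key : ∀ (S : Z ≃ₗᵢ[ℝ] Z) (B : Z →L[ℝ] Z), ‖op S * B * op S⁻¹‖ ≤ ‖B‖ := by
      intro S B
      refine ContinuousLinearMap.opNorm_le_bound _ (norm_nonneg _) (fun x => ?_)
      show ‖S (B (S.symm x))‖ ≤ _
      rw [S.norm_map]
      refine (B.le_opNorm _).trans ?_
      rw [S.symm.norm_map]
    refine le_antisymm (key T A) ?_
    have h1 : A = op T⁻¹ * (op T * A * op T⁻¹) * op T⁻¹⁻¹ := by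
      ext x
      show A x = T.symm (T (A (T.symm (T x))))
      rw [T.symm_apply_apply, T.symm_apply_apply]
    conv_lhs => rw [h1]
    exact key T⁻¹ _

lemma Ad_apply (T : Z ≃ₗᵢ[ℝ] Z) (A : Z →L[ℝ] Z) (x : Z) : Ad T A x = T (A (T.symm x)) := rfl

/-- right multiplication -/
noncomputable def Rm (T : Z ≃ₗᵢ[ℝ] Z) : (Z →L[ℝ] Z) ≃ₗᵢ[ℝ] (Z →L[ℝ] Z) where
  toLinearEquiv :=
    { toFun := fun A => A * op T
      map_add' := fun A B => by rw [add_mul]
      map_smul' := fun c A => by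
        rw [smul_mul_assoc]
        rfl
      invFun := fun A => A * op T⁻¹
      left_inv := fun A => by
        ext x
        show A (T (T.symm x)) = A x
        rw [T.apply_symm_apply]
      right_inv := fun A => by
        ext x
        show A (T.symm (T x)) = A x
        rw [T.symm_apply_apply] }
  norm_map' := fun A => by
    show ‖A * op T‖ = ‖A‖
    have key : ∀ (S : Z ≃ₗᵢ[ℝ] Z) (B : Z →L[ℝ] Z), ‖B * op S‖ ≤ ‖B‖ := by
      intro S B
      refine ContinuousLinearMap.opNorm_le_bound _ (norm_nonneg _) (fun x => ?_)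
      show ‖B (S x)‖ ≤ _
      refine (B.le_opNorm _).trans ?_
      rw [S.norm_map]
    refine le_antisymm (key T A) ?_
    have h1 : A = (A * op T) * op T⁻¹ := by
      ext x
      show A x = A (T (T.symm x))
      rw [T.apply_symm_apply]
    conv_lhs => rw [h1]
    exact key T⁻¹ _

lemma Rm_apply (T : Z ≃ₗᵢ[ℝ] Z) (A : Z →L[ℝ] Z) : Rm T A = A * op T := rfl

lemma Rm_zpow (T : Z ≃ₗᵢ[ℝ] Z) (k : ℤ) (A : Z →L[ℝ] Z) : (Rm T ^ k) A = A * op (T ^ k) := by
  have hnat : ∀ (S : Z ≃ₗᵢ[ℝ] Z) (k : ℕ) (A : Z →L[ℝ] Z), (Rm S ^ k) A = A * op (S ^ k) := by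
    intro S k
    induction k with
    | zero => intro A; rw [pow_zero, pow_zero, op_one, mul_one]; rfl
    | succ k ih =>
      intro A
      rw [pow_succ]
      show (Rm S ^ k) (Rm S A) = _
      rw [ih, Rm_apply, mul_assoc, ← op_mul, pow_succ']
  rcases Int.eq_nat_or_neg k with ⟨m, rfl | rfl⟩
  · rw [zpow_natCast, zpow_natCast, hnat]
  · rw [zpow_neg, zpow_natCast, zpow_neg, zpow_natCast, ← inv_pow, ← inv_pow]
    have h1 : (Rm T)⁻¹ = Rm T⁻¹ := by
      ext A x
      rfl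
    rw [h1, hnat]

variable [CompleteSpace Z]

lemma Ps_Rm (T : Z ≃ₗᵢ[ℝ] Z) {g : ℝ → ℝ} (hg : ContDiff ℝ 2 g) (A : Z →L[ℝ] Z) :
    Ps (Rm T) g A = A * Ps T g := by
  have h1 := Fop_hasSum (Rm T) (sm hg) A
  have h2 : HasSum (fun k : ℤ => cg g k • op (T ^ k)) (Fop T (cg g)) := (summable_term T (sm hg)).hasSum
  have h3 := h2.mul_left A
  have h4 : (fun k : ℤ => cg g k • (Rm T ^ k) A) = fun k : ℤ => A * (cg g k • op (T ^ k)) := by
    funext k
    rw [Rm_zpow, mul_smul_comm]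
  rw [h4] at h1
  exact h1.unique h3

/-- **Extraction.** -/
theorem extract {T : Z ≃ₗᵢ[ℝ] Z} (hF : FF T) {X : Z →L[ℝ] Z} (hX : Sk X)
    (hTX : ∃ x, T (X x) ≠ X (T x)) :
    ∃ A : Z →L[ℝ] Z, Sk A ∧ FiniteDimensional ℝ (LinearMap.range (A : Z →ₗ[ℝ] Z)) ∧
      ∃ x, A x ≠ 0 := by
  -- a nontrivial far part for the adjoint action
  obtain ⟨e1, he1, hne⟩ : ∃ e : ℝ, 0 < e ∧ Ps (Ad T) (cb e) X ≠ 0 := by
    by_contra hcon
    push Not at hcon
    have hfix : Ad T X = X := by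
      by_contra hne
      have hpos : 0 < ‖Ad T X - X‖ := norm_pos_iff.2 (sub_ne_zero.2 hne)
      have hx0 : 0 < ‖X‖ := by
        rw [norm_pos_iff]
        rintro rfl
        exact hne (map_zero _)
      obtain ⟨e0, he0, -, h⟩ := near_bound (ε := ‖Ad T X - X‖ / (2 * ‖X‖)) (by positivity)
      have h1 := h (e0 / 2) (by positivity) (by linarith) (Z →L[ℝ] Z) (Ad T) X (by
        have h2 := Ps_cb (Ad T) (e0 / 2) X
        rw [hcon _ (by positivity)] at h2
        exact (sub_eq_zero.1 h2.symm).symm)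
      have h3 : ‖Ad T X - X‖ / (2 * ‖X‖) * ‖X‖ = ‖Ad T X - X‖ / 2 := by field_simp
      rw [h3] at h1
      linarith
    obtain ⟨x, hx⟩ := hTX
    apply hx
    have h2 := DFunLike.congr_fun hfix (T x)
    rw [Ad_apply, T.symm_apply_apply] at h2
    exact h2
  set R := Ad T with hR
  obtain ⟨K, hK, hK'⟩ := far_bound (e := e1 / 2) (by positivity)
  obtain ⟨e0, he0, he01, hnear⟩ := near_bound (ε := 1 / (4 * K)) (by positivity)
  set e : ℝ := e0 / 2 with he
  have hepos : 0 < e := by positivity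
  -- the near part is killed
  have near0 : ∀ Y : Z →L[ℝ] Z, Ps T (bd e) * Y = Y → Y * Ps T (bd e) = Y →
      Ps R (cb e1) Y = 0 := by
    intro Y hY1 hY2
    set W := Ps R (cb e1) Y with hW
    have hcomL : ∀ Q : Z →L[ℝ] Z, (∀ x, Q (T x) = T (Q x)) → ∀ A : Z →L[ℝ] Z,
        Q * Ps R (cb e1) A = Ps R (cb e1) (Q * A) := by
      intro Q hQ A
      have h1 := comm_Ps R (ContinuousLinearMap.mul ℝ (Z →L[ℝ] Z) Q) (by
        intro A
        ext x
        show Q (T (A (T.symm x))) = T (Q (A (T.symm x)))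
        rw [hQ]) (cb_contDiff e1) A
      exact h1
    have hcomR : ∀ Q : Z →L[ℝ] Z, (∀ x, Q (T x) = T (Q x)) → ∀ A : Z →L[ℝ] Z,
        Ps R (cb e1) A * Q = Ps R (cb e1) (A * Q) := by
      intro Q hQ A
      have h1 := comm_Ps R ((ContinuousLinearMap.mul ℝ (Z →L[ℝ] Z)).flip Q) (by
        intro A
        ext x
        show T (A (T.symm (Q x))) = T (A (Q (T.symm x)))
        have : T.symm (Q x) = Q (T.symm x) := by
          rw [LinearIsometryEquiv.symm_apply_eq, ← hQ, T.apply_symm_apply]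
        rw [this]) (cb_contDiff e1) A
      exact h1
    have hbT : ∀ x, Ps T (bd e) (T x) = T (Ps T (bd e) x) := by
      intro x
      exact (comm_Ps T (op T) (fun x => rfl) (bd_contDiff e) x).symm
    have hW1 : Ps T (bd e) * W = W := by
      rw [hW, hcomL _ hbT, hY1]
    have hW2 : W * Ps T (bd e) = W := by
      rw [hW, hcomR _ hbT, hY2]
    have hWfar := hK' (Z →L[ℝ] Z) R W (Ps_bd_cb R he1 (by positivity) le_rfl Y)
    have hL : ‖op T * W - W‖ ≤ 1 / (4 * K) * ‖W‖ := by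
      refine ContinuousLinearMap.opNorm_le_bound _ (by positivity) (fun x => ?_)
      have h1 := hnear e hepos (by rw [he]; linarith) Z T (W x) (DFunLike.congr_fun hW1 x)
      show ‖T (W x) - W x‖ ≤ _
      refine h1.trans ?_
      rw [mul_assoc]
      exact mul_le_mul_of_nonneg_left (W.le_opNorm x) (by positivity)
    have hR' : ‖W * op T - W‖ ≤ 1 / (4 * K) * ‖W‖ := by
      have h1 := hnear e hepos (by rw [he]; linarith) (Z →L[ℝ] Z) (Rm T) W (by
        rw [Ps_Rm T (bd_contDiff e), hW2])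
      exact h1
    have hRW : ‖R W - W‖ ≤ 1 / (2 * K) * ‖W‖ := by
      have h1 : R W - W = (op T * W - W * op T) * op T⁻¹ := by
        ext x
        show T (W (T.symm x)) - W x = T (W (T.symm x)) - W (T (T.symm x))
        rw [T.apply_symm_apply]
      rw [h1]
      refine (norm_mul_le _ _).trans ?_
      have h2 : ‖op T⁻¹‖ ≤ 1 := op_norm_le T⁻¹
      have h3 : ‖op T * W - W * op T‖ ≤ 1 / (2 * K) * ‖W‖ := by
        have h4 : op T * W - W * op T = (op T * W - W) - (W * op T - W) := by abel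
        rw [h4]
        refine (norm_sub_le _ _).trans ?_
        have h5 : 1 / (2 * K) * ‖W‖ = 1 / (4 * K) * ‖W‖ + 1 / (4 * K) * ‖W‖ := by
          field_simp
          ring
        linarith
      calc ‖op T * W - W * op T‖ * ‖op T⁻¹‖ ≤ ‖op T * W - W * op T‖ * 1 :=
            mul_le_mul_of_nonneg_left h2 (norm_nonneg _)
        _ ≤ _ := by rw [mul_one]; exact h3
    by_contra hWne
    have hWpos : 0 < ‖W‖ := norm_pos_iff.2 hWne
    have h6 : ‖W‖ ≤ K * (1 / (2 * K) * ‖W‖) :=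
      hWfar.trans (mul_le_mul_of_nonneg_left hRW hK.le)
    have h7 : K * (1 / (2 * K) * ‖W‖) = ‖W‖ / 2 := by field_simp
    rw [h7] at h6
    linarith
  -- decomposition
  set B := Ps T (bd (e / 2)) with hB
  set C := Ps T (cb (e / 2)) with hC
  have hBC : ∀ x, B x + C x = x := by
    intro x
    rw [hC, Ps_cb]
    abel
  have hbB : ∀ x, Ps T (bd e) (B x) = B x := by
    intro x
    have h1 := Ps_cb T e (B x)
    have h2 : Ps T (cb e) (B x) = 0 := Ps_bd_cb' T hepos (by positivity) le_rfl x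
    rw [h2] at h1
    exact (sub_eq_zero.1 h1.symm).symm
  have hBb : ∀ x, B (Ps T (bd e) x) = B x := by
    intro x
    have h1 := Ps_comm T (bd_contDiff (e / 2)) (bd_contDiff e)
    have h2 : B (Ps T (bd e) x) = Ps T (bd e) (B x) := DFunLike.congr_fun h1 x
    rw [h2, hbB]
  have hCT : ∀ x, C (T x) = T (C x) := by
    intro x
    exact (comm_Ps T (op T) (fun x => rfl) (cb_contDiff (e / 2)) x).symm
  have hXd : X = B * X * B + C * X + (B * X) * C := by
    ext x
    show X x = B (X (B x)) + C (X x) + B (X (C x))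
    have h1 := hBC (X x)
    have h2 : B (X x) = B (X (B x)) + B (X (C x)) := by
      rw [← map_add, ← map_add, hBC]
    calc X x = B (X x) + C (X x) := h1.symm
      _ = B (X (B x)) + B (X (C x)) + C (X x) := by rw [h2]
      _ = _ := by abel
  have hcomL : ∀ Q : Z →L[ℝ] Z, (∀ x, Q (T x) = T (Q x)) → ∀ A : Z →L[ℝ] Z,
      Ps R (cb e1) (Q * A) = Q * Ps R (cb e1) A := by
    intro Q hQ A
    have h1 := comm_Ps R (ContinuousLinearMap.mul ℝ (Z →L[ℝ] Z) Q) (by
      intro A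
      ext x
      show Q (T (A (T.symm x))) = T (Q (A (T.symm x)))
      rw [hQ]) (cb_contDiff e1) A
    exact h1.symm
  have hcomR : ∀ Q : Z →L[ℝ] Z, (∀ x, Q (T x) = T (Q x)) → ∀ A : Z →L[ℝ] Z,
      Ps R (cb e1) (A * Q) = Ps R (cb e1) A * Q := by
    intro Q hQ A
    have h1 := comm_Ps R ((ContinuousLinearMap.mul ℝ (Z →L[ℝ] Z)).flip Q) (by
      intro A
      ext x
      show T (A (T.symm (Q x))) = T (A (Q (T.symm x)))
      have : T.symm (Q x) = Q (T.symm x) := by
        rw [LinearIsometryEquiv.symm_apply_eq, ← hQ, T.apply_symm_apply]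
      rw [this]) (cb_contDiff e1) A
    exact h1.symm
  have hPX : Ps R (cb e1) X = C * Ps R (cb e1) X + Ps R (cb e1) (B * X) * C := by
    have h0 : Ps R (cb e1) (B * X * B) = 0 := by
      refine near0 _ ?_ ?_
      · ext x
        show Ps T (bd e) (B (X (B x))) = B (X (B x))
        rw [hbB]
      · ext x
        show B (X (B (Ps T (bd e) x))) = B (X (B x))
        rw [hBb]
    conv_lhs => rw [hXd]
    rw [map_add, map_add, h0, zero_add, hcomL C hCT, hcomR C hCT]
  refine ⟨Ps R (cb e1) X, ?_, ?_, ?_⟩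
  · have h1 := Ps_mem R (cb_contDiff e1) (SkS Z) SkS_closed (fun A hA => Sk.conj hA T (fun x => rfl))
      (fun A hA => Sk.conj hA T.symm (fun x => rfl)) (x := X) hX
    exact h1
  · have hfdC : FiniteDimensional ℝ (LinearMap.range (C : Z →ₗ[ℝ] Z)) := hF _ (by positivity)
    set Q := Ps R (cb e1) (B * X) with hQ
    have hfd2 : FiniteDimensional ℝ
        ((LinearMap.range (C : Z →ₗ[ℝ] Z)).map (Q : Z →ₗ[ℝ] Z)) := inferInstance
    have hfd3 : FiniteDimensional ℝ ((LinearMap.range (C : Z →ₗ[ℝ] Z) ⊔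
        (LinearMap.range (C : Z →ₗ[ℝ] Z)).map (Q : Z →ₗ[ℝ] Z) : Submodule ℝ Z)) :=
      Submodule.finiteDimensional_sup _ _
    refine Submodule.finiteDimensional_of_le (S₂ := LinearMap.range (C : Z →ₗ[ℝ] Z) ⊔
        (LinearMap.range (C : Z →ₗ[ℝ] Z)).map (Q : Z →ₗ[ℝ] Z)) ?_
    rintro _ ⟨x, rfl⟩
    have h1 := DFunLike.congr_fun hPX x
    have h2 : Ps R (cb e1) X x = C (Ps R (cb e1) X x) + Q (C x) := h1
    show Ps R (cb e1) X x ∈ _
    rw [h2]
    exact Submodule.add_mem_sup ⟨_, rfl⟩ ⟨C x, ⟨x, rfl⟩, rfl⟩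
  · by_contra hno
    push Not at hno
    apply hne
    ext x
    exact hno x

end Pool.Agent.Q98.BM
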