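import Pool.Agent.Q98.BM.Beta

/-!
# Transitive spaces with an isometry which is a finite rank perturbation of the identity
-/

set_option autoImplicit false

open Filter Topology

namespace Pool.Agent.Q98.BM

variable {Z : Type*} [NormedAddCommGroup Z] [NormedSpace ℝ Z]

/-- uniqueness of the invariant form -/
theorem unique_form (htr : Trans Z) (hinf : ¬ FiniteDimensional ℝ Z) (T : Z ≃ₗᵢ[ℝ] Z)
    (hT : FR T) (hT1 : ∃ x, T x ≠ x) {β γ : Z →ₗ[ℝ] Z →ₗ[ℝ] ℝ} (hβ : PSD β)
    (hβp : ∀ x, x ≠ 0 → 0 < β x x) (hβi : FInv β) (hγ : PSD γ) (hγi : FInv γ) :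
    ∃ c : ℝ, ∀ x y, γ x y = c * β x y := by
  have hfd : FiniteDimensional ℝ (LinearMap.range (dm T : Z →ₗ[ℝ] Z)) := hT
  obtain ⟨P, hP1, hP2, hP3, hP4, -, hP6⟩ := proj_exists (dm T) (fun x => dm_ker x)
  have hPne : ∃ x, P x ≠ 0 := by
    obtain ⟨x, hx⟩ := hT1
    refine ⟨x, fun h => hx ?_⟩
    have := hP2 x
    rw [h, map_zero, dm_apply] at this
    exact (sub_eq_zero.1 this.symm)
  -- orthogonality
  have orth : ∀ δ : Z →ₗ[ℝ] Z →ₗ[ℝ] ℝ, FInv δ → ∀ x y, δ (P x) (y - P y) = 0 := by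
    intro δ hδ x y
    obtain ⟨w, hw⟩ := hP3 x
    have h1 : T (y - P y) = y - P y := by
      have h2 : dm T (y - P y) = 0 := by rw [map_sub, hP2, sub_self]
      rw [dm_apply, sub_eq_zero] at h2
      exact h2
    have h3 : δ (T w) (T (y - P y)) = δ w (y - P y) := hδ T hT _ _
    rw [h1] at h3
    rw [hw, dm_apply, map_sub δ, LinearMap.sub_apply, h3, sub_self]
  have hPy : ∀ δ : Z →ₗ[ℝ] Z →ₗ[ℝ] ℝ, FInv δ → ∀ x y, P x = x → δ x y = δ x (P y) := by
    intro δ hδ x y hx
    have := orth δ hδ x y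
    rw [hx, map_sub, sub_eq_zero] at this
    exact this
  -- the Rayleigh quotient on the range of `P`
  set F := LinearMap.range (P : Z →ₗ[ℝ] Z) with hF
  have hPF : ∀ x ∈ F, P x = x := by
    rintro _ ⟨x, rfl⟩
    exact hP1 x
  have _ : ProperSpace F := FiniteDimensional.proper_real F
  have hcont : ∀ δ : Z →ₗ[ℝ] Z →ₗ[ℝ] ℝ, Continuous (fun x : F => δ x x) := by
    intro δ
    let δ' : F →ₗ[ℝ] F →ₗ[ℝ] ℝ := LinearMap.mk₂ ℝ (fun x y => δ x y)
      (fun x x' y => by simp) (fun c x y => by simp) (fun x y y' => by simp)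
      (fun c x y => by simp)
    have h1 : Continuous (fun x : F => LinearMap.toContinuousLinearMap (δ' x)) := by
      let L : F →ₗ[ℝ] (F →L[ℝ] ℝ) :=
        (LinearMap.toContinuousLinearMap : (F →ₗ[ℝ] ℝ) ≃ₗ[ℝ] (F →L[ℝ] ℝ)).toLinearMap ∘ₗ δ'
      exact LinearMap.continuous_of_finiteDimensional L
    exact h1.clm_apply continuous_id
  obtain ⟨x2, hx2⟩ := hPne
  have hne : (Metric.sphere (0 : F) 1).Nonempty := by
    have : Nontrivial F := ⟨⟨⟨P x2, x2, rfl⟩, 0, fun h => hx2 (congrArg Subtype.val h)⟩⟩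
    exact NormedSpace.sphere_nonempty.2 zero_le_one
  have hpos : ∀ x ∈ Metric.sphere (0 : F) 1, β x x ≠ 0 := by
    intro x hx
    have hx0 : (x : Z) ≠ 0 := by
      intro h
      have h1 : ‖x‖ = 1 := mem_sphere_zero_iff_norm.1 hx
      have h2 : x = 0 := Subtype.ext h
      rw [h2, norm_zero] at h1
      exact zero_ne_one h1
    exact (hβp x hx0).ne'
  obtain ⟨x1, hx1, hmax⟩ := (isCompact_sphere (0 : F) 1).exists_isMaxOn hne
    (f := fun x : F => γ x x / β x x)
    (((hcont γ).continuousOn).div ((hcont β).continuousOn) hpos)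
  set c : ℝ := γ x1 x1 / β x1 x1 with hc
  have hγle : ∀ x : F, γ x x ≤ c * β x x := by
    intro x
    rcases eq_or_ne x 0 with rfl | hx
    · simp
    have hxn : 0 < ‖x‖ := norm_pos_iff.2 hx
    set u : F := ‖x‖⁻¹ • x with hu
    have hus : u ∈ Metric.sphere (0 : F) 1 := by
      rw [mem_sphere_zero_iff_norm, hu, norm_smul, norm_inv, norm_norm, inv_mul_cancel₀ hxn.ne']
    have h1 : γ u u / β u u ≤ c := hmax hus
    have hup : 0 < β u u := lt_of_le_of_ne (hβ.nn u) (Ne.symm (hpos u hus))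
    rw [div_le_iff₀ hup] at h1
    have h2 : (x : Z) = ‖x‖ • (u : Z) := by
      rw [hu]
      show (x : Z) = ‖x‖ • (‖x‖⁻¹ • (x : Z))
      rw [smul_smul, mul_inv_cancel₀ hxn.ne', one_smul]
    rw [h2]
    simp only [map_smul, LinearMap.smul_apply, smul_eq_mul]
    nlinarith [mul_pos hxn hxn]
  have hx1n : (x1 : Z) ≠ 0 := by
    intro h
    have := hpos x1 hx1
    rw [h] at this
    simp at this
  have hγ1 : γ x1 x1 = c * β x1 x1 := by
    rw [hc]
    have : β x1 x1 ≠ 0 := hpos x1 hx1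
    field_simp
  have hx1F : P (x1 : Z) = x1 := hPF x1 x1.2
  have hkey : ∀ y : Z, γ x1 y = c * β x1 y := by
    intro y
    rw [hPy γ hγi x1 y hx1F, hPy β hβi x1 y hx1F]
    -- Cauchy-Schwarz on `F`
    set z : F := ⟨P y, y, rfl⟩ with hz
    have hz' : P y = (z : Z) := rfl
    rw [hz']
    by_contra hne'
    set m : ℝ := c * β x1 z - γ x1 z with hm
    have hm0 : m ≠ 0 := fun h => hne' (by linarith)
    have key : ∀ t : ℝ, 2 * t * m ≤ c * β z z - γ z z := by
      intro t
      have h1 := hγle (z - t • x1)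
      have e : ((z - t • x1 : F) : Z) = (z : Z) - t • (x1 : Z) := rfl
      rw [e] at h1
      simp only [map_sub, map_smul, LinearMap.sub_apply, LinearMap.smul_apply, smul_eq_mul] at h1
      rw [hγ.symm z x1, hβ.symm z x1, hγ1] at h1
      rw [hm]
      linarith
    have h2 := key ((c * β z z - γ z z + 1) / (2 * m))
    have h3 : 2 * ((c * β z z - γ z z + 1) / (2 * m)) * m = c * β z z - γ z z + 1 := by field_simp
    linarith
  let R : Submodule ℝ Z :=
    { carrier := {x | ∀ y, γ x y = c * β x y}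
      add_mem' := by
        intro x x' hx hx' y
        simp only [map_add, LinearMap.add_apply]
        rw [hx y, hx' y]
        ring
      zero_mem' := by intro y; simp
      smul_mem' := by
        intro r x hx y
        simp only [map_smul, LinearMap.smul_apply, smul_eq_mul]
        rw [hx y]
        ring }
  have hR : Inv P R := by
    refine inv_of_FR hT hP6 ?_
    intro S hS x hx y
    have h1 : y = S (S.symm y) := (S.apply_symm_apply y).symm
    rw [h1, hγi S hS, hβi S hS]
    exact hx _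
  refine ⟨c, ?_⟩
  rcases irr htr hinf P hP1 ⟨x2, hx2⟩ R hR with h | h
  · exfalso
    have : (x1 : Z) ∈ R := hkey
    rw [h] at this
    exact hx1n ((Submodule.mem_bot ℝ).1 this)
  · intro x y
    have : x ∈ R := by rw [h]; trivial
    exact this y

/-- **Finite rank perturbations.** -/
theorem finrank_hilbert (htr : Trans Z) (hinf : ¬ FiniteDimensional ℝ Z) (T : Z ≃ₗᵢ[ℝ] Z)
    (hT : FR T) (hT1 : ∃ x, T x ≠ x) (x y : Z) :
    ‖x + y‖ * ‖x + y‖ + ‖x - y‖ * ‖x - y‖ = 2 * (‖x‖ * ‖x‖ + ‖y‖ * ‖y‖) := by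
  obtain ⟨β, hβ, hβp, hβi⟩ := exists_form htr hinf T hT hT1
  -- quasi-invariance
  have hquasi : ∀ h : Z ≃ₗᵢ[ℝ] Z, ∃ c : ℝ, ∀ x y, β (h x) (h y) = c * β x y := by
    intro h
    let γ : Z →ₗ[ℝ] Z →ₗ[ℝ] ℝ := LinearMap.mk₂ ℝ (fun x y => β (h x) (h y))
      (fun x x' y => by simp) (fun c x y => by simp) (fun x y y' => by simp)
      (fun c x y => by simp)
    have hγ : ∀ x y, γ x y = β (h x) (h y) := fun x y => rfl
    refine unique_form htr hinf T hT hT1 (γ := γ) hβ hβp hβi
      ⟨fun x y => hβ.symm _ _, fun x => hβ.nn _⟩ ?_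
    intro S hS x y
    have h1 := hβi _ (hS.conj h) (h x) (h y)
    rw [hγ, hγ]
    simpa using h1
  choose χ hχ using hquasi
  have hfd : FiniteDimensional ℝ (LinearMap.range (dm T : Z →ₗ[ℝ] Z)) := hT
  obtain ⟨P, hP1, hP2, hP3, hP4, -, hP6⟩ := proj_exists (dm T) (fun x => dm_ker x)
  obtain ⟨x2, hx2⟩ : ∃ x, P x ≠ 0 := by
    obtain ⟨x, hx⟩ := hT1
    refine ⟨x, fun h => hx ?_⟩
    have := hP2 x
    rw [h, map_zero, dm_apply] at this
    exact (sub_eq_zero.1 this.symm)
  have orth : ∀ x y, β (P x) (y - P y) = 0 := by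
    intro x y
    obtain ⟨w, hw⟩ := hP3 x
    have h1 : T (y - P y) = y - P y := by
      have h2 : dm T (y - P y) = 0 := by rw [map_sub, hP2, sub_self]
      rw [dm_apply, sub_eq_zero] at h2
      exact h2
    have h3 : β (T w) (T (y - P y)) = β w (y - P y) := hβi T hT _ _
    rw [h1] at h3
    rw [hw, dm_apply, map_sub β, LinearMap.sub_apply, h3, sub_self]
  have hPle : ∀ y, β (P y) (P y) ≤ β y y := by
    intro y
    have h1 : β y y = β (P y) (P y) + β (y - P y) (y - P y) := by
      have h2 : y = P y + (y - P y) := by abel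
      conv_lhs => rw [h2]
      simp only [map_add, LinearMap.add_apply]
      rw [orth y y, hβ.symm (y - P y) (P y), orth y y]
      ring
    rw [h1]
    have := hβ.nn (y - P y)
    linarith
  -- a unit vector in the range
  obtain ⟨z, hz1, hPz⟩ : ∃ z : Z, ‖z‖ = 1 ∧ P z = z := by
    have hn : 0 < ‖P x2‖ := norm_pos_iff.2 hx2
    refine ⟨‖P x2‖⁻¹ • P x2, ?_, ?_⟩
    · rw [norm_smul, norm_inv, norm_norm, inv_mul_cancel₀ hn.ne']
    · rw [map_smul, hP1]
  have hz0 : z ≠ 0 := by
    intro h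
    rw [h, norm_zero] at hz1
    exact zero_ne_one hz1
  have hbz : 0 < β z z := hβp z hz0
  -- lower bound on the range
  obtain ⟨c1, hc1, hc1'⟩ : ∃ c1 : ℝ, 0 < c1 ∧ ∀ y, c1 * ‖P y‖ ^ 2 ≤ β (P y) (P y) := by
    set F := LinearMap.range (P : Z →ₗ[ℝ] Z) with hF
    have _ : ProperSpace F := FiniteDimensional.proper_real F
    have hcont : Continuous (fun x : F => β x x) := by
      let δ' : F →ₗ[ℝ] F →ₗ[ℝ] ℝ := LinearMap.mk₂ ℝ (fun x y => β x y)
        (fun x x' y => by simp) (fun c x y => by simp) (fun x y y' => by simp)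
        (fun c x y => by simp)
      have h1 : Continuous (fun x : F => LinearMap.toContinuousLinearMap (δ' x)) := by
        let L : F →ₗ[ℝ] (F →L[ℝ] ℝ) :=
          (LinearMap.toContinuousLinearMap : (F →ₗ[ℝ] ℝ) ≃ₗ[ℝ] (F →L[ℝ] ℝ)).toLinearMap ∘ₗ δ'
        exact LinearMap.continuous_of_finiteDimensional L
      exact h1.clm_apply continuous_id
    have hne : (Metric.sphere (0 : F) 1).Nonempty := by
      have : Nontrivial F := ⟨⟨⟨P x2, x2, rfl⟩, 0, fun h => hx2 (congrArg Subtype.val h)⟩⟩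
      exact NormedSpace.sphere_nonempty.2 zero_le_one
    obtain ⟨x1, hx1, hmin⟩ := (isCompact_sphere (0 : F) 1).exists_isMinOn hne hcont.continuousOn
    have hx10 : (x1 : Z) ≠ 0 := by
      intro h
      have h1 : ‖x1‖ = 1 := mem_sphere_zero_iff_norm.1 hx1
      have h2 : x1 = 0 := Subtype.ext h
      rw [h2, norm_zero] at h1
      exact zero_ne_one h1
    refine ⟨β x1 x1, hβp _ hx10, fun y => ?_⟩
    rcases eq_or_ne (P y) 0 with h0 | h0
    · rw [h0]; simp
    have hn : 0 < ‖P y‖ := norm_pos_iff.2 h0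
    set u : F := ‖P y‖⁻¹ • (⟨P y, y, rfl⟩ : F) with hu
    have hus : u ∈ Metric.sphere (0 : F) 1 := by
      rw [mem_sphere_zero_iff_norm, hu, norm_smul, norm_inv, norm_norm]
      exact inv_mul_cancel₀ hn.ne'
    have h1 : β x1 x1 ≤ β u u := hmin hus
    have h2 : (u : Z) = ‖P y‖⁻¹ • P y := rfl
    rw [h2] at h1
    simp only [map_smul, LinearMap.smul_apply, smul_eq_mul] at h1
    have h3 : β (P y) (P y) = ‖P y‖ ^ 2 * (‖P y‖⁻¹ * (‖P y‖⁻¹ * β (P y) (P y))) := by
      field_simp
    rw [h3, mul_comm]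
    exact mul_le_mul_of_nonneg_left h1 (by positivity)
  have hχpos : ∀ h : Z ≃ₗᵢ[ℝ] Z, 0 < χ h := by
    intro h
    have h1 := hχ h z z
    have h2 : 0 < β (h z) (h z) := hβp _ (by
      intro h3
      exact hz0 (by simpa using h3))
    rw [h1] at h2
    by_contra hcon
    push Not at hcon
    nlinarith
  -- local comparison
  set κ : ℝ := c1 / (4 * β z z) with hκ
  have hκ0 : 0 < κ := by positivity
  set δ : ℝ := 1 / (2 * (‖P‖ + 1)) with hδ
  have hP0 : 0 ≤ ‖P‖ := norm_nonneg P
  have hδ0 : 0 < δ := by positivity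
  have loc : ∀ x v : Z, x ≠ 0 → ‖v - x‖ ≤ δ * ‖x‖ → κ * β x x ≤ β v v := by
    intro x v hx hv
    have hxn : 0 < ‖x‖ := norm_pos_iff.2 hx
    obtain ⟨h, hh⟩ := htr z (‖x‖⁻¹ • x) hz1 (by
      rw [norm_smul, norm_inv, norm_norm, inv_mul_cancel₀ hxn.ne'])
    have hx' : x = h (‖x‖ • z) := by
      rw [map_smul, hh, smul_smul, mul_inv_cancel₀ hxn.ne', one_smul]
    have h1 : β x x = χ h * (‖x‖ ^ 2 * β z z) := by
      conv_lhs => rw [hx', hχ h]
      simp only [map_smul, LinearMap.smul_apply, smul_eq_mul]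
      ring
    have h2 : β v v = χ h * β (h.symm v) (h.symm v) := by
      rw [← hχ h, h.apply_symm_apply]
    have h3 : ‖x‖ / 2 ≤ ‖P (h.symm v)‖ := by
      have h4 : ‖P (h.symm v) - ‖x‖ • z‖ ≤ ‖x‖ / 2 := by
        have h5 : P (h.symm v) - ‖x‖ • z = P (h.symm (v - x)) := by
          rw [map_sub, map_sub]
          congr 1
          rw [show h.symm x = ‖x‖ • z by rw [LinearIsometryEquiv.symm_apply_eq]; exact hx',
            map_smul, hPz]
        rw [h5]
        refine (P.le_opNorm _).trans ?_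
        rw [LinearIsometryEquiv.norm_map]
        calc ‖P‖ * ‖v - x‖ ≤ (‖P‖ + 1) * (δ * ‖x‖) :=
              mul_le_mul (by linarith) hv (norm_nonneg _) (by linarith)
          _ = ‖x‖ / 2 := by
              rw [hδ]
              field_simp
      have h5 : ‖‖x‖ • z‖ = ‖x‖ := by rw [norm_smul, norm_norm, hz1, mul_one]
      have h6 := norm_sub_norm_le (‖x‖ • z) (P (h.symm v))
      rw [norm_sub_rev, h5] at h6
      linarith
    have h4 := hc1' (h.symm v)
    have h5 := hPle (h.symm v)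
    rw [h1, h2]
    have h6 : κ * (χ h * (‖x‖ ^ 2 * β z z)) = χ h * (c1 * (‖x‖ / 2) ^ 2) := by
      rw [hκ]
      field_simp
      ring
    rw [h6]
    refine mul_le_mul_of_nonneg_left ?_ (hχpos h).le
    refine le_trans ?_ (h4.trans h5)
    exact mul_le_mul_of_nonneg_left (pow_le_pow_left₀ (by positivity) h3 2) hc1.le
  -- chains
  obtain ⟨n, hn⟩ := exists_nat_gt (6 / δ)
  have hn0 : (0 : ℝ) < n := lt_trans (by positivity) hn
  have chain : ∀ v : Z, ‖v‖ = 1 → 1 ≤ ‖v + z‖ → κ ^ n * β v v ≤ β z z := by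
    intro v hv hvz
    set p : ℕ → Z := fun i => (1 - (i : ℝ) / n) • v + ((i : ℝ) / n) • z with hp
    have hpn : ∀ i : ℕ, i ≤ n → 1 / 3 ≤ ‖p i‖ := by
      intro i hi
      set t : ℝ := (i : ℝ) / n with ht
      have ht0 : 0 ≤ t := by positivity
      have ht1 : t ≤ 1 := by
        rw [ht, div_le_one hn0]
        exact_mod_cast hi
      have e1 : p i = (1 - t) • v + t • z := rfl
      have e2 : t * ‖v + z‖ - |1 - 2 * t| ≤ ‖p i‖ := by
        have h1 : p i = t • (v + z) + (1 - 2 * t) • v := by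
          rw [e1]
          module
        have h2 := norm_sub_norm_le (t • (v + z)) (-((1 - 2 * t) • v))
        rw [sub_neg_eq_add, ← h1, norm_neg, norm_smul, norm_smul, hv, mul_one,
          Real.norm_of_nonneg ht0, Real.norm_eq_abs] at h2
        exact h2
      have e3 : (1 - t) * ‖v + z‖ - |1 - 2 * t| ≤ ‖p i‖ := by
        have h1 : p i = (1 - t) • (v + z) - (1 - 2 * t) • z := by
          rw [e1]
          module
        have h2 := norm_sub_norm_le ((1 - t) • (v + z)) ((1 - 2 * t) • z)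
        rw [← h1, norm_smul, norm_smul, hz1, mul_one,
          Real.norm_of_nonneg (by linarith : 0 ≤ 1 - t), Real.norm_eq_abs] at h2
        exact h2
      have e4 : |1 - 2 * t| ≤ ‖p i‖ := by
        have h2 := abs_norm_sub_norm_le ((1 - t) • v) (-(t • z))
        rw [sub_neg_eq_add, ← e1, norm_neg, norm_smul, norm_smul, hv, hz1, mul_one, mul_one,
          Real.norm_of_nonneg ht0, Real.norm_of_nonneg (by linarith : 0 ≤ 1 - t)] at h2
        have : 1 - t - t = 1 - 2 * t := by ring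
        rwa [this] at h2
      rcases le_total t (1 / 2) with h | h
      · have h5 : (1 - t) * 1 ≤ (1 - t) * ‖v + z‖ :=
          mul_le_mul_of_nonneg_left hvz (by linarith)
        rw [abs_of_nonneg (by linarith)] at e3 e4
        linarith
      · have h5 : t * 1 ≤ t * ‖v + z‖ := mul_le_mul_of_nonneg_left hvz ht0
        rw [abs_of_nonpos (by linarith)] at e2 e4
        linarith
    have hstep : ∀ i : ℕ, i < n → κ * β (p i) (p i) ≤ β (p (i + 1)) (p (i + 1)) := by
      intro i hi
      have h1 := hpn i hi.le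
      refine loc _ _ (norm_pos_iff.1 (by linarith)) ?_
      have h2 : p (i + 1) - p i = ((1 : ℝ) / n) • (z - v) := by
        rw [hp]
        simp only
        push_cast
        rw [add_div]
        module
      rw [h2, norm_smul, Real.norm_of_nonneg (by positivity)]
      have h3 : ‖z - v‖ ≤ 2 := by
        refine (norm_sub_le _ _).trans ?_
        rw [hz1, hv]
        norm_num
      rw [div_lt_iff₀ hδ0] at hn
      calc 1 / (n : ℝ) * ‖z - v‖ ≤ 1 / (n : ℝ) * 2 :=
            mul_le_mul_of_nonneg_left h3 (by positivity)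
        _ ≤ δ * (1 / 3) := by
            rw [div_mul_eq_mul_div, one_mul, div_le_iff₀ hn0]
            linarith
        _ ≤ δ * ‖p i‖ := mul_le_mul_of_nonneg_left h1 hδ0.le
    have hiter : ∀ i : ℕ, i ≤ n → κ ^ i * β (p 0) (p 0) ≤ β (p i) (p i) := by
      intro i
      induction i with
      | zero => intro _; simp
      | succ i ih =>
        intro hi
        refine le_trans ?_ (hstep i hi)
        have := mul_le_mul_of_nonneg_left (ih (Nat.le_of_succ_le hi)) hκ0.le
        rw [pow_succ']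
        linarith
    have h1 := hiter n le_rfl
    have e0 : p 0 = v := by
      rw [hp]
      simp
    have en : p n = z := by
      rw [hp]
      simp only
      rw [div_self hn0.ne']
      simp
    rwa [e0, en] at h1
  have upper : ∀ v : Z, ‖v‖ = 1 → κ ^ n * β v v ≤ β z z := by
    intro v hv
    have h1 : 2 ≤ ‖v + z‖ + ‖z - v‖ := by
      have := norm_add_le (v + z) (z - v)
      have e : v + z + (z - v) = (2 : ℝ) • z := by module
      rw [e, norm_smul, hz1] at this
      norm_num at this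
      linarith
    rcases le_total 1 ‖v + z‖ with h | h
    · exact chain v hv h
    · have h2 := chain (-v) (by rw [norm_neg, hv]) (by
        rw [neg_add_eq_sub]
        linarith)
      simpa using h2
  have hχ1 : ∀ h : Z ≃ₗᵢ[ℝ] Z, χ h ≤ 1 := by
    intro h
    by_contra hcon
    push Not at hcon
    have hpow : ∀ m : ℕ, β ((h ^ m) z) ((h ^ m) z) = χ h ^ m * β z z := by
      intro m
      induction m with
      | zero => simp
      | succ m ih =>
        rw [pow_succ' h]
        show β (h ((h ^ m) z)) (h ((h ^ m) z)) = _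
        rw [hχ h, ih, pow_succ']
        ring
    obtain ⟨m, hm⟩ := pow_unbounded_of_one_lt (1 / κ ^ n) hcon
    have h1 := upper ((h ^ m) z) (by rw [LinearIsometryEquiv.norm_map, hz1])
    rw [hpow] at h1
    rw [div_lt_iff₀ (by positivity)] at hm
    nlinarith
  have hχe : ∀ h : Z ≃ₗᵢ[ℝ] Z, χ h = 1 := by
    intro h
    refine le_antisymm (hχ1 h) ?_
    have h1 := hχ h (h.symm z) (h.symm z)
    have h2 := hχ h.symm z z
    rw [h.apply_symm_apply, h2] at h1
    have h3 := hχ1 h.symm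
    have h4 := hχpos h
    have h5 := hχpos h.symm
    have h6 : χ h * χ h.symm = 1 := by
      have h7 : (χ h * χ h.symm) * β z z = 1 * β z z := by linarith
      exact mul_right_cancel₀ hbz.ne' h7
    nlinarith
  have hnorm : ∀ x : Z, ‖x‖ * ‖x‖ = β x x / β z z := by
    intro x
    rcases eq_or_ne x 0 with rfl | hx
    · simp
    have hxn : 0 < ‖x‖ := norm_pos_iff.2 hx
    obtain ⟨h, hh⟩ := htr z (‖x‖⁻¹ • x) hz1 (by
      rw [norm_smul, norm_inv, norm_norm, inv_mul_cancel₀ hxn.ne'])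
    have hx' : x = h (‖x‖ • z) := by
      rw [map_smul, hh, smul_smul, mul_inv_cancel₀ hxn.ne', one_smul]
    have h1 : β x x = ‖x‖ * ‖x‖ * β z z := by
      conv_lhs => rw [hx', hχ h, hχe h]
      simp only [map_smul, LinearMap.smul_apply, smul_eq_mul]
      ring
    rw [h1]
    field_simp
  rw [hnorm, hnorm, hnorm, hnorm]
  simp only [map_add, map_sub, LinearMap.add_apply, LinearMap.sub_apply]
  rw [hβ.symm y x]
  field_simp
  ring

end Pool.Agent.Q98.BM
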