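import Pool.Agent.Q98.BM.Small

/-!
# The tangent operator of small isometries and the main theorem
-/

set_option autoImplicit false

open Filter Topology Metric
open Pool.H590R3.Ab Pool.Agent.W687.Rot

namespace Pool.Agent.Q98.BM

variable {E : Type*} [NormedAddCommGroup E] [NormedSpace ℝ E]

/-- normalised difference -/
noncomputable def Bn (S : E ≃ₗᵢ[ℝ] E) (s : ℝ) : E →L[ℝ] E := s⁻¹ • (op S - 1)

lemma Bn_apply (S : E ≃ₗᵢ[ℝ] E) (s : ℝ) (x : E) : Bn S s x = s⁻¹ • (S x - x) := rfl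

lemma Bn_norm {S : E ≃ₗᵢ[ℝ] E} {s : ℝ} (hs : 0 < s) (h : ‖op S - 1‖ ≤ s) : ‖Bn S s‖ ≤ 1 := by
  unfold Bn
  rw [norm_smul, norm_inv, Real.norm_of_nonneg hs.le, inv_mul_le_iff₀ hs, mul_one]
  exact h

lemma one_step {S : E ≃ₗᵢ[ℝ] E} {s : ℝ} (hs : 0 < s) (h : ‖op S - 1‖ ≤ s) (x : E) {t : ℝ}
    (ht : 0 ≤ t) : ‖x + t • Bn S s x‖ ≤ ‖x‖ * (1 + t ^ 2) + s * ‖x‖ := by
  set m : ℕ := ⌊t / s⌋₊ with hm
  have hm1 : (m : ℝ) * s ≤ t := by
    have := Nat.floor_le (show 0 ≤ t / s by positivity)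
    rwa [← hm, le_div_iff₀ hs] at this
  have hm2 : t ≤ m * s + s := by
    have := (Nat.lt_floor_add_one (t / s)).le
    rw [← hm, div_le_iff₀ hs] at this
    linarith
  have hSx : ∀ z, ‖S z - z‖ ≤ s * ‖z‖ := fun z =>
    ((op S - 1).le_opNorm z).trans (mul_le_mul_of_nonneg_right h (norm_nonneg _))
  have h1 := pow_taylor S x m
  have h2 : ‖S (S x - x) - (S x - x)‖ ≤ s * (s * ‖x‖) :=
    (hSx _).trans (mul_le_mul_of_nonneg_left (hSx x) hs.le)
  have h3 : (m : ℝ) • (S x - x) = (m * s) • Bn S s x := by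
    rw [Bn_apply, smul_smul, mul_assoc, mul_inv_cancel₀ hs.ne', mul_one]
  have h4 : ‖x + (m * s) • Bn S s x‖ ≤ ‖x‖ + t ^ 2 * ‖x‖ := by
    have e : x + (m * s) • Bn S s x = (S ^ m) x - ((S ^ m) x - x - (m : ℝ) • (S x - x)) := by
      rw [h3]; abel
    rw [e]
    refine (norm_sub_le _ _).trans ?_
    rw [LinearIsometryEquiv.norm_map]
    have h5 : (m : ℝ) ^ 2 * ‖S (S x - x) - (S x - x)‖ ≤ t ^ 2 * ‖x‖ := by
      calc (m : ℝ) ^ 2 * ‖S (S x - x) - (S x - x)‖ ≤ (m : ℝ) ^ 2 * (s * (s * ‖x‖)) :=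
            mul_le_mul_of_nonneg_left h2 (sq_nonneg _)
        _ = (m * s) ^ 2 * ‖x‖ := by ring
        _ ≤ t ^ 2 * ‖x‖ := by
            refine mul_le_mul_of_nonneg_right ?_ (norm_nonneg _)
            exact pow_le_pow_left₀ (by positivity) hm1 2
    linarith
  have h5 : ‖(t - m * s) • Bn S s x‖ ≤ s * ‖x‖ := by
    rw [norm_smul, Real.norm_of_nonneg (by linarith)]
    have h6 : ‖Bn S s x‖ ≤ ‖x‖ := by
      refine ((Bn S s).le_opNorm x).trans ?_
      exact mul_le_of_le_one_left (norm_nonneg _) (Bn_norm hs h)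
    exact mul_le_mul (by linarith) h6 (norm_nonneg _) hs.le
  have h6 : x + t • Bn S s x = (x + (m * s) • Bn S s x) + (t - m * s) • Bn S s x := by
    rw [sub_smul]; abel
  rw [h6]
  refine (norm_add_le _ _).trans ?_
  linarith

/-- the tangent operator -/
noncomputable def tang (S : ℕ → E ≃ₗᵢ[ℝ] E) (s : ℕ → ℝ) (hs : ∀ n, 0 < s n)
    (h : ∀ n, ‖op (S n) - 1‖ ≤ s n) : UP E →L[ℝ] UP E :=
  upL (fun n => Bn (S n) (s n)) 1 (fun n => Bn_norm (hs n) (h n))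

lemma tang_pos (S : ℕ → E ≃ₗᵢ[ℝ] E) (s : ℕ → ℝ) (hs : ∀ n, 0 < s n)
    (h : ∀ n, ‖op (S n) - 1‖ ≤ s n) (hs0 : Tendsto s (hyperfilter ℕ : Filter ℕ) (𝓝 0))
    (z : UP E) {t : ℝ} (ht : 0 ≤ t) : ‖z + t • tang S s hs h z‖ ≤ ‖z‖ * (1 + t ^ 2) := by
  obtain ⟨x, rfl⟩ := mk_surj z
  have e : mk x + t • tang S s hs h (mk x) =
      mk (x + t • lA (fun n => Bn (S n) (s n)) 1 (fun n => Bn_norm (hs n) (h n)) x) := rfl
  rw [e]
  have h1 := norm_mk (x + t • lA (fun n => Bn (S n) (s n)) 1 (fun n => Bn_norm (hs n) (h n)) x)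
  have h2 := norm_mk x
  have h3 : Tendsto (fun n => ‖x n‖ * (1 + t ^ 2) + s n * ‖x n‖) (hyperfilter ℕ : Filter ℕ)
      (𝓝 (‖mk x‖ * (1 + t ^ 2) + 0 * ‖mk x‖)) :=
    (h2.mul_const _).add (hs0.mul h2)
  rw [zero_mul, add_zero] at h3
  exact le_of_tendsto_of_tendsto' h1 h3 (fun n => one_step (hs n) (h n) (x n) ht)

lemma inv_small {S : E ≃ₗᵢ[ℝ] E} {s : ℝ} (h : ‖op S - 1‖ ≤ s) : ‖op S⁻¹ - 1‖ ≤ s := by
  have h1 : op S⁻¹ - 1 = -(op S⁻¹ * (op S - 1)) := by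
    ext z
    show S.symm z - z = -(S.symm (S z - z))
    rw [map_sub, S.symm_apply_apply]
    abel
  rw [h1, norm_neg]
  refine (norm_mul_le _ _).trans ?_
  have i1 := op_norm_le S⁻¹
  have i2 : 0 ≤ ‖op S - 1‖ := norm_nonneg _
  nlinarith

lemma tang_inv (S : ℕ → E ≃ₗᵢ[ℝ] E) (s : ℕ → ℝ) (hs : ∀ n, 0 < s n)
    (h : ∀ n, ‖op (S n) - 1‖ ≤ s n) (hs0 : Tendsto s (hyperfilter ℕ : Filter ℕ) (𝓝 0))
    (z : UP E) : tang (fun n => (S n)⁻¹) s hs (fun n => inv_small (h n)) z =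
      -tang S s hs h z := by
  obtain ⟨x, rfl⟩ := mk_surj z
  have e : -tang S s hs h (mk x) =
      mk (-(lA (fun n => Bn (S n) (s n)) 1 (fun n => Bn_norm (hs n) (h n)) x)) := rfl
  rw [e]
  show mk _ = mk _
  rw [mk_eq_iff]
  have h1 : Tendsto (fun n => s n * ‖x n‖) (hyperfilter ℕ : Filter ℕ) (𝓝 0) := by
    have := hs0.mul (norm_mk x)
    rwa [zero_mul] at this
  refine squeeze_zero (fun n => norm_nonneg _) (fun n => ?_) h1
  show ‖Bn (S n)⁻¹ (s n) (x n) - -(Bn (S n) (s n) (x n))‖ ≤ s n * ‖x n‖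
  rw [Bn_apply, Bn_apply, sub_neg_eq_add, ← smul_add, norm_smul, norm_inv,
    Real.norm_of_nonneg (hs n).le, inv_mul_le_iff₀ (hs n)]
  have h2 : (S n)⁻¹ (x n) - x n + (S n (x n) - x n) =
      S n ((op (S n)⁻¹ - 1) ((op (S n)⁻¹ - 1) (x n))) := by
    show (S n).symm (x n) - x n + (S n (x n) - x n) =
      S n ((S n).symm ((S n).symm (x n) - x n) - ((S n).symm (x n) - x n))
    rw [map_sub (S n), (S n).apply_symm_apply, map_sub (S n), (S n).apply_symm_apply]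
    abel
  rw [h2, LinearIsometryEquiv.norm_map]
  have h3 := inv_small (h n)
  calc ‖(op (S n)⁻¹ - 1) ((op (S n)⁻¹ - 1) (x n))‖
      ≤ ‖op (S n)⁻¹ - 1‖ * ‖(op (S n)⁻¹ - 1) (x n)‖ := ContinuousLinearMap.le_opNorm _ _
    _ ≤ ‖op (S n)⁻¹ - 1‖ * (‖op (S n)⁻¹ - 1‖ * ‖x n‖) :=
        mul_le_mul_of_nonneg_left (ContinuousLinearMap.le_opNorm _ _) (norm_nonneg _)
    _ ≤ s n * (s n * ‖x n‖) := by
        have := (hs n).le
        gcongr

theorem tang_skew (S : ℕ → E ≃ₗᵢ[ℝ] E) (s : ℕ → ℝ) (hs : ∀ n, 0 < s n)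
    (h : ∀ n, ‖op (S n) - 1‖ ≤ s n) (hs0 : Tendsto s (hyperfilter ℕ : Filter ℕ) (𝓝 0)) :
    Sk (tang S s hs h) := by
  refine Sk.of_bound (C := 1) (fun z t _ => ?_)
  rw [one_mul]
  rcases le_total 0 t with ht | ht
  · exact tang_pos S s hs h hs0 z ht
  · have h1 := tang_pos (fun n => (S n)⁻¹) s hs (fun n => inv_small (h n)) hs0 z
      (t := -t) (by linarith)
    rw [tang_inv S s hs h hs0] at h1
    have e1 : (-t) • -tang S s hs h z = t • tang S s hs h z := by rw [smul_neg, neg_smul, neg_neg]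
    have e2 : (-t) ^ 2 = t ^ 2 := by ring
    rwa [e1, e2] at h1

/-- **Main theorem**, infinite-dimensional case. -/
theorem main_inf [CompleteSpace E] (hinf : ¬ FiniteDimensional ℝ E) (htr : Trans E)
    {T : E ≃ₗᵢ[ℝ] E} (hT : ∃ x, T x ≠ x) (hF : FF T) (hA : AC T) (x y : E) :
    ‖x + y‖ * ‖x + y‖ + ‖x - y‖ * ‖x - y‖ = 2 * (‖x‖ * ‖x‖ + ‖y‖ * ‖y‖) := by
  have hex := fun n : ℕ => exists_small hinf hT hF hA (ε := 1 / ((n : ℝ) + 1)) (by positivity)
  choose S hS0 hS1 hS2 using hex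
  set s : ℕ → ℝ := fun n => ‖op (S n) - 1‖ with hs
  have hspos : ∀ n, 0 < s n := fun n => norm_pos_iff.2 (hS0 n)
  have hle : ∀ n, ‖op (S n) - 1‖ ≤ s n := fun n => le_rfl
  have hs0 : Tendsto s atTop (𝓝 0) :=
    squeeze_zero (fun n => (hspos n).le) hS1 tendsto_one_div_add_atTop_nhds_zero_nat
  have hs0' : Tendsto s (hyperfilter ℕ : Filter ℕ) (𝓝 0) :=
    hs0.mono_left Nat.hyperfilter_le_atTop
  set X := tang S s hspos hle with hX
  have hXsk : Sk X := tang_skew S s hspos hle hs0'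
  have hXne : ∃ z, X z ≠ 0 := by
    have h1 : ∀ n, ∃ w : E, ‖w‖ = 1 ∧ 1 / 2 ≤ ‖Bn (S n) (s n) w‖ := by
      intro n
      by_contra hcon
      push Not at hcon
      have h2 : ‖op (S n) - 1‖ ≤ s n / 2 := by
        refine ContinuousLinearMap.opNorm_le_bound _ (by have := (hspos n).le; positivity)
          (fun w => ?_)
        rcases eq_or_ne w 0 with rfl | hw
        · simp
        have hwn : 0 < ‖w‖ := norm_pos_iff.2 hw
        have h3 := (hcon (‖w‖⁻¹ • w) (by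
          rw [norm_smul, norm_inv, norm_norm, inv_mul_cancel₀ hwn.ne'])).le
        rw [map_smul, norm_smul, norm_inv, norm_norm, Bn_apply, norm_smul, norm_inv,
          Real.norm_of_nonneg (hspos n).le, inv_mul_le_iff₀ hwn, inv_mul_le_iff₀ (hspos n)] at h3
        show ‖S n w - w‖ ≤ _
        linarith
      have h3 := hspos n
      have h4 : s n ≤ s n / 2 := h2
      linarith
    choose w hw1 hw2 using h1
    let W : Li E := sq' w ⟨1, fun n => (hw1 n).le⟩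
    refine ⟨mk W, fun h0 => ?_⟩
    have h2 := norm_mk (lA (fun n => Bn (S n) (s n)) 1 (fun n => Bn_norm (hspos n) (hle n)) W)
    have h3 : mk (lA (fun n => Bn (S n) (s n)) 1 (fun n => Bn_norm (hspos n) (hle n)) W) = 0 := h0
    rw [h3, norm_zero] at h2
    have h4 : (1 / 2 : ℝ) ≤ 0 := ge_of_tendsto h2 (Eventually.of_forall fun n => hw2 n)
    norm_num at h4
  have hXker : ∃ z, z ≠ 0 ∧ X z = 0 := by
    have h1 : ∀ n, ∃ w : E, ‖w‖ = 1 ∧ ‖S n w - w‖ ≤ s n * (1 / ((n : ℝ) + 1)) :=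
      fun n => hS2 n _ (by have := hspos n; positivity)
    choose w hw1 hw2 using h1
    let W : Li E := sq' w ⟨1, fun n => (hw1 n).le⟩
    refine ⟨mk W, fun h0 => ?_, ?_⟩
    · have h2 := norm_mk W
      rw [h0, norm_zero] at h2
      have h3 : Tendsto (fun n => ‖W n‖) (hyperfilter ℕ : Filter ℕ) (𝓝 1) :=
        tendsto_const_nhds.congr (fun n => (hw1 n).symm)
      exact zero_ne_one (tendsto_nhds_unique h2 h3)
    · have h2 := norm_mk (lA (fun n => Bn (S n) (s n)) 1 (fun n => Bn_norm (hspos n) (hle n)) W)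
      have h3 : Tendsto (fun n => ‖lA (fun n => Bn (S n) (s n)) 1
          (fun n => Bn_norm (hspos n) (hle n)) W n‖) (hyperfilter ℕ : Filter ℕ) (𝓝 0) := by
        have h4 : Tendsto (fun n : ℕ => 1 / ((n : ℝ) + 1)) (hyperfilter ℕ : Filter ℕ) (𝓝 0) :=
          tendsto_one_div_add_atTop_nhds_zero_nat.mono_left Nat.hyperfilter_le_atTop
        refine squeeze_zero (fun n => norm_nonneg _) (fun n => ?_) h4
        show ‖Bn (S n) (s n) (w n)‖ ≤ _
        rw [Bn_apply, norm_smul, norm_inv, Real.norm_of_nonneg (hspos n).le,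
          inv_mul_le_iff₀ (hspos n)]
        exact hw2 n
      have h4 := tendsto_nhds_unique h2 h3
      exact norm_eq_zero.1 h4
  have hTU : ∃ z, upI (fun _ => T) z ≠ z := by
    obtain ⟨x, hx⟩ := hT
    refine ⟨cst x, fun h => hx ?_⟩
    have h1 : upI (fun _ => T) (cst x) = cst (T x) := rfl
    rw [h1, ← sub_eq_zero, ← map_sub, ← norm_eq_zero, cst_norm, norm_eq_zero, sub_eq_zero] at h
    exact h
  have key := hilbert_of_skew (up_trans htr) (inf_dim hinf) (upI (fun _ => T)) hTU (FF_up hF) X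
    hXsk hXne hXker (cst x) (cst y)
  rw [← map_add, ← map_sub, cst_norm, cst_norm, cst_norm, cst_norm] at key
  exact key

/-- the finite-dimensional case -/
theorem main_fin (hfin : FiniteDimensional ℝ E) (htr : Trans E) (x y : E) :
    ‖x + y‖ * ‖x + y‖ + ‖x - y‖ * ‖x - y‖ = 2 * (‖x‖ * ‖x‖ + ‖y‖ * ‖y‖) := by
  have hfd : FiniteDimensional ℝ (StrongDual ℝ E) := by
    have e : (E →ₗ[ℝ] ℝ) ≃ₗ[ℝ] (E →L[ℝ] ℝ) := LinearMap.toContinuousLinearMap
    exact e.finiteDimensional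
  have hfdt : FiniteDimensional ℝ (⊤ : Submodule ℝ (StrongDual ℝ E)) := inferInstance
  obtain ⟨β, h1, h2, h3, h4⟩ := form_exists (⊤ : Submodule ℝ (StrongDual ℝ E)) hfdt
  by_cases hnt : ∃ z : E, z ≠ 0
  · obtain ⟨z0, hz0⟩ := hnt
    have hn : 0 < ‖z0‖ := norm_pos_iff.2 hz0
    set z : E := ‖z0‖⁻¹ • z0 with hz
    have hz1 : ‖z‖ = 1 := by
      rw [hz, norm_smul, norm_inv, norm_norm, inv_mul_cancel₀ hn.ne']
    have hz0' : z ≠ 0 := by
      intro h
      rw [h, norm_zero] at hz1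
      exact zero_ne_one hz1
    have hpos : 0 < β z z := by
      apply h3
      obtain ⟨f, -, hf⟩ := exists_dual_vector ℝ z (norm_ne_zero_iff.2 hz0')
      refine ⟨f, trivial, ?_⟩
      rw [hf, hz1]
      simp
    have hnorm : ∀ x : E, ‖x‖ * ‖x‖ = β x x / β z z := by
      intro x
      rcases eq_or_ne x 0 with rfl | hx
      · simp
      have hxn : 0 < ‖x‖ := norm_pos_iff.2 hx
      obtain ⟨h, hh⟩ := htr z (‖x‖⁻¹ • x) hz1 (by
        rw [norm_smul, norm_inv, norm_norm, inv_mul_cancel₀ hxn.ne'])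
      have hx' : x = h (‖x‖ • z) := by
        rw [map_smul, hh, smul_smul, mul_inv_cancel₀ hxn.ne', one_smul]
      have h5 : β x x = ‖x‖ * ‖x‖ * β z z := by
        conv_lhs => rw [hx', h4 h (fun f _ => trivial)]
        simp only [map_smul, LinearMap.smul_apply, smul_eq_mul]
        ring
      rw [h5]
      field_simp
    rw [hnorm, hnorm, hnorm, hnorm]
    simp only [map_add, map_sub, LinearMap.add_apply, LinearMap.sub_apply]
    rw [h1 y x]
    field_simp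
    ring
  · push Not at hnt
    rw [hnt x, hnt y]
    simp

theorem main [CompleteSpace E] (htr : Trans E)
    {T : E ≃ₗᵢ[ℝ] E} (hT : ∃ x, T x ≠ x) (hS : SS T) (hA : AC T) (x y : E) :
    ‖x + y‖ * ‖x + y‖ + ‖x - y‖ * ‖x - y‖ = 2 * (‖x‖ * ‖x‖ + ‖y‖ * ‖y‖) := by
  by_cases hfin : FiniteDimensional ℝ E
  · exact main_fin hfin htr x y
  · exact main_inf hfin htr hT hS.ff hA x y

end Pool.Agent.Q98.BM
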