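import Pool.Agent.Q98.BM.Proj

/-!
# Invariant forms from finite-dimensional invariant spaces of functionals
-/

set_option autoImplicit false

open MeasureTheory

namespace Pool.Agent.Q98.BM

/-- isometries of finite-dimensional normed spaces preserve Haar measures -/
lemma iso_mp {W : Type*} [NormedAddCommGroup W] [NormedSpace ℝ W] [FiniteDimensional ℝ W]
    [MeasurableSpace W] [BorelSpace W] (μ : Measure W) [μ.IsAddHaarMeasure] (L : W ≃ₗᵢ[ℝ] W) :
    MeasurePreserving L μ μ := by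
  refine ⟨L.continuous.measurable, ?_⟩
  have hdet : LinearMap.det (L.toLinearEquiv : W →ₗ[ℝ] W) ≠ 0 :=
    (LinearEquiv.isUnit_det' L.toLinearEquiv).ne_zero
  have h1 := Measure.map_linearMap_addHaar_eq_smul_addHaar (μ := μ) hdet
  have h2 : ((L.toLinearEquiv : W →ₗ[ℝ] W) : W → W) = L := rfl
  rw [h2] at h1
  have h3 : (Measure.map L μ) (Metric.ball (0 : W) 1) = μ (Metric.ball (0 : W) 1) := by
    rw [Measure.map_apply L.continuous.measurable Metric.isOpen_ball.measurableSet]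
    congr 1
    ext x
    simp
  rw [h1]
  rw [h1, Measure.smul_apply, smul_eq_mul] at h3
  have hb0 : μ (Metric.ball (0 : W) 1) ≠ 0 := (Metric.measure_ball_pos μ 0 one_pos).ne'
  have hbt : μ (Metric.ball (0 : W) 1) ≠ ⊤ := measure_ball_lt_top.ne
  have h4 : ENNReal.ofReal |(LinearMap.det (L.toLinearEquiv : W →ₗ[ℝ] W))⁻¹| = 1 := by
    have h5 : ENNReal.ofReal |(LinearMap.det (L.toLinearEquiv : W →ₗ[ℝ] W))⁻¹| *
        μ (Metric.ball (0 : W) 1) = 1 * μ (Metric.ball (0 : W) 1) := by rw [h3, one_mul]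
    exact (ENNReal.mul_left_inj hb0 hbt).1 h5
  rw [h4, one_smul]

variable {Z : Type*} [NormedAddCommGroup Z] [NormedSpace ℝ Z]

/-- composition with an isometry -/
noncomputable def cp (S : Z ≃ₗᵢ[ℝ] Z) (f : StrongDual ℝ Z) : StrongDual ℝ Z :=
  f.comp (S.toContinuousLinearEquiv : Z →L[ℝ] Z)

lemma cp_apply (S : Z ≃ₗᵢ[ℝ] Z) (f : StrongDual ℝ Z) (x : Z) : cp S f x = f (S x) := rfl

lemma cp_norm_le (S : Z ≃ₗᵢ[ℝ] Z) (f : StrongDual ℝ Z) : ‖cp S f‖ ≤ ‖f‖ := by
  refine ContinuousLinearMap.opNorm_le_bound _ (norm_nonneg f) (fun x => ?_)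
  rw [cp_apply]
  have := f.le_opNorm (S x)
  rwa [S.norm_map] at this

lemma cp_norm (S : Z ≃ₗᵢ[ℝ] Z) (f : StrongDual ℝ Z) : ‖cp S f‖ = ‖f‖ := by
  refine le_antisymm (cp_norm_le S f) ?_
  have h1 : cp S.symm (cp S f) = f := by
    ext x
    rw [cp_apply, cp_apply, S.apply_symm_apply]
  conv_lhs => rw [← h1]
  exact cp_norm_le S.symm _

theorem form_exists_aux {W : Type*} [NormedAddCommGroup W] [NormedSpace ℝ W]
    [FiniteDimensional ℝ W] (ι : W →L[ℝ] StrongDual ℝ Z) :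
    ∃ β : Z →ₗ[ℝ] Z →ₗ[ℝ] ℝ, (∀ x y, β x y = β y x) ∧ (∀ x, 0 ≤ β x x) ∧
      (∀ x, (∃ w, ι w x ≠ 0) → 0 < β x x) ∧
      (∀ (S : Z ≃ₗᵢ[ℝ] Z) (L : W ≃ₗᵢ[ℝ] W), (∀ w, ι (L w) = cp S (ι w)) →
        ∀ x y, β (S x) (S y) = β x y) := by
  let _ : MeasurableSpace W := borel W
  have _ : BorelSpace W := ⟨rfl⟩
  have _ : ProperSpace W := FiniteDimensional.proper_real W
  let μ : Measure W := MeasureTheory.Measure.addHaar
  set B : Set W := Metric.closedBall (0 : W) 1 with hB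
  have hBc : IsCompact B := isCompact_closedBall _ _
  have hc : ∀ x : Z, Continuous (fun f : W => (ι f) x) := fun x =>
    (ContinuousLinearMap.apply ℝ ℝ x).continuous.comp ι.continuous
  have hint : ∀ x y : Z, IntegrableOn (fun f : W => (ι f) x * (ι f) y) B μ :=
    fun x y => ((hc x).mul (hc y)).continuousOn.integrableOn_compact hBc
  let β : Z →ₗ[ℝ] Z →ₗ[ℝ] ℝ := LinearMap.mk₂ ℝ
    (fun x y => ∫ f in B, (ι f) x * (ι f) y ∂μ)
    (fun x x' y => by
      rw [← integral_add (hint x y) (hint x' y)]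
      congr 1; funext f; rw [map_add, add_mul])
    (fun c x y => by
      rw [smul_eq_mul, ← integral_const_mul]
      congr 1; funext f; rw [map_smul, smul_eq_mul, mul_assoc])
    (fun x y y' => by
      rw [← integral_add (hint x y) (hint x y')]
      congr 1; funext f; rw [map_add, mul_add])
    (fun c x y => by
      rw [smul_eq_mul, ← integral_const_mul]
      congr 1; funext f; rw [map_smul, smul_eq_mul]; ring)
  have hβ : ∀ x y, β x y = ∫ f in B, (ι f) x * (ι f) y ∂μ :=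
    fun x y => rfl
  refine ⟨β, fun x y => ?_, fun x => ?_, ?_, ?_⟩
  · rw [hβ, hβ]
    congr 1; funext f; rw [mul_comm]
  · rw [hβ]
    exact integral_nonneg (fun f => mul_self_nonneg _)
  · rintro x ⟨f0, hf0x⟩
    rw [hβ]
    have hnn : 0 ≤ᵐ[μ.restrict B] fun f : W => (ι f) x * (ι f) x :=
      Filter.Eventually.of_forall fun f => mul_self_nonneg _
    rw [integral_pos_iff_support_of_nonneg_ae hnn (hint x x)]
    have hO : IsOpen (Metric.ball (0 : W) 1 ∩ {f | (ι f) x ≠ 0}) :=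
      Metric.isOpen_ball.inter (isOpen_ne_fun (hc x) continuous_const)
    have hne : (Metric.ball (0 : W) 1 ∩ {f | (ι f) x ≠ 0}).Nonempty := by
      have hf0n : 0 < ‖f0‖ := by
        rw [norm_pos_iff]
        rintro rfl
        apply hf0x
        rw [map_zero]
        rfl
      refine ⟨((1 / 2) / ‖f0‖) • f0, ?_, ?_⟩
      · rw [mem_ball_zero_iff, norm_smul, Real.norm_of_nonneg (by positivity),
          div_mul_cancel₀ _ hf0n.ne']
        norm_num
      · show (ι (((1 / 2) / ‖f0‖) • f0)) x ≠ 0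
        rw [map_smul]
        show ((1 / 2) / ‖f0‖) • ((ι f0) x) ≠ 0
        rw [smul_eq_mul]
        exact mul_ne_zero (by positivity) hf0x
    have h1 := hO.measure_pos μ hne
    rw [Measure.restrict_apply' hBc.isClosed.measurableSet]
    refine lt_of_lt_of_le h1 (measure_mono ?_)
    rintro f ⟨h2, h3⟩
    exact ⟨mul_ne_zero h3 h3, Metric.ball_subset_closedBall h2⟩
  · intro S L hL x y
    have hmp := iso_mp μ L
    have h1 := hmp.setIntegral_preimage_emb L.toHomeomorph.measurableEmbedding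
      (fun f : W => (ι f) x * (ι f) y) B
    have h2 : L ⁻¹' B = B := by
      ext f
      simp [hB]
    rw [h2] at h1
    rw [hβ, hβ, ← h1]
    congr 1
    funext f
    rw [hL]
    rfl

theorem form_exists_aux2 {V : Type*} [NormedAddCommGroup V] [NormedSpace ℝ V]
    (j : V →L[ℝ] StrongDual ℝ Z) (A : Submodule ℝ V) (hA : FiniteDimensional ℝ A) :
    ∃ β : Z →ₗ[ℝ] Z →ₗ[ℝ] ℝ, (∀ x y, β x y = β y x) ∧ (∀ x, 0 ≤ β x x) ∧
      (∀ x, (∃ f ∈ A, j f x ≠ 0) → 0 < β x x) ∧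
      (∀ (S : Z ≃ₗᵢ[ℝ] Z) (c : V →ₗᵢ[ℝ] V), (∀ v, j (c v) = cp S (j v)) → (∀ f ∈ A, c f ∈ A) →
        ∀ x y, β (S x) (S y) = β x y) := by
  obtain ⟨β, h1, h2, h3, h4⟩ := form_exists_aux (Z := Z) (W := A) (j.comp A.subtypeL)
  refine ⟨β, h1, h2, fun x hx => ?_, fun S c hc hS => ?_⟩
  · obtain ⟨f, hf, hfx⟩ := hx
    exact h3 x ⟨⟨f, hf⟩, hfx⟩
  · let L1 : A →ₗᵢ[ℝ] A :=
      { toFun := fun f => ⟨c f, hS f f.2⟩
        map_add' := fun f g => by apply Subtype.ext; exact map_add c _ _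
        map_smul' := fun r f => by apply Subtype.ext; exact map_smul c _ _
        norm_map' := fun f => c.norm_map f }
    have hL1s : Function.Surjective L1 :=
      (LinearMap.injective_iff_surjective (f := L1.toLinearMap)).1 L1.injective
    exact h4 S (LinearIsometryEquiv.ofSurjective L1 hL1s) (fun w => hc w)

/-- composition with an isometry as an isometry of the dual space -/
noncomputable def cpi (S : Z ≃ₗᵢ[ℝ] Z) : StrongDual ℝ Z →ₗᵢ[ℝ] StrongDual ℝ Z where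
  toFun := cp S
  map_add' := fun f g => by ext z; rfl
  map_smul' := fun c f => by ext z; rfl
  norm_map' := fun f => cp_norm S f

theorem form_exists (A : Submodule ℝ (StrongDual ℝ Z)) (hA : FiniteDimensional ℝ A) :
    ∃ β : Z →ₗ[ℝ] Z →ₗ[ℝ] ℝ, (∀ x y, β x y = β y x) ∧ (∀ x, 0 ≤ β x x) ∧
      (∀ x, (∃ f ∈ A, f x ≠ 0) → 0 < β x x) ∧
      (∀ S : Z ≃ₗᵢ[ℝ] Z, (∀ f ∈ A, cp S f ∈ A) → ∀ x y, β (S x) (S y) = β x y) := by
  obtain ⟨β, h1, h2, h3, h4⟩ := form_exists_aux2 (Z := Z) (ContinuousLinearMap.id ℝ _) A hA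
  exact ⟨β, h1, h2, fun x hx => h3 x hx, fun S hS => h4 S (cpi S) (fun v => rfl) hS⟩

end Pool.Agent.Q98.BM
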