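import Mathlib

/-!
# Irreducibility of the conjugates of a finite rank projection on a transitive space

`Z` is a real normed space with transitive norm, `P` a bounded projection of finite rank. A linear
subspace which is invariant under all conjugates `h P h⁻¹`, `h` a linear isometry, is `0` or `Z`.
-/

set_option autoImplicit false

namespace Pool.Agent.Q98.BM

variable {Z : Type*} [NormedAddCommGroup Z] [NormedSpace ℝ Z]

/-- transitivity of the norm -/
def Trans (Z : Type*) [NormedAddCommGroup Z] [NormedSpace ℝ Z] : Prop :=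
  ∀ x y : Z, ‖x‖ = 1 → ‖y‖ = 1 → ∃ T : Z ≃ₗᵢ[ℝ] Z, T x = y

lemma Trans.smul (htr : Trans Z) {x y : Z} (hx : x ≠ 0) (hy : y ≠ 0) :
    ∃ (T : Z ≃ₗᵢ[ℝ] Z) (c : ℝ), 0 < c ∧ T x = c • y := by
  have hxn : 0 < ‖x‖ := norm_pos_iff.2 hx
  have hyn : 0 < ‖y‖ := norm_pos_iff.2 hy
  obtain ⟨T, hT⟩ := htr (‖x‖⁻¹ • x) (‖y‖⁻¹ • y)
    (by rw [norm_smul, norm_inv, norm_norm, inv_mul_cancel₀ hxn.ne'])
    (by rw [norm_smul, norm_inv, norm_norm, inv_mul_cancel₀ hyn.ne'])
  refine ⟨T, ‖x‖ * ‖y‖⁻¹, by positivity, ?_⟩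
  have h1 : x = ‖x‖ • (‖x‖⁻¹ • x) := by rw [smul_smul, mul_inv_cancel₀ hxn.ne', one_smul]
  calc T x = T (‖x‖ • (‖x‖⁻¹ • x)) := by rw [← h1]
    _ = ‖x‖ • (‖y‖⁻¹ • y) := by rw [map_smul, hT]
    _ = _ := by rw [smul_smul]

/-- invariance under all conjugates -/
def Inv (P : Z →L[ℝ] Z) (W : Submodule ℝ Z) : Prop :=
  ∀ h : Z ≃ₗᵢ[ℝ] Z, ∀ x ∈ W, h (P (h.symm x)) ∈ W

/-- the smallest invariant subspace containing `x` -/
def cyc (P : Z →L[ℝ] Z) (x : Z) : Submodule ℝ Z := sInf {W | Inv P W ∧ x ∈ W}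

lemma mem_cyc (P : Z →L[ℝ] Z) (x : Z) : x ∈ cyc P x := by
  unfold cyc
  rw [Submodule.mem_sInf]
  exact fun W hW => hW.2

lemma cyc_le {P : Z →L[ℝ] Z} {x : Z} {W : Submodule ℝ Z} (hW : Inv P W) (hx : x ∈ W) :
    cyc P x ≤ W := sInf_le ⟨hW, hx⟩

lemma cyc_inv (P : Z →L[ℝ] Z) (x : Z) : Inv P (cyc P x) := by
  intro h y hy
  unfold cyc at *
  rw [Submodule.mem_sInf] at *
  exact fun W hW => hW.1 h y (hy W hW)

lemma Inv.inf {P : Z →L[ℝ] Z} {V W : Submodule ℝ Z} (hV : Inv P V) (hW : Inv P W) :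
    Inv P (V ⊓ W) := fun h x hx => ⟨hV h x hx.1, hW h x hx.2⟩

lemma Inv.comap {P : Z →L[ℝ] Z} {W : Submodule ℝ Z} (hW : Inv P W) (k : Z ≃ₗᵢ[ℝ] Z) :
    Inv P (W.comap (k.toLinearEquiv : Z →ₗ[ℝ] Z)) := by
  intro h x hx
  rw [Submodule.mem_comap] at *
  have h1 := hW (h.trans k) (k x) hx
  simpa using h1

lemma cyc_comap (P : Z →L[ℝ] Z) (x : Z) (k : Z ≃ₗᵢ[ℝ] Z) :
    cyc P x ≤ (cyc P (k x)).comap (k.toLinearEquiv : Z →ₗ[ℝ] Z) :=
  cyc_le ((cyc_inv P (k x)).comap k) (mem_cyc P (k x))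

lemma mem_cyc_map {P : Z →L[ℝ] Z} {x y : Z} (k : Z ≃ₗᵢ[ℝ] Z) (h : k y ∈ cyc P (k x)) :
    y ∈ cyc P x := by
  have h1 := cyc_comap P (k x) k.symm h
  rw [Submodule.mem_comap] at h1
  simpa using h1

lemma cyc_smul {P : Z →L[ℝ] Z} {x : Z} {c : ℝ} (hc : c ≠ 0) : cyc P (c • x) = cyc P x := by
  apply le_antisymm
  · exact cyc_le (cyc_inv P x) ((cyc P x).smul_mem c (mem_cyc P x))
  · refine cyc_le (cyc_inv P _) ?_
    have h1 := (cyc P (c • x)).smul_mem c⁻¹ (mem_cyc P (c • x))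
    rwa [smul_smul, inv_mul_cancel₀ hc, one_smul] at h1

lemma Inv.self {P : Z →L[ℝ] Z} {W : Submodule ℝ Z} (hW : Inv P W) {x : Z} (hx : x ∈ W) :
    P x ∈ W := hW (LinearIsometryEquiv.refl ℝ Z) x hx

/-- there is an atom -/
lemma exists_atom (htr : Trans Z) (P : Z →L[ℝ] Z) (hP : ∀ x, P (P x) = P x)
    [FiniteDimensional ℝ (LinearMap.range (P : Z →ₗ[ℝ] Z))] (hne : ∃ x, P x ≠ 0) :
    ∃ z : Z, z ≠ 0 ∧ P z = z ∧ ∀ W : Submodule ℝ Z, Inv P W → W ≤ cyc P z → z ∉ W → W = ⊥ := by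
  set F := LinearMap.range (P : Z →ₗ[ℝ] Z) with hF
  set N : Set ℕ := {n | ∃ z : Z, z ≠ 0 ∧ P z = z ∧
    Module.finrank ℝ (cyc P z ⊓ F : Submodule ℝ Z) = n} with hN
  have hNne : N.Nonempty := by
    obtain ⟨x, hx⟩ := hne
    exact ⟨_, P x, hx, hP x, rfl⟩
  obtain ⟨z, hz0, hPz, hzN⟩ := Nat.sInf_mem hNne
  have key : ∀ W : Submodule ℝ Z, Inv P W → W ≤ cyc P z → z ∉ W → ∀ w ∈ W, P w = 0 := by
    intro W hW hWz hzW w hw
    by_contra hne'
    have h1 : P w ∈ W := hW.self hw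
    have h2 : cyc P (P w) ≤ W := cyc_le hW h1
    have h3 : cyc P (P w) ⊓ F ≤ cyc P z ⊓ F := inf_le_inf_right _ (h2.trans hWz)
    have h4 : Module.finrank ℝ (cyc P z ⊓ F : Submodule ℝ Z) ≤
        Module.finrank ℝ (cyc P (P w) ⊓ F : Submodule ℝ Z) := by
      rw [hzN]
      exact Nat.sInf_le ⟨P w, hne', hP w, rfl⟩
    have : FiniteDimensional ℝ (cyc P z ⊓ F : Submodule ℝ Z) :=
      Submodule.finiteDimensional_of_le inf_le_right
    have h5 := Submodule.eq_of_le_of_finrank_le h3 h4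
    have h6 : z ∈ cyc P z ⊓ F := ⟨mem_cyc P z, ⟨z, hPz⟩⟩
    rw [← h5] at h6
    exact hzW (h2 h6.1)
  refine ⟨z, hz0, hPz, fun W hW hWz hzW => ?_⟩
  have hPW := key W hW hWz hzW
  have bound : ∀ w ∈ W, ‖z + w‖ ≤ ‖P‖ * ‖z‖ := by
    intro w hw
    set u := z + w with hu
    have hPu : P u = z := by rw [hu, map_add, hPz, hPW w hw, add_zero]
    have hu0 : u ≠ 0 := by
      intro h
      rw [h, map_zero] at hPu
      exact hz0 hPu.symm
    have hzu : z ∈ cyc P u := by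
      have := (cyc_inv P u).self (mem_cyc P u)
      rwa [hPu] at this
    have huz : u ∈ cyc P z := (cyc P z).add_mem (mem_cyc P z) (hWz hw)
    have heq : cyc P u = cyc P z :=
      le_antisymm (cyc_le (cyc_inv P z) huz) (cyc_le (cyc_inv P u) hzu)
    obtain ⟨h, c, hc, hh⟩ := htr.smul hz0 hu0
    have h1 := key (W.comap (h.toLinearEquiv : Z →ₗ[ℝ] Z)) (hW.comap h) (by
      intro x hx
      rw [Submodule.mem_comap] at hx
      have h2 : h x ∈ cyc P z := hWz hx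
      rw [← heq, ← cyc_smul hc.ne', ← hh] at h2
      exact mem_cyc_map h h2) (by
      intro hx
      rw [Submodule.mem_comap] at hx
      have h2 : h z ∈ W := hx
      rw [hh] at h2
      have h3 : u ∈ W := by
        have := W.smul_mem c⁻¹ h2
        rwa [smul_smul, inv_mul_cancel₀ hc.ne', one_smul] at this
      have h4 := hW.self h3
      rw [hPu] at h4
      exact hzW h4) (h.symm w) (by
        rw [Submodule.mem_comap]
        show h (h.symm w) ∈ W
        rw [h.apply_symm_apply]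
        exact hw)
    have h2 : h.symm u = c⁻¹ • z := by
      rw [LinearIsometryEquiv.symm_apply_eq, map_smul, hh, smul_smul, inv_mul_cancel₀ hc.ne',
        one_smul]
    have h3 : P (h.symm z) = c⁻¹ • z := by
      have : z = u - w := by rw [hu]; abel
      conv_lhs => rw [this]
      rw [map_sub, map_sub, h1, sub_zero, h2, map_smul, hPz]
    have h4 : ‖u‖ = ‖c⁻¹ • z‖ := by rw [← h2, LinearIsometryEquiv.norm_map]
    rw [h4, ← h3]
    refine (P.le_opNorm _).trans ?_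
    rw [LinearIsometryEquiv.norm_map]
  rw [Submodule.eq_bot_iff]
  intro w hw
  by_contra hw0
  have hwn : 0 < ‖w‖ := norm_pos_iff.2 hw0
  obtain ⟨t, ht⟩ : ∃ t : ℝ, (‖P‖ * ‖z‖ + ‖z‖) / ‖w‖ < t := exists_gt _
  have h1 := bound (t • w) (W.smul_mem t hw)
  have h2 : ‖t • w‖ ≤ ‖z + t • w‖ + ‖z‖ := by
    have := norm_sub_le (z + t • w) z
    rwa [add_sub_cancel_left] at this
  rw [norm_smul] at h2
  rw [div_lt_iff₀ hwn] at ht
  have h3 : t * ‖w‖ ≤ ‖t‖ * ‖w‖ := mul_le_mul_of_nonneg_right (Real.le_norm_self t) hwn.le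
  linarith

/-- all cyclic subspaces are atoms -/
lemma atom (htr : Trans Z) (P : Z →L[ℝ] Z) (hP : ∀ x, P (P x) = P x)
    [FiniteDimensional ℝ (LinearMap.range (P : Z →ₗ[ℝ] Z))] (hne : ∃ x, P x ≠ 0)
    {x : Z} (hx : x ≠ 0) {W : Submodule ℝ Z} (hW : Inv P W) (hWx : W ≤ cyc P x) (hWne : W ≠ ⊥) :
    W = cyc P x := by
  obtain ⟨z, hz0, hPz, hz⟩ := exists_atom htr P hP hne
  obtain ⟨h, c, hc, hh⟩ := htr.smul hz0 hx
  refine le_antisymm hWx (cyc_le hW ?_)
  by_contra hxW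
  apply hWne
  have h1 := hz (W.comap (h.toLinearEquiv : Z →ₗ[ℝ] Z)) (hW.comap h) (by
    intro y hy
    rw [Submodule.mem_comap] at hy
    have h2 : h y ∈ cyc P x := hWx hy
    rw [← cyc_smul hc.ne', ← hh] at h2
    exact mem_cyc_map h h2) (by
    intro hy
    rw [Submodule.mem_comap] at hy
    have h2 : h z ∈ W := hy
    rw [hh] at h2
    have := W.smul_mem c⁻¹ h2
    rw [smul_smul, inv_mul_cancel₀ hc.ne', one_smul] at this
    exact hxW this)
  rw [Submodule.eq_bot_iff] at h1 ⊢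
  intro w hw
  have h2 := h1 (h.symm w) (by
    rw [Submodule.mem_comap]
    show h (h.symm w) ∈ W
    rw [h.apply_symm_apply]
    exact hw)
  have h3 := congrArg h h2
  rwa [h.apply_symm_apply, map_zero] at h3

/-- **Irreducibility.** -/
theorem irr (htr : Trans Z) (hinf : ¬ FiniteDimensional ℝ Z) (P : Z →L[ℝ] Z)
    (hP : ∀ x, P (P x) = P x) [FiniteDimensional ℝ (LinearMap.range (P : Z →ₗ[ℝ] Z))]
    (hne : ∃ x, P x ≠ 0) (W : Submodule ℝ Z) (hW : Inv P W) : W = ⊥ ∨ W = ⊤ := by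
  rcases eq_or_ne W ⊥ with h0 | h0
  · exact Or.inl h0
  right
  obtain ⟨x, hxW, hx0⟩ := (Submodule.ne_bot_iff W).1 h0
  have hle : cyc P x ≤ W := cyc_le hW hxW
  rw [eq_top_iff]
  refine le_trans (le_of_eq ?_) hle
  symm
  by_contra hcon
  -- a conjugate fixing `x`
  obtain ⟨x1, hx1⟩ := hne
  obtain ⟨h, c, hc, hh⟩ := htr.smul hx1 hx0
  have hfix : h (P (h.symm x)) = x := by
    have h1 : h.symm x = c⁻¹ • P x1 := by
      rw [LinearIsometryEquiv.symm_apply_eq, map_smul, hh, smul_smul, inv_mul_cancel₀ hc.ne',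
        one_smul]
    rw [h1, map_smul, hP, ← h1, h.apply_symm_apply]
  have hall : ∀ y, y ∉ cyc P x → h (P (h.symm y)) = y := by
    intro y hy
    by_contra hyne
    have hy0 : y ≠ 0 := by
      rintro rfl
      exact hy (cyc P x).zero_mem
    set u := x + y with hu
    have hu0 : u ≠ 0 := by
      intro h2
      have : y = -x := by rw [hu] at h2; exact (neg_eq_of_add_eq_zero_right h2).symm
      rw [this] at hy
      exact hy ((cyc P x).neg_mem (mem_cyc P x))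
    set v := y - h (P (h.symm y)) with hv
    have hv0 : v ≠ 0 := sub_ne_zero.2 (Ne.symm hyne)
    have hvy : v ∈ cyc P y := (cyc P y).sub_mem (mem_cyc P y) (cyc_inv P y h y (mem_cyc P y))
    have hvu : v ∈ cyc P u := by
      have h2 : v = u - h (P (h.symm u)) := by
        rw [hv, hu, map_add, map_add, map_add, hfix]
        abel
      rw [h2]
      exact (cyc P u).sub_mem (mem_cyc P u) (cyc_inv P u h u (mem_cyc P u))
    have hinv := (cyc_inv P u).inf (cyc_inv P y)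
    have hnb : cyc P u ⊓ cyc P y ≠ ⊥ := (Submodule.ne_bot_iff _).2 ⟨v, ⟨hvu, hvy⟩, hv0⟩
    have e1 := atom htr P hP ⟨x1, hx1⟩ hu0 hinv inf_le_left hnb
    have e2 := atom htr P hP ⟨x1, hx1⟩ hy0 hinv inf_le_right hnb
    have huy : u ∈ cyc P y := by
      rw [← e2, e1]
      exact mem_cyc P u
    have hxy : x ∈ cyc P y := by
      have := (cyc P y).sub_mem huy (mem_cyc P y)
      rwa [hu, add_sub_cancel_right] at this
    have h3 : cyc P x ≤ cyc P y := cyc_le (cyc_inv P y) hxy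
    have h4 : cyc P x ≠ ⊥ := (Submodule.ne_bot_iff _).2 ⟨x, mem_cyc P x, hx0⟩
    have e3 := atom htr P hP ⟨x1, hx1⟩ hy0 (cyc_inv P x) h3 h4
    exact hy (e3 ▸ mem_cyc P y)
  obtain ⟨y, hy⟩ : ∃ y, y ∉ cyc P x := by
    by_contra hno
    push Not at hno
    exact hcon (eq_top_iff.2 fun y _ => hno y)
  have hev : ∀ v, h (P (h.symm v)) = v := by
    intro v
    by_cases hvm : v ∈ cyc P x
    · have h1 : y + v ∉ cyc P x := by
        intro h2
        have := (cyc P x).sub_mem h2 hvm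
        rw [add_sub_cancel_right] at this
        exact hy this
      have h2 := hall _ h1
      rw [map_add, map_add, map_add, hall y hy] at h2
      exact add_left_cancel h2
    · exact hall v hvm
  apply hinf
  have hsurj : Function.Surjective
      (LinearMap.rangeRestrict (P : Z →ₗ[ℝ] Z)) := LinearMap.surjective_rangeRestrict _
  -- `P` is onto
  have hPid : ∀ v, P v = v := by
    intro v
    have := hev (h v)
    rw [h.symm_apply_apply] at this
    exact h.injective this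
  have htop : LinearMap.range (P : Z →ₗ[ℝ] Z) = ⊤ := by
    rw [eq_top_iff]
    intro v _
    exact ⟨v, hPid v⟩
  have hfd : FiniteDimensional ℝ (⊤ : Submodule ℝ Z) := by
    rw [← htop]; infer_instance
  exact (LinearEquiv.finiteDimensional (Submodule.topEquiv (R := ℝ) (M := Z)))

end Pool.Agent.Q98.BM
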