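import Pool.Agent.Q98.BM.Form

/-!
# The form invariant under all isometries which are finite rank perturbations of the identity
-/

set_option autoImplicit false

open Filter Topology

namespace Pool.Agent.Q98.BM

variable {Z : Type*} [NormedAddCommGroup Z] [NormedSpace ℝ Z]

/-- `S - 1` -/
noncomputable def dm (S : Z ≃ₗᵢ[ℝ] Z) : Z →L[ℝ] Z :=
  (S.toContinuousLinearEquiv : Z →L[ℝ] Z) - ContinuousLinearMap.id ℝ Z

lemma dm_apply (S : Z ≃ₗᵢ[ℝ] Z) (x : Z) : dm S x = S x - x := rfl

/-- finite rank perturbation of the identity -/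
def FR (S : Z ≃ₗᵢ[ℝ] Z) : Prop := FiniteDimensional ℝ (LinearMap.range (dm S : Z →ₗ[ℝ] Z))

lemma FR.conj {S : Z ≃ₗᵢ[ℝ] Z} (hS : FR S) (h : Z ≃ₗᵢ[ℝ] Z) :
    FR ((h.symm.trans S).trans h) := by
  unfold FR at *
  have h1 : LinearMap.range (dm ((h.symm.trans S).trans h) : Z →ₗ[ℝ] Z) ≤
      (LinearMap.range (dm S : Z →ₗ[ℝ] Z)).map (h.toLinearEquiv : Z →ₗ[ℝ] Z) := by
    rintro _ ⟨x, rfl⟩
    refine ⟨dm S (h.symm x), ⟨_, rfl⟩, ?_⟩
    show h (S (h.symm x) - h.symm x) = h (S (h.symm x)) - x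
    rw [map_sub, h.apply_symm_apply]
  exact Submodule.finiteDimensional_of_le h1

/-- `f ∘ S - f` -/
noncomputable def rho (S : Z ≃ₗᵢ[ℝ] Z) : StrongDual ℝ Z →ₗ[ℝ] StrongDual ℝ Z where
  toFun f := cp S f - f
  map_add' f g := by
    ext x
    show (f (S x) + g (S x)) - (f x + g x) = (f (S x) - f x) + (g (S x) - g x)
    ring
  map_smul' c f := by
    ext x
    show c * f (S x) - c * f x = c * (f (S x) - f x)
    ring

lemma rho_fd {S : Z ≃ₗᵢ[ℝ] Z} (hS : FR S) : FiniteDimensional ℝ (LinearMap.range (rho S)) := by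
  unfold FR at hS
  set F := LinearMap.range (dm S : Z →ₗ[ℝ] Z) with hF
  let D : Z →L[ℝ] F := (dm S).codRestrict F (fun x => ⟨x, rfl⟩)
  let κ : (F →ₗ[ℝ] ℝ) →ₗ[ℝ] StrongDual ℝ Z :=
    { toFun := fun g => (LinearMap.toContinuousLinearMap g).comp D
      map_add' := fun g g' => by ext x; rfl
      map_smul' := fun c g => by ext x; rfl }
  refine Submodule.finiteDimensional_of_le (S₂ := LinearMap.range κ) ?_
  rintro _ ⟨f, rfl⟩
  refine ⟨(f : Z →ₗ[ℝ] ℝ).domRestrict F, ?_⟩
  ext x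
  show f (S x - x) = f (S x) - f x
  rw [map_sub]

lemma exists_A (Sg : Finset (Z ≃ₗᵢ[ℝ] Z)) (hSg : ∀ S ∈ Sg, FR S) (f0 : StrongDual ℝ Z) :
    ∃ A : Submodule ℝ (StrongDual ℝ Z), FiniteDimensional ℝ A ∧ f0 ∈ A ∧
      ∀ S ∈ Sg, ∀ f ∈ A, cp S f ∈ A := by
  classical
  induction Sg using Finset.induction_on with
  | empty =>
    refine ⟨Submodule.span ℝ {f0}, inferInstance, Submodule.mem_span_singleton_self f0, ?_⟩
    intro S hS
    simp at hS
  | insert S Sg hS ih =>
    obtain ⟨A, hA, hfA, -⟩ := ih (fun T hT => hSg T (Finset.mem_insert_of_mem hT))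
    clear hA hfA A
    clear ih
    refine ⟨Submodule.span ℝ {f0} ⊔ (insert S Sg).sup (fun T => LinearMap.range (rho T)), ?_, ?_, ?_⟩
    · have h1 : FiniteDimensional ℝ
          ((insert S Sg).sup (fun T => LinearMap.range (rho T)) : Submodule ℝ (StrongDual ℝ Z)) := by
        have h2 : ∀ Q : Finset (Z ≃ₗᵢ[ℝ] Z), (∀ T ∈ Q, FR T) → FiniteDimensional ℝ
            (Q.sup (fun T => LinearMap.range (rho T)) : Submodule ℝ (StrongDual ℝ Z)) := by
          intro Q
          induction Q using Finset.induction_on with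
          | empty =>
            intro _
            rw [Finset.sup_empty]
            exact finiteDimensional_bot ℝ _
          | insert T Q hT ih =>
            intro hQ
            rw [Finset.sup_insert]
            have i1 := rho_fd (hQ T (Finset.mem_insert_self T Q))
            have i2 := ih (fun R hR => hQ R (Finset.mem_insert_of_mem hR))
            exact Submodule.finiteDimensional_sup _ _
        exact h2 _ hSg
      exact Submodule.finiteDimensional_sup _ _
    · exact Submodule.mem_sup_left (Submodule.mem_span_singleton_self f0)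
    · intro T hT f hf
      have h1 : cp T f = f + rho T f := by
        show cp T f = f + (cp T f - f)
        abel
      rw [h1]
      refine Submodule.add_mem _ hf (Submodule.mem_sup_right ?_)
      exact (Finset.le_sup (f := fun T => LinearMap.range (rho T)) hT) ⟨f, rfl⟩

/-- positive semidefinite symmetric forms -/
structure PSD (β : Z →ₗ[ℝ] Z →ₗ[ℝ] ℝ) : Prop where
  symm : ∀ x y, β x y = β y x
  nn : ∀ x, 0 ≤ β x x

lemma PSD.cs {β : Z →ₗ[ℝ] Z →ₗ[ℝ] ℝ} (h : PSD β) (x y : Z) :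
    2 * |β x y| ≤ β x x + β y y := by
  have h1 := h.nn (x + y)
  have h2 := h.nn (x - y)
  simp only [map_add, map_sub, LinearMap.add_apply, LinearMap.sub_apply] at h1 h2
  rw [h.symm y x] at h1 h2
  rcases abs_cases (β x y) with ⟨h3, _⟩ | ⟨h3, _⟩ <;> rw [h3] <;> linarith

lemma PSD.null {β : Z →ₗ[ℝ] Z →ₗ[ℝ] ℝ} (h : PSD β) {x : Z} (hx : β x x = 0) (y : Z) :
    β x y = 0 := by
  by_contra hne
  have key : ∀ t : ℝ, 2 * t * β x y ≤ β y y := by
    intro t
    have h1 := h.nn (y - t • x)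
    simp only [map_sub, map_smul, LinearMap.sub_apply, LinearMap.smul_apply, smul_eq_mul] at h1
    rw [h.symm y x, hx] at h1
    linarith
  have h2 := key ((β y y + 1) / (2 * β x y))
  have h3 : 2 * ((β y y + 1) / (2 * β x y)) * β x y = β y y + 1 := by field_simp
  linarith

lemma dm_ker {T : Z ≃ₗᵢ[ℝ] Z} (x : Z) (h : dm T (dm T x) = 0) : dm T x = 0 := by
  have h1 : T (dm T x) = dm T x := by
    rw [dm_apply T (dm T x), sub_eq_zero] at h
    exact h
  have h2 : ∀ n : ℕ, (T ^ n) x = x + n • dm T x := by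
    intro n
    induction n with
    | zero => simp
    | succ n ih =>
      rw [pow_succ']
      show T ((T ^ n) x) = _
      rw [ih, map_add, map_nsmul, h1, succ_nsmul]
      have : T x = x + dm T x := by rw [dm_apply]; abel
      rw [this]
      abel
  by_contra hne
  have hpos : 0 < ‖dm T x‖ := norm_pos_iff.2 hne
  obtain ⟨n, hn⟩ := exists_nat_gt ((2 * ‖x‖) / ‖dm T x‖)
  rw [div_lt_iff₀ hpos] at hn
  have h3 : (n : ℝ) * ‖dm T x‖ = ‖(T ^ n) x - x‖ := by
    rw [h2, add_sub_cancel_left, ← Nat.cast_smul_eq_nsmul ℝ, norm_smul, Real.norm_natCast]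
  have h4 : ‖(T ^ n) x - x‖ ≤ 2 * ‖x‖ := by
    refine (norm_sub_le _ _).trans ?_
    rw [LinearIsometryEquiv.norm_map]
    linarith
  linarith

end Pool.Agent.Q98.BM
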