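import Pool.Agent.Q98.BM.UltraB

/-!
# Orbit maps of transitive groups are nearly open
-/

set_option autoImplicit false

open Filter Topology Metric
open Pool.H590R3.Ab Pool.Agent.W687.Rot

namespace Pool.Agent.Q98.BM

variable {E : Type*} [NormedAddCommGroup E] [NormedSpace ℝ E]

/-- Baire category -/
theorem near [CompleteSpace E] (htr : Trans E) {M : Type*} [PseudoMetricSpace M]
    (F : (E ≃ₗᵢ[ℝ] E) → M) (hF : TopologicalSpace.IsSeparable (Set.range F)) {κ : ℝ} (hκ : 0 < κ)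
    (x : E) (hx : ‖x‖ = 1) :
    ∃ t : ℝ, 0 < t ∧ ∀ y : E, ‖y‖ = 1 → ‖y - x‖ ≤ t → ∀ η : ℝ, 0 < η →
      ∃ g h : E ≃ₗᵢ[ℝ] E, dist (F g) (F h) < κ ∧ ‖h.symm (g x) - y‖ ≤ η := by
  obtain ⟨c, hc, hcd⟩ := hF
  have : Countable c := hc.to_subtype
  set S : Set E := sphere (0 : E) 1 with hS
  have : CompleteSpace S := (isClosed_sphere).completeSpace_coe
  have : Nonempty S := ⟨⟨x, by rw [hS, mem_sphere_zero_iff_norm]; exact hx⟩⟩
  set A : c → Set E := fun q => {z | ∃ g : E ≃ₗᵢ[ℝ] E, dist (F g) q < κ / 2 ∧ g x = z} with hA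
  set f : c → Set S := fun q => {y : S | (y : E) ∈ closure (A q)} with hf
  have hfc : ∀ q, IsClosed (f q) := fun q => isClosed_closure.preimage continuous_subtype_val
  have hU : ⋃ q, f q = Set.univ := by
    rw [Set.eq_univ_iff_forall]
    rintro ⟨y, hy⟩
    rw [hS, mem_sphere_zero_iff_norm] at hy
    obtain ⟨g, hg⟩ := htr x y hx hy
    have h1 : F g ∈ closure c := hcd ⟨g, rfl⟩
    obtain ⟨q, hq, hq2⟩ := Metric.mem_closure_iff.1 h1 (κ / 2) (by positivity)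
    refine Set.mem_iUnion.2 ⟨⟨q, hq⟩, ?_⟩
    exact subset_closure ⟨g, hq2, hg⟩
  obtain ⟨q, y0, hy0⟩ := nonempty_interior_of_iUnion_of_closed hfc hU
  rw [mem_interior_iff_mem_nhds, Metric.mem_nhds_iff] at hy0
  obtain ⟨r, hr0, hr⟩ := hy0
  have hr' : ∀ y : E, ‖y‖ = 1 → ‖y - y0‖ < r → y ∈ closure (A q) := by
    intro y hy hyr
    have h1 : (⟨y, by rw [hS, mem_sphere_zero_iff_norm]; exact hy⟩ : S) ∈ ball y0 r := by
      rw [mem_ball, Subtype.dist_eq, dist_eq_norm]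
      exact hyr
    exact hr h1
  have hy0n : ‖(y0 : E)‖ = 1 := mem_sphere_zero_iff_norm.1 y0.2
  have h0 : (y0 : E) ∈ closure (A q) := hr' y0 hy0n (by simpa using hr0)
  obtain ⟨a, ⟨h, hh1, rfl⟩, hh2⟩ := Metric.mem_closure_iff.1 h0 (r / 2) (by positivity)
  rw [dist_eq_norm] at hh2
  refine ⟨r / 4, by positivity, fun y hy hyx η hη => ?_⟩
  have h1 : h y ∈ closure (A q) := by
    refine hr' _ (by rw [h.norm_map, hy]) ?_
    have h3 : h y - (y0 : E) = h (y - x) + (h x - y0) := by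
      rw [map_sub]; abel
    rw [h3]
    refine (norm_add_le _ _).trans_lt ?_
    rw [h.norm_map, norm_sub_rev (h x)]
    linarith
  obtain ⟨a, ⟨g, hg1, rfl⟩, hg2⟩ := Metric.mem_closure_iff.1 h1 η hη
  rw [dist_eq_norm] at hg2
  refine ⟨g, h, ?_, ?_⟩
  · have := dist_triangle_right (F g) (F h) q
    linarith
  · have h2 : h.symm (g x) - y = h.symm (g x - h y) := by
      rw [map_sub, h.symm_apply_apply]
    rw [h2, h.symm.norm_map, norm_sub_rev]
    exact hg2.le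

/-- `T` almost commutes with isometries moving `x` to all nearby points -/
def AC (T : E ≃ₗᵢ[ℝ] E) : Prop :=
  ∀ ε : ℝ, 0 < ε → ∀ x : E, ‖x‖ = 1 → ∃ t : ℝ, 0 < t ∧ ∀ y : E, ‖y‖ = 1 → ‖y - x‖ ≤ t →
    ∀ η : ℝ, 0 < η → ∃ k : E ≃ₗᵢ[ℝ] E, ‖op k * op T - op T * op k‖ ≤ ε ∧ ‖k x - y‖ ≤ η

/-- the case of a separable conjugacy class -/
theorem ac_of_conj [CompleteSpace E] (htr : Trans E) (T : E ≃ₗᵢ[ℝ] E)
    (hsep : TopologicalSpace.IsSeparable
      (Set.range (fun g : E ≃ₗᵢ[ℝ] E => op g * op T * op g⁻¹))) : AC T := by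
  intro ε hε x hx
  obtain ⟨t, ht, h⟩ := near htr _ hsep hε x hx
  refine ⟨t, ht, fun y hy hyx η hη => ?_⟩
  obtain ⟨g, h', h1, h2⟩ := h y hy hyx η hη
  refine ⟨h'⁻¹ * g, ?_, h2⟩
  rw [dist_eq_norm] at h1
  have e1 : op (h'⁻¹ * g) * op T - op T * op (h'⁻¹ * g) =
      op h'⁻¹ * (op g * op T * op g⁻¹ - op h' * op T * op h'⁻¹) * op g := by
    ext z
    show h'.symm (g (T z)) - T (h'.symm (g z)) =
      h'.symm (g (T (g.symm (g z))) - h' (T (h'.symm (g z))))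
    rw [map_sub, g.symm_apply_apply, h'.symm_apply_apply]
  rw [e1]
  calc ‖op h'⁻¹ * (op g * op T * op g⁻¹ - op h' * op T * op h'⁻¹) * op g‖
      ≤ ‖op h'⁻¹ * (op g * op T * op g⁻¹ - op h' * op T * op h'⁻¹)‖ * ‖op g‖ := norm_mul_le _ _
    _ ≤ (‖op h'⁻¹‖ * ‖op g * op T * op g⁻¹ - op h' * op T * op h'⁻¹‖) * ‖op g‖ :=
        mul_le_mul_of_nonneg_right (norm_mul_le _ _) (norm_nonneg _)
    _ ≤ (1 * ‖op g * op T * op g⁻¹ - op h' * op T * op h'⁻¹‖) * 1 := by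
        have i1 := op_norm_le h'⁻¹
        have i2 := op_norm_le g
        gcongr
    _ ≤ ε := by
        rw [one_mul, mul_one]
        exact h1.le

end Pool.Agent.Q98.BM
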