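import Pool.Agent.Q98.BM.Irr

/-!
# Projections in the bicommutant of an operator of finite rank
-/

set_option autoImplicit false

namespace Pool.Agent.Q98.BM

variable {Z : Type*} [NormedAddCommGroup Z] [NormedSpace ℝ Z]

theorem proj_exists (Th : Z →L[ℝ] Z) [FiniteDimensional ℝ (LinearMap.range (Th : Z →ₗ[ℝ] Z))]
    (hF : ∀ x, Th (Th x) = 0 → Th x = 0) :
    ∃ P : Z →L[ℝ] Z, (∀ x, P (P x) = P x) ∧ (∀ x, Th (P x) = Th x) ∧
      (∀ x, ∃ y, P x = Th y) ∧ FiniteDimensional ℝ (LinearMap.range (P : Z →ₗ[ℝ] Z)) ∧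
      (∀ B : Z →L[ℝ] Z, (∀ x, B (Th x) = Th (B x)) → ∀ x, B (P x) = P (B x)) ∧
      (∀ D : Submodule ℝ Z, (∀ x ∈ D, Th x ∈ D) → ∀ x ∈ D, P x ∈ D) := by
  set F := LinearMap.range (Th : Z →ₗ[ℝ] Z) with hFdef
  let θ : F →ₗ[ℝ] F := ((Th : Z →ₗ[ℝ] Z).domRestrict F).codRestrict F (fun x => ⟨x, rfl⟩)
  have hθ : ∀ f : F, ((θ f : F) : Z) = Th f := fun f => rfl
  have hinj : Function.Injective θ := by
    rw [← LinearMap.ker_eq_bot, LinearMap.ker_eq_bot']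
    rintro ⟨f, x, rfl⟩ hf
    have h1 : Th (Th x) = 0 := by
      have := congrArg (fun g : F => (g : Z)) hf
      simpa [hθ] using this
    apply Subtype.ext
    exact hF x h1
  let e : F ≃ₗ[ℝ] F := LinearEquiv.ofInjectiveEndo θ hinj
  have he : ∀ f : F, ((e f : F) : Z) = Th f := fun f => rfl
  have hes : ∀ f : F, Th ((e.symm f : F) : Z) = f := fun f => by
    rw [← he, e.apply_symm_apply]
  have uniq : ∀ f g : F, Th (f : Z) = Th (g : Z) → f = g := by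
    intro f g hfg
    apply hinj
    apply Subtype.ext
    rw [hθ, hθ, hfg]
  let P : Z →L[ℝ] Z := (F.subtypeL.comp (LinearMap.toContinuousLinearMap (e.symm : F →ₗ[ℝ] F))).comp
    (Th.codRestrict F (fun x => ⟨x, rfl⟩))
  have hP : ∀ x, P x = ((e.symm ⟨Th x, ⟨x, rfl⟩⟩ : F) : Z) := fun x => rfl
  have hPF : ∀ x, P x ∈ F := fun x => by rw [hP]; exact (e.symm _).2
  have hTP : ∀ x, Th (P x) = Th x := fun x => by rw [hP, hes]
  have hPu : ∀ x w, w ∈ F → Th w = Th x → P x = w := by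
    intro x w hw h
    have := uniq ⟨P x, hPF x⟩ ⟨w, hw⟩ (by show Th (P x) = Th w; rw [hTP, h])
    exact congrArg (fun g : F => (g : Z)) this
  refine ⟨P, fun x => hPu _ _ (hPF x) rfl, hTP, fun x => ?_, ?_, ?_, ?_⟩
  · obtain ⟨y, hy⟩ := hPF x
    exact ⟨y, hy.symm⟩
  · refine Submodule.finiteDimensional_of_le (S₂ := F) ?_
    rintro _ ⟨x, rfl⟩
    exact hPF x
  · intro B hB x
    refine (hPu _ _ ?_ ?_).symm
    · -- `B w ∈ F`
      have h1 : P x = Th ((e.symm ⟨P x, hPF x⟩ : F) : Z) := by rw [hes]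
      rw [h1, hB]
      exact ⟨_, rfl⟩
    · rw [← hB, hTP, hB]
  · intro D hD x hx
    have h1 : Th x ∈ D ⊓ F := ⟨hD x hx, ⟨x, rfl⟩⟩
    have hfd : FiniteDimensional ℝ (D ⊓ F : Submodule ℝ Z) :=
      Submodule.finiteDimensional_of_le inf_le_right
    let τ : (D ⊓ F : Submodule ℝ Z) →ₗ[ℝ] (D ⊓ F : Submodule ℝ Z) :=
      ((Th : Z →ₗ[ℝ] Z).domRestrict _).codRestrict _ (fun f => ⟨hD _ f.2.1, ⟨_, rfl⟩⟩)
    have hτ : ∀ f, ((τ f : (D ⊓ F : Submodule ℝ Z)) : Z) = Th f := fun f => rfl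
    have hτi : Function.Injective τ := by
      intro f g hfg
      have h2 := uniq ⟨f, f.2.2⟩ ⟨g, g.2.2⟩ (by
        show Th (f : Z) = Th (g : Z)
        rw [← hτ, ← hτ, hfg])
      exact Subtype.ext (congrArg (fun g : F => (g : Z)) h2)
    obtain ⟨w, hw⟩ := (LinearMap.injective_iff_surjective.1 hτi) ⟨Th x, h1⟩
    have h3 : Th (w : Z) = Th x := by rw [← hτ, hw]
    rw [hPu x w w.2.2 h3]
    exact w.2.1

/-- The case of an operator which is not nilpotent. -/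
theorem proj_of_not_nilp (Psi : Z →L[ℝ] Z)
    [FiniteDimensional ℝ (LinearMap.range (Psi : Z →ₗ[ℝ] Z))] (hn : ∀ m : ℕ, Psi ^ m ≠ 0) :
    ∃ P : Z →L[ℝ] Z, (∀ x, P (P x) = P x) ∧ (∃ x, P x ≠ 0) ∧
      FiniteDimensional ℝ (LinearMap.range (P : Z →ₗ[ℝ] Z)) ∧
      (∀ B : Z →L[ℝ] Z, (∀ x, B (Psi x) = Psi (B x)) → ∀ x, B (P x) = P (B x)) := by
  have hfd : ∀ m : ℕ, FiniteDimensional ℝ (LinearMap.range ((Psi ^ (m + 1) : Z →L[ℝ] Z) : Z →ₗ[ℝ] Z)) := by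
    intro m
    refine Submodule.finiteDimensional_of_le (S₂ := LinearMap.range (Psi : Z →ₗ[ℝ] Z)) ?_
    rintro _ ⟨x, rfl⟩
    refine ⟨(Psi ^ m) x, ?_⟩
    show Psi ((Psi ^ m) x) = (Psi ^ (m + 1)) x
    rw [pow_succ']
    rfl
  set N : Set ℕ := {n | ∃ m : ℕ, Module.finrank ℝ
    (LinearMap.range ((Psi ^ (m + 1) : Z →L[ℝ] Z) : Z →ₗ[ℝ] Z)) = n} with hN
  obtain ⟨m, hm⟩ := Nat.sInf_mem (s := N) ⟨_, 0, rfl⟩
  set Th : Z →L[ℝ] Z := Psi ^ (m + 1) with hTh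
  have : FiniteDimensional ℝ (LinearMap.range (Th : Z →ₗ[ℝ] Z)) := hfd m
  have h2 : Th * Th = Psi ^ ((2 * m + 1) + 1) := by
    rw [hTh, ← pow_add]
    congr 1
    ring
  have h3 : LinearMap.range ((Th * Th : Z →L[ℝ] Z) : Z →ₗ[ℝ] Z) =
      LinearMap.range (Th : Z →ₗ[ℝ] Z) := by
    refine Submodule.eq_of_le_of_finrank_le ?_ ?_
    · rintro _ ⟨x, rfl⟩
      exact ⟨Th x, rfl⟩
    · rw [hm]
      refine Nat.sInf_le ⟨2 * m + 1, ?_⟩
      rw [← h2]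
  have hF : ∀ x, Th (Th x) = 0 → Th x = 0 := by
    let τ : LinearMap.range (Th : Z →ₗ[ℝ] Z) →ₗ[ℝ] LinearMap.range (Th : Z →ₗ[ℝ] Z) :=
      ((Th : Z →ₗ[ℝ] Z).domRestrict _).codRestrict _ (fun f => ⟨_, rfl⟩)
    have hsurj : Function.Surjective τ := by
      rintro ⟨y, hy⟩
      rw [← h3] at hy
      obtain ⟨x, hx⟩ := hy
      refine ⟨⟨Th x, ⟨x, rfl⟩⟩, ?_⟩
      apply Subtype.ext
      exact hx
    have hinj := LinearMap.injective_iff_surjective.2 hsurj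
    intro x hx
    have h4 : τ ⟨Th x, ⟨x, rfl⟩⟩ = τ 0 := by
      rw [map_zero]
      apply Subtype.ext
      exact hx
    have h5 := hinj h4
    exact congrArg (fun g : LinearMap.range (Th : Z →ₗ[ℝ] Z) => (g : Z)) h5
  obtain ⟨P, hP1, hP2, hP3, hP4, hP5, -⟩ := proj_exists Th hF
  refine ⟨P, hP1, ?_, hP4, ?_⟩
  · by_contra hno
    push Not at hno
    apply hn (m + 1)
    ext x
    have := hP2 x
    rw [hno, map_zero] at this
    exact this.symm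
  · intro B hB
    apply hP5
    have hk : ∀ (k : ℕ) (x : Z), B ((Psi ^ k) x) = (Psi ^ k) (B x) := by
      intro k
      induction k with
      | zero => intro x; simp
      | succ k ih =>
        intro x
        rw [pow_succ']
        show B (Psi ((Psi ^ k) x)) = Psi ((Psi ^ k) (B x))
        rw [hB, ih]
    exact hk (m + 1)

end Pool.Agent.Q98.BM
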