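import Pool.Agent.Q98.BM.Lim

/-!
# Skew-Hermitian operators
-/

set_option autoImplicit false

open Filter Topology

namespace Pool.Agent.Q98.BM

variable {Z : Type*} [NormedAddCommGroup Z] [NormedSpace ℝ Z]

/-- operators with numerical range zero -/
def Sk (A : Z →L[ℝ] Z) : Prop :=
  ∀ (x : Z) (f : StrongDual ℝ Z), ‖f‖ ≤ 1 → f x = ‖x‖ → f (A x) = 0

lemma Sk.of_bound {A : Z →L[ℝ] Z} {C : ℝ}
    (h : ∀ (x : Z) (t : ℝ), |t| ≤ 1 → ‖x + t • A x‖ ≤ ‖x‖ * (1 + C * t ^ 2)) : Sk A := by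
  intro x f hf hfx
  have key : ∀ t : ℝ, |t| ≤ 1 → t * f (A x) ≤ ‖x‖ * |C| * t ^ 2 := by
    intro t ht
    have h1 : f (x + t • A x) ≤ ‖x + t • A x‖ := by
      refine (le_abs_self _).trans ?_
      refine (f.le_opNorm _).trans ?_
      exact mul_le_of_le_one_left (norm_nonneg _) hf
    rw [map_add, map_smul, smul_eq_mul, hfx] at h1
    have h2 := h x t ht
    have h3 : ‖x‖ * (C * t ^ 2) ≤ ‖x‖ * (|C| * t ^ 2) := by
      refine mul_le_mul_of_nonneg_left ?_ (norm_nonneg x)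
      exact mul_le_mul_of_nonneg_right (le_abs_self C) (sq_nonneg t)
    nlinarith
  set a := f (A x) with ha
  set B := ‖x‖ * |C| with hB
  have hB0 : 0 ≤ B := by positivity
  by_contra hne
  have ha0 : 0 < |a| := abs_pos.2 hne
  set t : ℝ := |a| / (|a| + B + 1) with ht
  have hden : 0 < |a| + B + 1 := by positivity
  have ht0 : 0 < t := by positivity
  have ht1 : t ≤ 1 := by
    rw [ht, div_le_one hden]
    linarith
  have h4 : t * |a| ≤ B * t ^ 2 := by
    rcases abs_cases a with ⟨h5, _⟩ | ⟨h5, _⟩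
    · rw [h5]
      exact key t (by rw [abs_of_pos ht0]; exact ht1)
    · rw [h5]
      have := key (-t) (by rw [abs_neg, abs_of_pos ht0]; exact ht1)
      have e : (-t) ^ 2 = t ^ 2 := by ring
      rw [e] at this
      linarith
  have h5 : |a| ≤ B * t := by
    have : t * |a| ≤ t * (B * t) := by nlinarith
    exact le_of_mul_le_mul_left this ht0
  have h6 : B * t < |a| := by
    rw [ht, ← mul_div_assoc, div_lt_iff₀ hden]
    nlinarith
  linarith

/-- the space of skew-Hermitian operators -/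
def SkS (Z : Type*) [NormedAddCommGroup Z] [NormedSpace ℝ Z] : Submodule ℝ (Z →L[ℝ] Z) where
  carrier := {A | Sk A}
  add_mem' := by
    intro A B hA hB x f hf hfx
    show f (A x + B x) = 0
    rw [map_add, hA x f hf hfx, hB x f hf hfx, add_zero]
  zero_mem' := by
    intro x f _ _
    show f 0 = 0
    rw [map_zero]
  smul_mem' := by
    intro c A hA x f hf hfx
    show f (c • A x) = 0
    rw [map_smul, hA x f hf hfx, smul_zero]

lemma SkS_closed : IsClosed (SkS Z : Set (Z →L[ℝ] Z)) := by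
  have : (SkS Z : Set (Z →L[ℝ] Z)) = ⋂ (x : Z) (f : StrongDual ℝ Z) (_ : ‖f‖ ≤ 1)
      (_ : f x = ‖x‖), {A | f (A x) = 0} := by
    ext A
    simp only [Set.mem_iInter]
    rfl
  rw [this]
  refine isClosed_iInter fun x => isClosed_iInter fun f => isClosed_iInter fun _ =>
    isClosed_iInter fun _ => ?_
  exact isClosed_eq (f.continuous.comp (ContinuousLinearMap.apply ℝ Z x).continuous)
    continuous_const

lemma Sk.conj {A : Z →L[ℝ] Z} (hA : Sk A) (h : Z ≃ₗᵢ[ℝ] Z) {B : Z →L[ℝ] Z}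
    (hB : ∀ x, B x = h (A (h.symm x))) : Sk B := by
  intro x f hf hfx
  rw [hB]
  have h1 := hA (h.symm x) (cp h f) (by rw [cp_norm]; exact hf) (by
    rw [cp_apply, h.apply_symm_apply, hfx, LinearIsometryEquiv.norm_map])
  exact h1

lemma Sk.expand {A : Z →L[ℝ] Z} (hA : Sk A) (y : Z) (t : ℝ) : ‖y‖ ≤ ‖y + t • A y‖ := by
  rcases eq_or_ne y 0 with rfl | hy
  · simp
  obtain ⟨g, hg, hgy⟩ := exists_dual_vector ℝ y (norm_ne_zero_iff.2 hy)
  have h1 := hA y g hg.le (by simpa using hgy)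
  have h2 : g (y + t • A y) = ‖y‖ := by
    rw [map_add, map_smul, h1, smul_zero, add_zero]
    simpa using hgy
  rw [← h2]
  refine (le_abs_self _).trans ((g.le_opNorm _).trans ?_)
  rw [hg, one_mul]

lemma Sk.upper {A : Z →L[ℝ] Z} (hA : Sk A) (y : Z) (t : ℝ) :
    ‖y + t • A y‖ ≤ ‖y‖ * (1 + t ^ 2 * ‖A‖ ^ 2) := by
  have h1 := hA.expand (y + t • A y) (-t)
  have h2 : (y + t • A y) + (-t) • A (y + t • A y) = y - (t ^ 2) • A (A y) := by
    rw [map_add, map_smul]
    module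
  rw [h2] at h1
  refine h1.trans ((norm_sub_le _ _).trans ?_)
  have h3 : ‖A (A y)‖ ≤ ‖A‖ ^ 2 * ‖y‖ := by
    calc ‖A (A y)‖ ≤ ‖A‖ * ‖A y‖ := A.le_opNorm _
      _ ≤ ‖A‖ * (‖A‖ * ‖y‖) := mul_le_mul_of_nonneg_left (A.le_opNorm _) (norm_nonneg _)
      _ = _ := by ring
  rw [norm_smul, Real.norm_of_nonneg (sq_nonneg t)]
  nlinarith [mul_le_mul_of_nonneg_left h3 (sq_nonneg t)]

/-- the exponentials of skew-Hermitian operators are isometric -/
lemma Sk.exp_norm [CompleteSpace Z] {A : Z →L[ℝ] Z} (hA : Sk A) (t : ℝ) (x : Z) :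
    ‖(NormedSpace.exp (t • A)) x‖ = ‖x‖ := by
  set u : ℝ → Z := fun s => (NormedSpace.exp (s • A)) x with hu
  have hd : ∀ s, HasDerivAt u (A (u s)) s := by
    intro s
    have h1 := hasDerivAt_exp_smul_const' (𝕂 := ℝ) A s
    have h2 := (ContinuousLinearMap.apply ℝ Z x).hasFDerivAt.comp_hasDerivAt s h1
    exact h2
  have hn : ∀ s, HasDerivAt (fun s => ‖u s‖) 0 s := by
    intro s
    rw [hasDerivAt_iff_isLittleO_nhds_zero]
    have h1 := hasDerivAt_iff_isLittleO_nhds_zero.1 (hd s)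
    have h2 : (fun h : ℝ => h ^ 2 * (‖A‖ ^ 2 * ‖u s‖)) =o[𝓝 0] fun h : ℝ => h := by
      have h3 : (fun h : ℝ => h ^ 2) =o[𝓝 0] fun h : ℝ => h := by
        have := Asymptotics.isLittleO_pow_id (𝕜 := ℝ) (n := 2) (by norm_num)
        simpa using this
      have h4 := h3.const_mul_left (‖A‖ ^ 2 * ‖u s‖)
      refine h4.congr_left (fun h => ?_)
      ring
    have h5 := h1.norm_left.add h2
    refine Asymptotics.IsBigO.trans_isLittleO ?_ h5
    refine Asymptotics.IsBigO.of_bound 1 (Eventually.of_forall fun h => ?_)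
    rw [one_mul, smul_zero, sub_zero, Real.norm_eq_abs]
    have e1 := hA.expand (u s) h
    have e2 := hA.upper (u s) h
    have e3 : ‖u (s + h) - (u s + h • A (u s))‖ = ‖u (s + h) - u s - h • A (u s)‖ := by
      congr 1; abel
    have e4 := abs_norm_sub_norm_le (u (s + h)) (u s + h • A (u s))
    rw [e3] at e4
    have e5 : |‖u (s + h)‖ - ‖u s‖| ≤ ‖u (s + h) - u s - h • A (u s)‖ +
        h ^ 2 * (‖A‖ ^ 2 * ‖u s‖) := by
      rw [abs_le] at e4 ⊢
      constructor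
      · have : 0 ≤ h ^ 2 * (‖A‖ ^ 2 * ‖u s‖) := by positivity
        linarith [e4.1]
      · have : ‖u s‖ * (1 + h ^ 2 * ‖A‖ ^ 2) = ‖u s‖ + h ^ 2 * (‖A‖ ^ 2 * ‖u s‖) := by ring
        linarith [e4.2]
    refine e5.trans (le_abs_self _)
  have hc := is_const_of_deriv_eq_zero (f := fun s => ‖u s‖)
    (fun s => (hn s).differentiableAt) (fun s => (hn s).deriv) t 0
  have h0 : u 0 = x := by
    rw [hu]
    simp
  show ‖u t‖ = ‖x‖
  rw [hc, h0]

end Pool.Agent.Q98.BM
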