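import Pool.Agent.Q98.BM.Ext
import Pool.Agent.Q98.BM.Fin

/-!
# Transitive spaces with a skew-Hermitian operator and a Riesz type isometry
-/

set_option autoImplicit false

open Filter Topology
open Pool.H590R3.Ab Pool.Agent.W687.Rot

namespace Pool.Agent.Q98.BM

variable {Z : Type*} [NormedAddCommGroup Z] [NormedSpace ℝ Z] [CompleteSpace Z]

theorem hilbert_of_skew (htr : Trans Z) (hinf : ¬ FiniteDimensional ℝ Z) (T : Z ≃ₗᵢ[ℝ] Z)
    (hT : ∃ x, T x ≠ x) (hF : FF T) (X : Z →L[ℝ] Z) (hX : Sk X) (hne : ∃ x, X x ≠ 0)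
    (hker : ∃ x, x ≠ 0 ∧ X x = 0) (x y : Z) :
    ‖x + y‖ * ‖x + y‖ + ‖x - y‖ * ‖x - y‖ = 2 * (‖x‖ * ‖x‖ + ‖y‖ * ‖y‖) := by
  obtain ⟨P, hP1, hP2, hP3, hP4⟩ := exists_proj hT hF
  obtain ⟨h, hh⟩ : ∃ h : Z ≃ₗᵢ[ℝ] Z, ∃ x, T (h.symm (X (h x))) ≠ h.symm (X (h (T x))) := by
    by_contra hcon
    push Not at hcon
    have hcomm : ∀ (h : Z ≃ₗᵢ[ℝ] Z) (x : Z), X (h (P (h.symm x))) = h (P (h.symm (X x))) := by
      intro h x
      set Xh : Z →L[ℝ] Z := op h⁻¹ * X * op h with hXh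
      have hXa : ∀ z, Xh z = h.symm (X (h z)) := fun z => rfl
      have h1 := hP4 Xh (fun z => by rw [hXa, hXa]; exact (hcon h z).symm) (h.symm x)
      rw [hXa, hXa, h.apply_symm_apply] at h1
      have h2 := congrArg h h1
      rwa [h.apply_symm_apply] at h2
    have hinv : Inv P (LinearMap.ker (X : Z →ₗ[ℝ] Z)) := by
      intro h x hx
      have hx' : X x = 0 := hx
      show X (h (P (h.symm x))) = 0
      rw [hcomm, hx']
      simp
    rcases irr htr hinf P hP1 hP2 _ hinv with h0 | h0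
    · obtain ⟨x, hx0, hx⟩ := hker
      apply hx0
      have : x ∈ LinearMap.ker (X : Z →ₗ[ℝ] Z) := hx
      rw [h0] at this
      exact (Submodule.mem_bot ℝ).1 this
    · obtain ⟨x, hx⟩ := hne
      apply hx
      have : x ∈ LinearMap.ker (X : Z →ₗ[ℝ] Z) := by rw [h0]; trivial
      exact this
  obtain ⟨x0, hx0⟩ := hh
  have hXh : Sk (op h⁻¹ * X * op h) := hX.conj h.symm (fun z => rfl)
  obtain ⟨A, hA, hAfd, hAne⟩ := extract hF hXh ⟨x0, hx0⟩
  obtain ⟨T', hT', hT'1⟩ := exists_FR hA hAfd hAne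
  exact finrank_hilbert htr hinf T' hT' hT'1 x y

end Pool.Agent.Q98.BM
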