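import Pool.Agent.Q98.BM.Dual

/-!
# Small isometries
-/

set_option autoImplicit false

open Filter Topology Metric
open Pool.H590R3.Ab Pool.Agent.W687.Rot

namespace Pool.Agent.Q98.BM

variable {E : Type*} [NormedAddCommGroup E] [NormedSpace ℝ E] [CompleteSpace E]

/-- a closed subspace containing a neighbourhood of a unit vector in the sphere is everything -/
lemma top_of_sphere (V : Submodule ℝ E) (x : E) (hx : ‖x‖ = 1) (hxV : x ∈ V) {t : ℝ} (ht : 0 < t)
    (h : ∀ y : E, ‖y‖ = 1 → ‖y - x‖ ≤ t → y ∈ V) : V = ⊤ := by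
  rw [eq_top_iff]
  intro w _
  set s : ℝ := min t 1 / (4 * (‖w‖ + 1)) with hs
  have hw : 0 ≤ ‖w‖ := norm_nonneg w
  have hmin : 0 < min t 1 := lt_min ht one_pos
  have hs0 : 0 < s := by positivity
  have hsw : s * ‖w‖ ≤ min t 1 / 4 := by
    rw [hs, div_mul_eq_mul_div, div_le_div_iff₀ (by positivity) (by norm_num)]
    nlinarith
  set y : E := x + s • w with hy
  have hyx : ‖y - x‖ = s * ‖w‖ := by
    rw [hy, add_sub_cancel_left, norm_smul, Real.norm_of_nonneg hs0.le]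
  have hy1 : |‖y‖ - 1| ≤ s * ‖w‖ := by
    rw [← hx, ← hyx]
    exact abs_norm_sub_norm_le y x
  have hm1 : min t 1 ≤ 1 := min_le_right _ _
  have hmt : min t 1 ≤ t := min_le_left _ _
  have hypos : 0 < ‖y‖ := by
    have := (abs_le.1 hy1).1
    linarith
  set v : E := ‖y‖⁻¹ • y with hv
  have hv1 : ‖v‖ = 1 := by
    rw [hv, norm_smul, norm_inv, norm_norm, inv_mul_cancel₀ hypos.ne']
  have hvy : y = ‖y‖ • v := by
    rw [hv, smul_smul, mul_inv_cancel₀ hypos.ne', one_smul]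
  have hvx : ‖v - x‖ ≤ t := by
    have h1 : ‖v - y‖ = |‖y‖ - 1| := by
      have h2 : v - y = (1 - ‖y‖) • v := by
        rw [sub_smul, one_smul, ← hvy]
      rw [h2, norm_smul, hv1, mul_one, Real.norm_eq_abs, abs_sub_comm]
    calc ‖v - x‖ = ‖(v - y) + (y - x)‖ := by rw [sub_add_sub_cancel]
      _ ≤ ‖v - y‖ + ‖y - x‖ := norm_add_le _ _
      _ ≤ s * ‖w‖ + s * ‖w‖ := by rw [h1, hyx]; linarith
      _ ≤ t := by linarith
  have hyV : y ∈ V := by
    rw [hvy]
    exact V.smul_mem _ (h v hv1 hvx)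
  have h1 : s • w ∈ V := by
    have := V.sub_mem hyV hxV
    rwa [hy, add_sub_cancel_left] at this
  have h2 := V.smul_mem s⁻¹ h1
  rwa [smul_smul, inv_mul_cancel₀ hs0.ne', one_smul] at h2

theorem exists_small (hinf : ¬ FiniteDimensional ℝ E) {T : E ≃ₗᵢ[ℝ] E} (hT : ∃ x, T x ≠ x)
    (hF : FF T) (hA : AC T) {ε : ℝ} (hε : 0 < ε) :
    ∃ S : E ≃ₗᵢ[ℝ] E, op S - 1 ≠ 0 ∧ ‖op S - 1‖ ≤ ε ∧
      ∀ δ : ℝ, 0 < δ → ∃ z : E, ‖z‖ = 1 ∧ ‖S z - z‖ ≤ δ := by
  obtain ⟨e, he, hne⟩ := exists_far hT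
  set V := LinearMap.range (Ps T (cb e) : E →ₗ[ℝ] E) with hV
  have hVfd : FiniteDimensional ℝ V := hF e he
  have hVc : IsClosed (V : Set E) := Submodule.closed_of_finiteDimensional V
  obtain ⟨x, hxV, hx1⟩ : ∃ x : E, x ∈ V ∧ ‖x‖ = 1 := by
    obtain ⟨w, hw⟩ : ∃ w, Ps T (cb e) w ≠ 0 := by
      by_contra hcon
      push Not at hcon
      exact hne (by ext w; exact hcon w)
    have hn : 0 < ‖Ps T (cb e) w‖ := norm_pos_iff.2 hw
    refine ⟨‖Ps T (cb e) w‖⁻¹ • Ps T (cb e) w, V.smul_mem _ ⟨w, rfl⟩, ?_⟩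
    rw [norm_smul, norm_inv, norm_norm, inv_mul_cancel₀ hn.ne']
  obtain ⟨t, ht, h⟩ := hA ε hε x hx1
  obtain ⟨k, hk, hkne⟩ : ∃ k : E ≃ₗᵢ[ℝ] E, ‖op k * op T - op T * op k‖ ≤ ε ∧
      op k * op T ≠ op T * op k := by
    by_contra hcon
    push Not at hcon
    have hall : ∀ y : E, ‖y‖ = 1 → ‖y - x‖ ≤ t → y ∈ V := by
      intro y hy hyx
      have h1 : y ∈ closure (V : Set E) := by
        rw [Metric.mem_closure_iff]
        intro η hη
        obtain ⟨k, hk1, hk2⟩ := h y hy hyx (η / 2) (by positivity)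
        have hc := hcon k hk1
        have hkV : k x ∈ V := by
          obtain ⟨w, hw⟩ := hxV
          have h2 := comm_Ps T (op k) (fun z => DFunLike.congr_fun hc z) (cb_contDiff e) w
          refine ⟨k w, ?_⟩
          rw [← hw]
          exact h2.symm
        refine ⟨k x, hkV, ?_⟩
        rw [dist_comm, dist_eq_norm]
        linarith
      rwa [hVc.closure_eq] at h1
    have htop := top_of_sphere V x hx1 hxV ht hall
    apply hinf
    have hfd : FiniteDimensional ℝ (⊤ : Submodule ℝ E) := by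
      rw [← htop]; infer_instance
    exact (LinearEquiv.finiteDimensional (Submodule.topEquiv (R := ℝ) (M := E)))
  set S : E ≃ₗᵢ[ℝ] E := k * T * k⁻¹ * T⁻¹ with hS
  have hSa : ∀ z, S z = k (T (k.symm (T.symm z))) := fun z => rfl
  refine ⟨S, ?_, ?_, ?_⟩
  · intro h0
    apply hkne
    ext z
    have h1 : op S - 1 = 0 := h0
    have h2 := DFunLike.congr_fun h1 (T (k z))
    have h3 : S (T (k z)) - T (k z) = 0 := h2
    rw [hSa, T.symm_apply_apply, k.symm_apply_apply, sub_eq_zero] at h3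
    exact h3
  · have h1 : op S - 1 = (op k * op T - op T * op k) * (op k⁻¹ * op T⁻¹) := by
      ext z
      show S z - z = k (T (k.symm (T.symm z))) - T (k (k.symm (T.symm z)))
      rw [hSa, k.apply_symm_apply, T.apply_symm_apply]
    rw [h1]
    refine (norm_mul_le _ _).trans ?_
    have h2 : ‖op k⁻¹ * op T⁻¹‖ ≤ 1 := by
      refine (norm_mul_le _ _).trans ?_
      have i1 := op_norm_le k⁻¹
      have i2 := op_norm_le T⁻¹
      nlinarith [norm_nonneg (op k⁻¹), norm_nonneg (op T⁻¹)]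
    calc _ ≤ ε * 1 := mul_le_mul hk h2 (norm_nonneg _) hε.le
      _ = ε := mul_one ε
  · intro δ hδ
    obtain ⟨e0, he0, -, hnear⟩ := near_bound (ε := δ / 2) (by positivity)
    set Ph := Ps T (cb (e0 / 2)) with hPh
    have hfd : FiniteDimensional ℝ (LinearMap.range (Ph : E →ₗ[ℝ] E)) := hF _ (by positivity)
    set G := LinearMap.range (Ph : E →ₗ[ℝ] E) with hG
    let Q : E →ₗ[ℝ] (G × G) :=
      LinearMap.prod (LinearMap.rangeRestrict (Ph : E →ₗ[ℝ] E))
        ((LinearMap.rangeRestrict (Ph : E →ₗ[ℝ] E)).comp (k.symm.toLinearEquiv : E →ₗ[ℝ] E))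
    obtain ⟨y0, hy0, hQy⟩ : ∃ y : E, y ≠ 0 ∧ Q y = 0 := by
      by_contra hcon
      push Not at hcon
      apply hinf
      refine FiniteDimensional.of_injective Q ?_
      rw [← LinearMap.ker_eq_bot, LinearMap.ker_eq_bot']
      intro y hy
      by_contra hne
      exact hcon y hne hy
    have hn : 0 < ‖y0‖ := norm_pos_iff.2 hy0
    set y : E := ‖y0‖⁻¹ • y0 with hy
    have hy1 : ‖y‖ = 1 := by
      rw [hy, norm_smul, norm_inv, norm_norm, inv_mul_cancel₀ hn.ne']
    have hP1 : Ph y = 0 := by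
      have h1 : Ph y0 = 0 := congrArg (fun p : G × G => (p.1 : E)) hQy
      rw [hy, map_smul, h1, smul_zero]
    have hP2 : Ph (k.symm y) = 0 := by
      have h1 : Ph (k.symm y0) = 0 := congrArg (fun p : G × G => (p.2 : E)) hQy
      rw [hy, map_smul, map_smul, h1, smul_zero]
    have hfix : ∀ z, Ph z = 0 → ‖T z - z‖ ≤ δ / 2 * ‖z‖ := by
      intro z hz
      refine hnear (e0 / 2) (by positivity) (by linarith) E T z ?_
      have h2 := Ps_cb T (e0 / 2) z
      rw [← hPh, hz] at h2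
      exact (sub_eq_zero.1 h2.symm).symm
    refine ⟨T y, by rw [T.norm_map, hy1], ?_⟩
    rw [hSa, T.symm_apply_apply]
    have h1 := hfix y hP1
    have h2 := hfix (k.symm y) hP2
    rw [LinearIsometryEquiv.norm_map, hy1] at h2
    rw [hy1] at h1
    have h3 : k (T (k.symm y)) - T y = k (T (k.symm y) - k.symm y) - (T y - y) := by
      rw [map_sub, k.apply_symm_apply]
      abel
    rw [h3]
    refine (norm_sub_le _ _).trans ?_
    rw [k.norm_map]
    linarith

end Pool.Agent.Q98.BM
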