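import Pool.Agent.Q98.BM.Skew

/-!
# The ultrapower of a Banach space
-/

set_option autoImplicit false

open Filter Topology
open Pool.H590R3.Ab Pool.Agent.W687.Rot

namespace Pool.Agent.Q98.BM

variable (E : Type*) [NormedAddCommGroup E] [NormedSpace ℝ E]

/-- bounded sequences -/
abbrev Li := lp (fun _ : ℕ => E) ⊤

/-- sequences converging to zero along the ultrafilter -/
def NN : Submodule ℝ (Li E) where
  carrier := {x | Tendsto (fun n => ‖x n‖) (hyperfilter ℕ : Filter ℕ) (𝓝 0)}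
  add_mem' := by
    intro x y hx hy
    have h := Tendsto.add (f := fun n => ‖x n‖) (g := fun n => ‖y n‖) hx hy
    rw [add_zero] at h
    exact squeeze_zero (fun n => norm_nonneg _) (fun n => norm_add_le (x n) (y n)) h
  zero_mem' := by
    show Tendsto (fun n => ‖((0 : Li E) : ℕ → E) n‖) _ _
    simp
  smul_mem' := by
    intro c x hx
    have h := Tendsto.const_mul ‖c‖ (f := fun n => ‖x n‖) hx
    rw [mul_zero] at h
    refine h.congr (fun n => ?_)
    rw [← norm_smul]
    rfl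

instance NN_closed : IsClosed (NN E : Set (Li E)) := by
  rw [← isSeqClosed_iff_isClosed]
  intro x l hx hl
  show Tendsto (fun n => ‖l n‖) _ _
  rw [Metric.tendsto_nhds]
  intro ε hε
  rw [Metric.tendsto_atTop] at hl
  obtain ⟨N, hN⟩ := hl (ε / 2) (by positivity)
  have h1 := hN N le_rfl
  have h2 : Tendsto (fun n => ‖x N n‖) (hyperfilter ℕ : Filter ℕ) (𝓝 0) := hx N
  rw [Metric.tendsto_nhds] at h2
  filter_upwards [h2 (ε / 2) (by positivity)] with n hn
  rw [Real.dist_eq, sub_zero, abs_of_nonneg (norm_nonneg _)] at hn ⊢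
  have h3 : ‖x N n - l n‖ ≤ ‖x N - l‖ := lp.norm_apply_le_norm ENNReal.top_ne_zero (x N - l) n
  rw [dist_eq_norm] at h1
  have h4 : ‖l n‖ ≤ ‖x N n‖ + ‖x N n - l n‖ := by
    have := norm_sub_le (x N n) (x N n - l n)
    rwa [sub_sub_cancel] at this
  linarith

/-- the ultrapower -/
def UP : Type _ := (Li E) ⧸ (NN E)

noncomputable instance instUP1 : NormedAddCommGroup (UP E) :=
  (inferInstance : NormedAddCommGroup ((Li E) ⧸ (NN E)))

noncomputable instance instUP2 : NormedSpace ℝ (UP E) :=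
  (inferInstance : NormedSpace ℝ ((Li E) ⧸ (NN E)))

noncomputable instance instUP3 [CompleteSpace E] : CompleteSpace (UP E) :=
  (inferInstance : CompleteSpace ((Li E) ⧸ (NN E)))

variable {E}

/-- the class of a sequence -/
noncomputable def mk (x : Li E) : UP E := (Submodule.Quotient.mk x : (Li E) ⧸ (NN E))

lemma mk_eq_iff (x y : Li E) : mk x = mk y ↔
    Tendsto (fun n => ‖x n - y n‖) (hyperfilter ℕ : Filter ℕ) (𝓝 0) := by
  exact Submodule.Quotient.eq (NN E)

lemma mk_surj (z : UP E) : ∃ x : Li E, mk x = z := Submodule.Quotient.mk_surjective _ z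

lemma norm_lim (x : Li E) : ∃ l : ℝ, Tendsto (fun n => ‖x n‖) (hyperfilter ℕ : Filter ℕ) (𝓝 l) :=
  ultra_lim (hyperfilter ℕ) (C := ‖x‖) (Eventually.of_forall fun n => by
    rw [abs_of_nonneg (norm_nonneg _)]
    exact lp.norm_apply_le_norm ENNReal.top_ne_zero x n)

lemma norm_mk (x : Li E) :
    Tendsto (fun n => ‖x n‖) (hyperfilter ℕ : Filter ℕ) (𝓝 ‖mk x‖) := by
  obtain ⟨l, hl⟩ := norm_lim x
  have hl0 : 0 ≤ l := ge_of_tendsto hl (Eventually.of_forall fun n => norm_nonneg _)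
  have h1 : l ≤ ‖mk x‖ := by
    refine le_of_forall_pos_lt_add (fun ε hε => ?_)
    obtain ⟨m, hm, hm'⟩ := QuotientAddGroup.exists_norm_mk_lt (S := (NN E).toAddSubgroup) (mk x) hε
    have h2 : mk m = mk x := hm
    rw [mk_eq_iff] at h2
    have h3 : Tendsto (fun n => ‖m n‖) (hyperfilter ℕ : Filter ℕ) (𝓝 l) := by
      have h4 : Tendsto (fun n => ‖m n‖ - ‖x n‖) (hyperfilter ℕ : Filter ℕ) (𝓝 0) := by
        refine squeeze_zero_norm (fun n => ?_) h2
        rw [Real.norm_eq_abs]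
        exact abs_norm_sub_norm_le _ _
      have := h4.add hl
      simpa using this
    refine lt_of_le_of_lt (le_of_tendsto h3 (Eventually.of_forall fun n => ?_)) hm'
    exact lp.norm_apply_le_norm ENNReal.top_ne_zero m n
  have h2 : ‖mk x‖ ≤ l := by
    refine le_of_forall_pos_le_add (fun ε hε => ?_)
    classical
    let A : Set ℕ := {n | ‖x n‖ < l + ε}
    have hA : ∀ᶠ n in (hyperfilter ℕ : Filter ℕ), n ∈ A := by
      have := hl.eventually (gt_mem_nhds (show l < l + ε by linarith))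
      exact this
    let y : Li E := ⟨fun n => if n ∈ A then x n else 0, by
      refine memℓp_infty ⟨‖x‖, ?_⟩
      rintro _ ⟨n, rfl⟩
      simp only
      split_ifs
      · exact lp.norm_apply_le_norm ENNReal.top_ne_zero x n
      · rw [norm_zero]; exact norm_nonneg _⟩
    have hy : ∀ n, y n = if n ∈ A then x n else 0 := fun n => rfl
    have hxy : mk x = mk y := by
      rw [mk_eq_iff]
      refine tendsto_const_nhds.congr' ?_
      filter_upwards [hA] with n hn
      rw [hy, if_pos hn, sub_self, norm_zero]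
    rw [hxy]
    refine (Submodule.Quotient.norm_mk_le (NN E) y).trans ?_
    refine lp.norm_le_of_forall_le (by linarith) (fun n => ?_)
    rw [hy]
    split_ifs with h
    · exact le_of_lt h
    · rw [norm_zero]; linarith
  have h3 : l = ‖mk x‖ := le_antisymm h1 h2
  rwa [h3] at hl

lemma mk_add (x y : Li E) : mk (x + y) = mk x + mk y := rfl

lemma mk_smul (c : ℝ) (x : Li E) : mk (c • x) = c • mk x := rfl

/-- bounded sequences -/
def sq' (x : ℕ → E) (hx : ∃ C, ∀ n, ‖x n‖ ≤ C) : Li E := ⟨x, by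
  obtain ⟨C, hC⟩ := hx
  refine memℓp_infty ⟨C, ?_⟩
  rintro _ ⟨n, rfl⟩
  exact hC n⟩

lemma sq'_apply (x : ℕ → E) (hx : ∃ C, ∀ n, ‖x n‖ ≤ C) (n : ℕ) : sq' x hx n = x n := rfl

lemma li_le (x : Li E) (n : ℕ) : ‖x n‖ ≤ ‖x‖ := lp.norm_apply_le_norm ENNReal.top_ne_zero x n

/-- termwise application -/
def lA (A : ℕ → E →L[ℝ] E) (C : ℝ) (hA : ∀ n, ‖A n‖ ≤ C) : Li E →ₗ[ℝ] Li E where
  toFun x := sq' (fun n => A n (x n)) ⟨C * ‖x‖, fun n => by
    refine ((A n).le_opNorm _).trans ?_
    exact mul_le_mul (hA n) (li_le x n) (norm_nonneg _) ((norm_nonneg _).trans (hA n))⟩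
  map_add' x y := by
    apply lp.ext
    funext n
    exact map_add (A n) _ _
  map_smul' c x := by
    apply lp.ext
    funext n
    exact map_smul (A n) _ _

lemma lA_apply (A : ℕ → E →L[ℝ] E) (C : ℝ) (hA : ∀ n, ‖A n‖ ≤ C) (x : Li E) (n : ℕ) :
    lA A C hA x n = A n (x n) := rfl

/-- the operator on the ultrapower -/
noncomputable def upL0 (A : ℕ → E →L[ℝ] E) (C : ℝ) (hA : ∀ n, ‖A n‖ ≤ C) : UP E →ₗ[ℝ] UP E :=
  (NN E).mapQ (NN E) (lA A C hA) (by
    intro x hx
    have hx' : Tendsto (fun n => ‖x n‖) (hyperfilter ℕ : Filter ℕ) (𝓝 0) := hx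
    show Tendsto (fun n => ‖A n (x n)‖) (hyperfilter ℕ : Filter ℕ) (𝓝 0)
    have h := hx'.const_mul C
    rw [mul_zero] at h
    refine squeeze_zero (fun n => norm_nonneg _) (fun n => ?_) h
    exact ((A n).le_opNorm _).trans (mul_le_mul_of_nonneg_right (hA n) (norm_nonneg _)))

/-- the operator on the ultrapower -/
noncomputable def upL (A : ℕ → E →L[ℝ] E) (C : ℝ) (hA : ∀ n, ‖A n‖ ≤ C) : UP E →L[ℝ] UP E :=
  (upL0 A C hA).mkContinuous C (by
    intro z
    obtain ⟨x, rfl⟩ := mk_surj z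
    have h1 : Tendsto (fun n => ‖A n (x n)‖) (hyperfilter ℕ : Filter ℕ)
      (𝓝 ‖mk (lA A C hA x)‖) := norm_mk _
    have h2 := (norm_mk x).const_mul C
    exact le_of_tendsto_of_tendsto' h1 h2 (fun n => ((A n).le_opNorm _).trans
      (mul_le_mul_of_nonneg_right (hA n) (norm_nonneg _))))

lemma upL_mk (A : ℕ → E →L[ℝ] E) (C : ℝ) (hA : ∀ n, ‖A n‖ ≤ C) (x : Li E) :
    upL A C hA (mk x) = mk (lA A C hA x) := rfl

/-- the isometry of the ultrapower -/
noncomputable def upI (T : ℕ → E ≃ₗᵢ[ℝ] E) : UP E ≃ₗᵢ[ℝ] UP E where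
  toLinearEquiv :=
    { toFun := upL (fun n => op (T n)) 1 (fun n => op_norm_le _)
      map_add' := fun x y => map_add _ x y
      map_smul' := fun c x => map_smul _ c x
      invFun := upL (fun n => op (T n).symm) 1 (fun n => op_norm_le _)
      left_inv := by
        intro z
        obtain ⟨x, rfl⟩ := mk_surj z
        rw [upL_mk, upL_mk]
        congr 1
        apply lp.ext
        funext n
        exact (T n).symm_apply_apply (x n)
      right_inv := by
        intro z
        obtain ⟨x, rfl⟩ := mk_surj z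
        rw [upL_mk, upL_mk]
        congr 1
        apply lp.ext
        funext n
        exact (T n).apply_symm_apply (x n) }
  norm_map' := by
    intro z
    obtain ⟨x, rfl⟩ := mk_surj z
    have h1 := norm_mk (lA (fun n => op (T n)) 1 (fun n => op_norm_le _) x)
    have h2 := norm_mk x
    refine tendsto_nhds_unique h1 (h2.congr (fun n => ?_))
    exact ((T n).norm_map (x n)).symm

lemma upI_mk (T : ℕ → E ≃ₗᵢ[ℝ] E) (x : Li E) :
    upI T (mk x) = mk (lA (fun n => op (T n)) 1 (fun n => op_norm_le _) x) := rfl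

/-- constant sequences -/
noncomputable def cst : E →ₗ[ℝ] UP E where
  toFun x := mk (sq' (fun _ => x) ⟨‖x‖, fun _ => le_rfl⟩)
  map_add' x y := rfl
  map_smul' c x := rfl

lemma cst_norm (x : E) : ‖cst x‖ = ‖x‖ := by
  have h1 := norm_mk (sq' (fun _ => x) ⟨‖x‖, fun _ => le_rfl⟩)
  exact tendsto_nhds_unique h1 tendsto_const_nhds

lemma inf_dim (hinf : ¬ FiniteDimensional ℝ E) : ¬ FiniteDimensional ℝ (UP E) := by
  intro h
  apply hinf
  refine FiniteDimensional.of_injective (cst (E := E)) ?_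
  rw [← LinearMap.ker_eq_bot, LinearMap.ker_eq_bot']
  intro x hx
  rw [← norm_eq_zero, ← cst_norm, hx, norm_zero]

theorem up_trans (htr : Trans E) : Trans (UP E) := by
  classical
  have key : ∀ z : UP E, ‖z‖ = 1 → ∃ x : Li E, mk x = z ∧ ∀ n, ‖x n‖ = 1 := by
    intro z hz
    obtain ⟨x, rfl⟩ := mk_surj z
    have hx := norm_mk x
    rw [hz] at hx
    obtain ⟨n0, hn0⟩ : ∃ n0, x n0 ≠ 0 := by
      by_contra hcon
      push Not at hcon
      have : Tendsto (fun n => ‖x n‖) (hyperfilter ℕ : Filter ℕ) (𝓝 0) := by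
        refine tendsto_const_nhds.congr (fun n => ?_)
        rw [hcon n, norm_zero]
      exact zero_ne_one (tendsto_nhds_unique this hx)
    set e : E := ‖x n0‖⁻¹ • x n0 with he
    have he1 : ‖e‖ = 1 := by
      rw [he, norm_smul, norm_inv, norm_norm, inv_mul_cancel₀ (norm_ne_zero_iff.2 hn0)]
    let y : ℕ → E := fun n => if x n = 0 then e else ‖x n‖⁻¹ • x n
    have hy1 : ∀ n, ‖y n‖ = 1 := by
      intro n
      by_cases h : x n = 0
      · simp only [y, if_pos h, he1]
      · simp only [y, if_neg h]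
        rw [norm_smul, norm_inv, norm_norm, inv_mul_cancel₀ (norm_ne_zero_iff.2 h)]
    refine ⟨sq' y ⟨1, fun n => (hy1 n).le⟩, ?_, hy1⟩
    rw [mk_eq_iff]
    have h1 : Tendsto (fun n => |1 - ‖x n‖|) (hyperfilter ℕ : Filter ℕ) (𝓝 0) := by
      have := (tendsto_const_nhds (x := (1:ℝ))).sub hx
      rw [sub_self] at this
      simpa using this.abs
    refine h1.congr' ?_
    have h2 : ∀ᶠ n in (hyperfilter ℕ : Filter ℕ), ‖x n‖ ≠ 0 :=
      hx.eventually_ne one_ne_zero
    filter_upwards [h2] with n hn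
    have hn' : x n ≠ 0 := norm_ne_zero_iff.1 hn
    rw [sq'_apply]
    simp only [y, if_neg hn']
    have h3 : ‖x n‖⁻¹ • x n - x n = ((1 - ‖x n‖) * ‖x n‖⁻¹) • x n := by
      rw [sub_mul, sub_smul, one_mul, mul_inv_cancel₀ hn, one_smul]
    rw [h3, norm_smul, norm_mul, norm_inv, norm_norm, mul_assoc, inv_mul_cancel₀ hn, mul_one,
      Real.norm_eq_abs]
  intro z w hz hw
  obtain ⟨x, rfl, hx⟩ := key z hz
  obtain ⟨y, rfl, hy⟩ := key w hw
  choose T hT using fun n => htr (x n) (y n) (hx n) (hy n)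
  refine ⟨upI T, ?_⟩
  rw [upI_mk]
  congr 1
  apply lp.ext
  funext n
  exact hT n

end Pool.Agent.Q98.BM
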