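import Pool.Agent.Q98.BM.Ultra

/-!
# The functional calculus on the ultrapower
-/

set_option autoImplicit false

open Filter Topology
open Pool.H590R3.Ab Pool.Agent.W687.Rot

namespace Pool.Agent.Q98.BM

variable {E : Type*} [NormedAddCommGroup E] [NormedSpace ℝ E]

lemma upL_norm_le (A : ℕ → E →L[ℝ] E) (C : ℝ) (hC : 0 ≤ C) (hA : ∀ n, ‖A n‖ ≤ C) :
    ‖upL A C hA‖ ≤ C := by
  refine ContinuousLinearMap.opNorm_le_bound _ hC (fun z => ?_)
  obtain ⟨x, rfl⟩ := mk_surj z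
  rw [upL_mk]
  have h1 := norm_mk (lA A C hA x)
  have h2 := (norm_mk x).const_mul C
  exact le_of_tendsto_of_tendsto' h1 h2 (fun n => ((A n).le_opNorm _).trans
      (mul_le_mul_of_nonneg_right (hA n) (norm_nonneg _)))

/-- constant operators -/
noncomputable def PhiL : (E →L[ℝ] E) →ₗ[ℝ] (UP E →L[ℝ] UP E) where
  toFun := fun A => upL (fun _ => A) ‖A‖ (fun _ => le_rfl)
  map_add' := fun A B => by
    ext z
    obtain ⟨x, rfl⟩ := mk_surj z
    rfl
  map_smul' := fun c A => by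
    ext z
    obtain ⟨x, rfl⟩ := mk_surj z
    rfl

/-- constant operators -/
noncomputable def Phi : (E →L[ℝ] E) →L[ℝ] (UP E →L[ℝ] UP E) :=
  (PhiL (E := E)).mkContinuous 1 (fun A : E →L[ℝ] E => by
    rw [one_mul]
    exact upL_norm_le (E := E) (fun _ => A) ‖A‖ (norm_nonneg A) (fun _ => le_rfl))

lemma Phi_mk (A : E →L[ℝ] E) (x : Li E) :
    Phi A (mk x) = mk (lA (fun _ => A) ‖A‖ (fun _ => le_rfl) x) := rfl

lemma Phi_op (T : E ≃ₗᵢ[ℝ] E) : op (upI (fun _ => T)) = Phi (op T) := by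
  ext z
  obtain ⟨x, rfl⟩ := mk_surj z
  rfl

lemma Phi_mul (A B : E →L[ℝ] E) : Phi (A * B) = Phi A * Phi B := by
  ext z
  obtain ⟨x, rfl⟩ := mk_surj z
  rfl

lemma Phi_zpow (T : E ≃ₗᵢ[ℝ] E) (k : ℤ) : op (upI (fun _ => T) ^ k) = Phi (op (T ^ k)) := by
  have h1 : (upI (fun _ => T)) ^ k = upI (fun _ => T ^ k) := by
    have hnat : ∀ (S : E ≃ₗᵢ[ℝ] E) (k : ℕ), (upI (fun _ => S)) ^ k = upI (fun _ => S ^ k) := by
      intro S k
      induction k with
      | zero =>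
        ext z
        obtain ⟨x, rfl⟩ := mk_surj z
        rfl
      | succ k ih =>
        rw [pow_succ', ih]
        ext z
        obtain ⟨x, rfl⟩ := mk_surj z
        show mk _ = mk _
        congr 1
        apply lp.ext
        funext n
        show S ((S ^ k) (x n)) = (S ^ (k + 1)) (x n)
        rw [pow_succ']
        rfl
    have hinv : (upI (fun _ => T))⁻¹ = upI (fun _ => T⁻¹) := by
      ext z
      obtain ⟨x, rfl⟩ := mk_surj z
      rfl
    rcases Int.eq_nat_or_neg k with ⟨m, rfl | rfl⟩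
    · rw [zpow_natCast, hnat]
      simp only [zpow_natCast]
    · rw [zpow_neg, zpow_natCast, ← inv_pow, hinv, hnat]
      congr 1
      funext _
      rw [zpow_neg, zpow_natCast, inv_pow]
  rw [h1, Phi_op]

variable [CompleteSpace E]

lemma Ps_up (T : E ≃ₗᵢ[ℝ] E) {g : ℝ → ℝ} (hg : ContDiff ℝ 2 g) :
    Ps (upI (fun _ => T)) g = Phi (Ps T g) := by
  unfold Ps Fop
  rw [Phi.map_tsum (summable_term T (sm hg))]
  congr 1
  funext k
  rw [Phi_zpow, map_smul]

lemma FF_up {T : E ≃ₗᵢ[ℝ] E} (hT : FF T) : FF (upI (fun _ => T)) := by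
  intro e he
  rw [Ps_up T (cb_contDiff e)]
  set C := Ps T (cb e) with hC
  have hfd : FiniteDimensional ℝ (LinearMap.range (C : E →ₗ[ℝ] E)) := hT e he
  set F := LinearMap.range (C : E →ₗ[ℝ] E) with hF
  refine Submodule.finiteDimensional_of_le (S₂ := F.map (cst (E := E))) ?_
  rintro _ ⟨z, rfl⟩
  obtain ⟨x, rfl⟩ := mk_surj z
  have _ : ProperSpace F := FiniteDimensional.proper_real F
  let y : ℕ → F := fun n => ⟨C (x n), ⟨x n, rfl⟩⟩
  have hy : ∀ n, y n ∈ Metric.closedBall (0 : F) (‖C‖ * ‖x‖) := by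
    intro n
    rw [mem_closedBall_zero_iff]
    show ‖C (x n)‖ ≤ _
    exact (C.le_opNorm _).trans (mul_le_mul_of_nonneg_left (li_le x n) (norm_nonneg _))
  obtain ⟨f, -, hf⟩ := (isCompact_closedBall (0 : F) (‖C‖ * ‖x‖)).ultrafilter_le_nhds
    ((hyperfilter ℕ).map y) (by
      rw [Ultrafilter.coe_map, le_principal_iff]
      exact Filter.mem_map.2 (Filter.univ_mem' hy))
  have hf' : Tendsto y (hyperfilter ℕ : Filter ℕ) (𝓝 f) := hf
  refine ⟨f, f.2, ?_⟩
  show cst (f : E) = Phi C (mk x)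
  rw [Phi_mk]
  refine ((mk_eq_iff _ _).2 ?_)
  have h1 : Tendsto (fun n => ‖y n - f‖) (hyperfilter ℕ : Filter ℕ) (𝓝 0) := by
    have h2 := (hf'.sub (tendsto_const_nhds (x := f))).norm
    rw [sub_self, norm_zero] at h2
    exact h2
  refine h1.congr (fun n => ?_)
  rw [norm_sub_rev]
  rfl

end Pool.Agent.Q98.BM
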